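import Pool.Agent.H934R4.AN.Stmts

/-!
# Assembly
-/

set_option autoImplicit false

noncomputable section

open Filter Topology Set
open scoped MatrixGroups Kronecker

namespace Pool.Agent.H934R4.AN

theorem finClasses_iff (S : Set (MulAut Gam)) : FinClasses S ↔
    ∃ T : Set (MulAut Gam), T.Finite ∧ ∀ φ ∈ S, ∃ ψ ∈ T, ∃ γ : Gam, φ = ψ * MulAut.conj γ := by
  constructor
  · intro h
    refine ⟨Quotient.out '' {x : Mod Gam | ∃ φ ∈ S, (QuotientGroup.mk φ : Mod Gam) = x},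
      h.image _, ?_⟩
    intro φ hφ
    refine ⟨_, mem_image_of_mem _ ⟨φ, hφ, rfl⟩, ?_⟩
    have h1 : (QuotientGroup.mk (Quotient.out (QuotientGroup.mk φ : Mod Gam)) : Mod Gam) =
        QuotientGroup.mk φ := Quotient.out_eq _
    rw [QuotientGroup.eq] at h1
    obtain ⟨γ, hγ⟩ := h1
    exact ⟨γ, by rw [hγ, mul_inv_cancel_left]⟩
  · rintro ⟨T, hT, h⟩
    refine (hT.image (fun φ => (QuotientGroup.mk φ : Mod Gam))).subset ?_
    rintro x ⟨φ, hφ, rfl⟩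
    obtain ⟨ψ, hψ, γ, rfl⟩ := h φ hφ
    refine ⟨ψ, hψ, ?_⟩
    show (QuotientGroup.mk ψ : Mod Gam) = QuotientGroup.mk (ψ * MulAut.conj γ)
    rw [QuotientGroup.eq]
    exact ⟨γ, by rw [inv_mul_cancel_left]⟩

theorem FinClasses.mono {S S' : Set (MulAut Gam)} (h : FinClasses S) (h' : S' ⊆ S) :
    FinClasses S' := by
  refine h.subset ?_
  rintro x ⟨φ, hφ, rfl⟩
  exact ⟨φ, h' hφ, rfl⟩

theorem FinClasses.inv {S : Set (MulAut Gam)} (h : FinClasses S) :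
    FinClasses {φ | φ⁻¹ ∈ S} := by
  rw [finClasses_iff] at h ⊢
  obtain ⟨T, hT, h⟩ := h
  refine ⟨(fun ψ => ψ⁻¹) '' T, hT.image _, ?_⟩
  intro φ hφ
  obtain ⟨ψ, hψ, γ, hγ⟩ := h _ hφ
  refine ⟨ψ⁻¹, ⟨ψ, hψ, rfl⟩, ψ γ⁻¹, ?_⟩
  have h1 : φ = (MulAut.conj γ)⁻¹ * ψ⁻¹ := by rw [← mul_inv_rev, ← hγ, inv_inv]
  rw [h1]
  ext x
  simp [mul_assoc]

theorem FinClasses.translate {S : Set (MulAut Gam)} (h : FinClasses S) (ψ : MulAut Gam) :
    FinClasses {φ | ψ * φ ∈ S} := by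
  rw [finClasses_iff] at h ⊢
  obtain ⟨T, hT, h⟩ := h
  refine ⟨(fun χ => ψ⁻¹ * χ) '' T, hT.image _, ?_⟩
  intro φ hφ
  obtain ⟨χ, hχ, γ, hγ⟩ := h _ hφ
  exact ⟨ψ⁻¹ * χ, ⟨χ, hχ, rfl⟩, γ, by rw [mul_assoc, ← hγ, inv_mul_cancel_left]⟩

theorem FinClasses.union {S S' : Set (MulAut Gam)} (h : FinClasses S) (h' : FinClasses S') :
    FinClasses (S ∪ S') := by
  refine (Set.Finite.union h h').subset ?_
  rintro x ⟨φ, hφ | hφ, rfl⟩
  · exact Or.inl ⟨φ, hφ, rfl⟩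
  · exact Or.inr ⟨φ, hφ, rfl⟩

theorem FinClasses.biUnion {α : Type*} (t : Set α) (ht : t.Finite) (S : α → Set (MulAut Gam))
    (h : ∀ a ∈ t, FinClasses (S a)) : FinClasses (⋃ a ∈ t, S a) := by
  refine (ht.biUnion h).subset ?_
  rintro x ⟨φ, hφ, rfl⟩
  simp only [mem_iUnion] at hφ ⊢
  obtain ⟨a, ha, h1⟩ := hφ
  exact ⟨a, ha, φ, h1, rfl⟩

/-- the automorphisms moving a point of `K` into the neighbourhood of the class of `ρ₁` -/
theorem key (hBd : TaskBd) (hFin : TaskFin) (V : Set (Rep Gam I4)) (c : ℝ) (hc : 0 < c)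
    (hV : ∀ ρ ∈ V, Disp c ρ) (K : Set (CharVar Gam I4)) (hK : IsCompact K) :
    FinClasses {φ | (act φ '' K ∩ cls '' V).Nonempty} := by
  obtain ⟨F, hF⟩ := hFin
  choose C hC using fun f => hBd K hK f
  obtain ⟨R, hR⟩ : ∃ R : ℝ, ∀ f ∈ F, 2 * (max (C f) 1) ^ (1 / c) ≤ R ∧ 2 ≤ R := by
    refine ⟨∑ f ∈ F, 2 * (max (C f) 1) ^ (1 / c) + 2, fun f hf => ?_⟩
    have h0 : ∀ f ∈ F, 0 ≤ 2 * (max (C f) 1) ^ (1 / c) := fun f _ => by positivity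
    have h1 := Finset.single_le_sum h0 hf
    have h2 := Finset.sum_nonneg h0
    constructor <;> linarith
  refine (hF R).mono ?_
  rintro φ ⟨x, ⟨y, hyK, hyx⟩, ρ', hρ', hρx⟩ f hf
  obtain ⟨ρ, rfl⟩ := Quotient.exists_rep y
  by_cases hf1 : f = 1
  · subst hf1
    rw [map_one]
    have : tr 1 = 2 := by
      simp [tr]
    rw [this, abs_of_pos two_pos]
    exact (hR 1 hf).2
  · have h1 : φ f ≠ 1 := by
      intro h; apply hf1; rwa [map_eq_one_iff φ φ.injective] at h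
    obtain ⟨μ, hμ, hle⟩ := hV ρ' hρ' (φ f) h1
    have h2 : cls ρ' = cls (precomp φ ρ) := by rw [hρx, ← hyx]; rfl
    have h3 : ∀ γ : Gam, (mat ρ' γ).charpoly = (mat (precomp φ ρ) γ).charpoly := Quotient.exact h2
    have h4 := h3 (φ f)
    rw [mat_precomp, MulAut.inv_apply_self] at h4
    rw [h4] at hμ
    have h5 := hC f ρ hyK μ hμ
    have h6 : (|tr (φ f)| / 2) ^ c ≤ max (C f) 1 := hle.trans (h5.trans (le_max_left _ _))
    have h7 : |tr (φ f)| / 2 ≤ (max (C f) 1) ^ (1 / c) := by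
      have h8 : 0 ≤ |tr (φ f)| / 2 := by positivity
      have h9 := Real.rpow_le_rpow (by positivity) h6 (by positivity : 0 ≤ 1 / c)
      rwa [← Real.rpow_mul h8, mul_one_div_cancel hc.ne', Real.rpow_one] at h9
    have := (hR f hf).1
    linarith

theorem assembly (hDisc : TaskDisc) (hFree : TaskFree) (hCoc : TaskCoc) (hFin : TaskFin)
    (hStab : TaskStab) (hIrr : TaskIrr) (hOpenIrr : TaskOpenIrr) (hOpenU : TaskOpenU)
    (hSimple : TaskSimple) (hNot : TaskNot) (hT2 : TaskT2) (hBd : TaskBd) (hAct : TaskAct) :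
    ∃ Γ : Subgroup SL(2, ℝ), IsSurfaceGroup Γ ∧
      ¬ IsMaximalDoD (simpleAnosovDomain Γ I4 1) ∧
      ∃ x : CharVar Γ I4, x ∉ simpleAnosovDomain Γ I4 1 ∧ ∀ Ω : Set (CharVar Γ I4), IsDoD Ω →
        ∃ Ω' : Set (CharVar Γ I4), IsDoD Ω' ∧ Ω ⊆ Ω' ∧ x ∈ Ω' := by
  have hx : cls rho1 ∉ simpleAnosovDomain Gam I4 1 := by
    rintro ⟨ρ, hρ, hρ1⟩
    exact hNot (subset_closure hSimple) ρ (Quotient.exact hρ1) hρ
  suffices hmain : ∀ Ω : Set (CharVar Gam I4), IsDoD Ω →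
      ∃ Ω' : Set (CharVar Gam I4), IsDoD Ω' ∧ Ω ⊆ Ω' ∧ cls rho1 ∈ Ω' by
    refine ⟨Gam, ⟨hDisc, hFree, hCoc⟩, ?_, cls rho1, hx, hmain⟩
    rintro ⟨hD, hmax⟩
    obtain ⟨Ω', h1, h2, h3⟩ := hmain _ hD
    rw [hmax Ω' h1 h2] at h3
    exact hx h3
  intro D hD
  have : T2Space (CharVar Gam I4) := hT2
  obtain ⟨hcont, hmul, hone, -⟩ := hAct
  obtain ⟨V, c, hVo, hV1, hc, hVd⟩ := hStab
  set V' : Set (Rep Gam I4) := V ∩ {ρ | SpanTop ρ} with hV'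
  have hV'o : IsOpen V' := hVo.inter hOpenIrr
  set U0 : Set (CharVar Gam I4) := cls '' V' with hU0
  have hU0o : IsOpen U0 := hOpenU V' hV'o fun ρ h => h.2
  set U : Set (CharVar Gam I4) := ⋃ φ : MulAut Gam, act φ ⁻¹' U0 with hU
  have hUo : IsOpen U := isOpen_iUnion fun φ => hU0o.preimage (hcont φ)
  have hUinv : ∀ φ : MulAut Gam, act φ '' U ⊆ U := by
    rintro φ _ ⟨x, hx, rfl⟩
    obtain ⟨ψ, hψ⟩ := mem_iUnion.1 hx
    refine mem_iUnion.2 ⟨ψ * φ⁻¹, ?_⟩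
    show act (ψ * φ⁻¹) (act φ x) ∈ U0
    rw [← hmul, inv_mul_cancel_right]
    exact hψ
  have hkey : ∀ K : Set (CharVar Gam I4), IsCompact K →
      FinClasses {φ | (act φ '' K ∩ U0).Nonempty} := fun K hK =>
    key hBd hFin V' c hc (fun ρ h => hVd ρ h.1) K hK
  -- from a compact set to a compact subset of `U`
  have hKU : ∀ K K2 : Set (CharVar Gam I4), IsCompact K → IsCompact K2 → K2 ⊆ U →
      FinClasses {φ | (act φ '' K ∩ K2).Nonempty} := by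
    intro K K2 hK hK2 hsub
    obtain ⟨t, ht⟩ := hK2.elim_finite_subcover (fun φ : MulAut Gam => act φ ⁻¹' U0)
      (fun φ => hU0o.preimage (hcont φ)) hsub
    refine FinClasses.mono (FinClasses.biUnion (t : Set (MulAut Gam)) t.finite_toSet
      (fun ψ => {φ | ψ * φ ∈ {φ | (act φ '' K ∩ U0).Nonempty}})
      (fun ψ _ => (hkey K hK).translate ψ)) ?_
    rintro φ ⟨_, ⟨x, hx, rfl⟩, h2⟩
    obtain ⟨ψ, hψ⟩ := mem_iUnion.1 (ht h2)
    obtain ⟨hψt, hψ⟩ := mem_iUnion.1 hψ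
    refine mem_iUnion.2 ⟨ψ, mem_iUnion.2 ⟨hψt, ?_⟩⟩
    refine ⟨act (ψ * φ) x, ⟨x, hx, rfl⟩, ?_⟩
    rw [hmul]
    exact hψ
  have hDoD : IsDoD (D ∪ U) := by
    refine ⟨hD.isOpen.union hUo, ?_, ?_⟩
    · intro φ
      rw [image_union]
      exact union_subset_union (hD.inv φ) (hUinv φ)
    · intro K hKsub hK
      obtain ⟨K1, K2, hK1, hK2, hK1D, hK2U, hKeq⟩ := hK.binary_compact_cover hD.isOpen hUo hKsub
      have hA1 : FinClasses {φ | (act φ '' K1 ∩ K1).Nonempty} := by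
        refine (hD.proper K1 hK1D hK1).subset ?_
        rintro x ⟨φ, hφ, rfl⟩
        exact ⟨φ, rfl, hφ⟩
      have hA2 := hKU K K2 hK hK2 hK2U
      have hA3 := (hKU K1 K2 hK1 hK2 hK2U).inv
      have hall := (hA1.union hA2).union hA3
      refine hall.subset ?_
      rintro x ⟨φ, rfl, _, ⟨y, hy, rfl⟩, hy'⟩
      refine ⟨φ, ?_, rfl⟩
      rw [hKeq] at hy hy'
      rcases hy' with h1 | h2
      · rcases hy with h3 | h4
        · exact Or.inl (Or.inl ⟨_, ⟨y, h3, rfl⟩, h1⟩)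
        · refine Or.inr ⟨y, ⟨act φ y, h1, ?_⟩, h4⟩
          rw [← hmul, inv_mul_cancel, hone]
      · refine Or.inl (Or.inr ⟨_, ⟨y, ?_, rfl⟩, h2⟩)
        rw [hKeq]; exact hy
  refine ⟨D ∪ U, hDoD, subset_union_left, Or.inr (mem_iUnion.2 ⟨1, ?_⟩)⟩
  show act 1 (cls rho1) ∈ U0
  rw [hone]
  exact ⟨rho1, ⟨hV1, hIrr⟩, rfl⟩

end Pool.Agent.H934R4.AN
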