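import Mathlib

/-!
# Simple Anosov representations of a closed hyperbolic surface: definitions

`SL(2,ℝ)` modulo sign is the unit tangent bundle of the hyperbolic plane `ℍ`, the base point of `g`
is `g • I`, and the geodesic flow is right multiplication by `fl t`.  For a discrete cocompact
subgroup `Γ` of `SL(2,ℝ)` acting freely on `ℍ` the quotient `ℍ/Γ` is a closed oriented hyperbolic
surface with fundamental group `Γ`, and `T¹(ℍ/Γ)` is the quotient of `SL(2,ℝ)` by `Γ` and sign.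
-/

set_option autoImplicit false

noncomputable section

open Filter Topology Set
open scoped MatrixGroups

namespace Pool.Agent.H934R4.AN

/-- the geodesic flow is `g ↦ g * fl t` -/
def fl (t : ℝ) : SL(2, ℝ) :=
  ⟨!![Real.exp (t / 2), 0; 0, Real.exp (-(t / 2))], by
    rw [Matrix.det_fin_two_of, mul_zero, sub_zero, ← Real.exp_add]; simp⟩

/-- `ℍ/Γ` is a closed hyperbolic surface with fundamental group `Γ` -/
structure IsSurfaceGroup (Γ : Subgroup SL(2, ℝ)) : Prop where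
  discrete : ∀ C : Set SL(2, ℝ), IsCompact C → ((Γ : Set SL(2, ℝ)) ∩ C).Finite
  free : ∀ γ ∈ Γ, ∀ z : UpperHalfPlane, γ • z = z → γ = 1
  cocompact : ∃ D : Set SL(2, ℝ), IsCompact D ∧ ∀ g : SL(2, ℝ), ∃ γ ∈ Γ, γ * g ∈ D

/-- the unit tangent vector `g` is tangent to a line of `ℍ` whose image in `ℍ/Γ` is a simple closed
geodesic -/
def IsSimpleClosed (Γ : Subgroup SL(2, ℝ)) (g : SL(2, ℝ)) : Prop :=
  (∃ T : ℝ, 0 < T ∧ ∃ γ ∈ Γ, γ * g = g * fl T ∨ γ * g = -(g * fl T)) ∧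
  ∀ h ∈ Γ, ∀ s t : ℝ,
    (h * g * fl s) • UpperHalfPlane.I = (g * fl t) • UpperHalfPlane.I →
    h * g * fl s = g * fl t ∨ h * g * fl s = -(g * fl t)

/-- the (preimage in `SL(2,ℝ)` of the) Birman-Series set: closure of the union of all simple closed
geodesics -/
def BS (Γ : Subgroup SL(2, ℝ)) : Set SL(2, ℝ) := closure {g | IsSimpleClosed Γ g}

variable (Γ : Subgroup SL(2, ℝ)) (ι : Type) [Fintype ι] [DecidableEq ι]

/-- representations of `Γ` in `SL(d,ℂ)`, `d` the number of elements of the index set `ι` -/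
def Rep : Type := Γ →* Matrix.SpecialLinearGroup ι ℂ

variable {Γ ι}

/-- the matrix `ρ(γ)` -/
def mat (ρ : Rep Γ ι) (γ : Γ) : Matrix ι ι ℂ := ((show Γ →* Matrix.SpecialLinearGroup ι ℂ from ρ) γ).1

/-- pointwise convergence -/
instance : TopologicalSpace (Rep Γ ι) :=
  TopologicalSpace.induced (fun (ρ : Rep Γ ι) (γ : Γ) => mat ρ γ) inferInstance

variable (Γ ι)

/-- two representations have the same image in the character variety: all the invariants (the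
coefficients of the characteristic polynomials of the `ρ(γ)`) agree -/
instance repSetoid : Setoid (Rep Γ ι) where
  r ρ ρ' := ∀ γ : Γ, (mat ρ γ).charpoly = (mat ρ' γ).charpoly
  iseqv := ⟨fun _ _ => rfl, fun h γ => (h γ).symm, fun h h' γ => (h γ).trans (h' γ)⟩

/-- the character variety with its classical topology -/
def CharVar : Type := Quotient (repSetoid Γ ι)

instance : TopologicalSpace (CharVar Γ ι) := instTopologicalSpaceQuotient

variable {Γ ι}

/-- the class of a representation -/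
def cls (ρ : Rep Γ ι) : CharVar Γ ι := Quotient.mk _ ρ

/-- `ρ ∘ φ⁻¹` -/
def precomp (φ : MulAut Γ) (ρ : Rep Γ ι) : Rep Γ ι :=
  (show Γ →* Matrix.SpecialLinearGroup ι ℂ from ρ).comp (φ⁻¹ : MulAut Γ).toMonoidHom

theorem mat_precomp (φ : MulAut Γ) (ρ : Rep Γ ι) (γ : Γ) :
    mat (precomp φ ρ) γ = mat ρ (φ⁻¹ γ) := rfl

/-- the action of the automorphism `φ` of `Γ` on the character variety -/
def act (φ : MulAut Γ) : CharVar Γ ι → CharVar Γ ι :=
  Quotient.map (precomp φ) (fun _ _ h γ => h (φ⁻¹ γ))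

variable (Γ) in
/-- the mapping class group `Out(Γ)` -/
abbrev Mod : Type := MulAut Γ ⧸ (MulAut.conj : Γ →* MulAut Γ).range

/-- domains of discontinuity for the action of the mapping class group on the character variety -/
structure IsDoD (Ω : Set (CharVar Γ ι)) : Prop where
  isOpen : IsOpen Ω
  inv : ∀ φ : MulAut Γ, act φ '' Ω ⊆ Ω
  proper : ∀ K : Set (CharVar Γ ι), K ⊆ Ω → IsCompact K →
    {x : Mod Γ | ∃ φ : MulAut Γ, (QuotientGroup.mk φ : Mod Γ) = x ∧ (act φ '' K ∩ K).Nonempty}.Finite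

/-- `ρ` is simple `k`-Anosov: dominated splitting of rank `k` of the flat bundle of `ρ` over the
Birman-Series set.  `N` is a continuous metric on the bundle, `P g` is the projection to `Eᵘ` with
kernel `Eˢ` over `g`. -/
def SimpleAnosov (k : ℕ) (ρ : Rep Γ ι) : Prop :=
  ∃ (N : SL(2, ℝ) → (ι → ℂ) → ℝ) (P : SL(2, ℝ) → Matrix ι ι ℂ) (C c : ℝ),
    0 < C ∧ 0 < c ∧
    ContinuousOn (fun p : SL(2, ℝ) × (ι → ℂ) => N p.1 p.2) (BS Γ ×ˢ univ) ∧
    (∀ g ∈ BS Γ, ∀ v : ι → ℂ, 0 ≤ N g v ∧ (N g v = 0 → v = 0)) ∧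
    (∀ g ∈ BS Γ, ∀ (a : ℂ) (v : ι → ℂ), N g (a • v) = ‖a‖ * N g v) ∧
    (∀ g ∈ BS Γ, ∀ v w : ι → ℂ, N g (v + w) ≤ N g v + N g w) ∧
    (∀ g ∈ BS Γ, ∀ v : ι → ℂ, N (-g) v = N g v) ∧
    (∀ g ∈ BS Γ, ∀ (γ : Γ) (v : ι → ℂ), N ((γ : SL(2, ℝ)) * g) ((mat ρ γ).mulVec v) = N g v) ∧
    ContinuousOn P (BS Γ) ∧
    (∀ g ∈ BS Γ, P g * P g = P g ∧ (P g).rank = k) ∧
    (∀ g ∈ BS Γ, P (-g) = P g ∧ ∀ t : ℝ, P (g * fl t) = P g) ∧
    (∀ g ∈ BS Γ, ∀ γ : Γ, P ((γ : SL(2, ℝ)) * g) * mat ρ γ = mat ρ γ * P g) ∧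
    (∀ g ∈ BS Γ, ∀ v w : ι → ℂ, (P g).mulVec v = v → v ≠ 0 → (P g).mulVec w = 0 → w ≠ 0 →
      ∀ t : ℝ, 0 ≤ t → N (g * fl t) w / N g w ≤ C * Real.exp (-(c * t)) * (N (g * fl t) v / N g v))

variable (Γ ι) in
/-- the simple `k`-Anosov domain -/
def simpleAnosovDomain (k : ℕ) : Set (CharVar Γ ι) := cls '' {ρ | SimpleAnosov k ρ}

/-- maximal domain of discontinuity -/
def IsMaximalDoD (Ω : Set (CharVar Γ ι)) : Prop :=
  IsDoD Ω ∧ ∀ Ω' : Set (CharVar Γ ι), IsDoD Ω' → Ω ⊆ Ω' → Ω' = Ω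

end Pool.Agent.H934R4.AN
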