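import Pool.Agent.H934R4.AN.Stmts

set_option autoImplicit false

noncomputable section

open Filter Topology Set
open scoped MatrixGroups Kronecker

namespace Pool.Agent.H934R4.AN.TaskActN

open Pool.Agent.H934R4.AN

theorem continuous_mat (γ : Gam) : Continuous (fun ρ : Rep Gam I4 => mat ρ γ) := by
  have h : Continuous (fun (ρ : Rep Gam I4) (γ : Gam) => mat ρ γ) := continuous_induced_dom
  exact (continuous_apply γ).comp h

theorem continuous_precomp (φ : MulAut Gam) :
    Continuous (precomp φ : Rep Gam I4 → Rep Gam I4) := by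
  refine continuous_induced_rng.2 ?_
  refine continuous_pi fun γ => ?_
  exact continuous_mat (φ⁻¹ γ)

theorem mat_mul (ρ : Rep Gam I4) (γ δ : Gam) : mat ρ (γ * δ) = mat ρ γ * mat ρ δ := by
  unfold mat
  rw [map_mul]
  rfl

theorem mat_one (ρ : Rep Gam I4) : mat ρ 1 = 1 := by
  unfold mat
  rw [map_one]
  rfl

theorem taskAct : TaskAct := by
  refine ⟨fun φ => ?_, fun φ ψ x => ?_, fun x => ?_, fun γ x => ?_⟩
  · exact (continuous_precomp φ).quotient_map' _
  · induction x using Quotient.inductionOn with
    | h ρ => rfl
  · induction x using Quotient.inductionOn with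
    | h ρ => rfl
  · induction x using Quotient.inductionOn with
    | h ρ =>
      refine Quotient.sound ?_
      intro δ
      show (mat ρ ((MulAut.conj γ)⁻¹ δ)).charpoly = (mat ρ δ).charpoly
      rw [MulAut.conj_inv_apply, mat_mul, Matrix.charpoly_mul_comm, mat_mul, ← mul_assoc, ← mat_mul,
        mul_inv_cancel, mat_one, one_mul]

end Pool.Agent.H934R4.AN.TaskActN
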