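import Pool.Agent.H934R4.AN.Stmts

/-!
# Task `TaskBasis` of project ANOSOV
-/

set_option autoImplicit false

namespace Pool.Agent.H934R4.AN.TaskBasisN

open Matrix

theorem cramer (m11 m12 m13 m21 m22 m23 m31 m32 m33 x y z : ℝ)
    (hD : m11 * (m22 * m33 - m23 * m32) - m12 * (m21 * m33 - m23 * m31)
      + m13 * (m21 * m32 - m22 * m31) ≠ 0)
    (h1 : m11 * x + m12 * y + m13 * z = 0) (h2 : m21 * x + m22 * y + m23 * z = 0)
    (h3 : m31 * x + m32 * y + m33 * z = 0) : x = 0 ∧ y = 0 ∧ z = 0 := by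
  refine ⟨?_, ?_, ?_⟩
  · apply (mul_eq_zero.mp (?_ : (m11 * (m22 * m33 - m23 * m32) - m12 * (m21 * m33 - m23 * m31)
      + m13 * (m21 * m32 - m22 * m31)) * x = 0)).resolve_left hD
    linear_combination (m22 * m33 - m23 * m32) * h1 - (m12 * m33 - m13 * m32) * h2
      + (m12 * m23 - m13 * m22) * h3
  · apply (mul_eq_zero.mp (?_ : (m11 * (m22 * m33 - m23 * m32) - m12 * (m21 * m33 - m23 * m31)
      + m13 * (m21 * m32 - m22 * m31)) * y = 0)).resolve_left hD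
    linear_combination -(m21 * m33 - m23 * m31) * h1 + (m11 * m33 - m13 * m31) * h2
      - (m11 * m23 - m13 * m21) * h3
  · apply (mul_eq_zero.mp (?_ : (m11 * (m22 * m33 - m23 * m32) - m12 * (m21 * m33 - m23 * m31)
      + m13 * (m21 * m32 - m22 * m31)) * z = 0)).resolve_left hD
    linear_combination (m21 * m32 - m22 * m31) * h1 - (m11 * m32 - m12 * m31) * h2
      + (m11 * m22 - m12 * m21) * h3

theorem taskBasis : TaskBasis := by
  intro A B hAB X hX hXA hXB hXAB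
  have hdA : A.1 0 0 * A.1 1 1 - A.1 0 1 * A.1 1 0 = 1 := by
    have := A.2
    rwa [Matrix.det_fin_two] at this
  have hdB : B.1 0 0 * B.1 1 1 - B.1 0 1 * B.1 1 0 = 1 := by
    have := B.2
    rwa [Matrix.det_fin_two] at this
  have htr : (A * B * A⁻¹ * B⁻¹).1.trace = 2 -
      ((A.1 0 0 - A.1 1 1) * (B.1 1 0 * (A.1 0 0 * B.1 0 1 + A.1 0 1 * B.1 1 1)
          - B.1 0 1 * (A.1 1 0 * B.1 0 0 + A.1 1 1 * B.1 1 0))
        - A.1 1 0 * ((B.1 0 0 - B.1 1 1) * (A.1 0 0 * B.1 0 1 + A.1 0 1 * B.1 1 1)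
          - B.1 0 1 * ((A.1 0 0 * B.1 0 0 + A.1 0 1 * B.1 1 0)
            - (A.1 1 0 * B.1 0 1 + A.1 1 1 * B.1 1 1)))
        + A.1 0 1 * ((B.1 0 0 - B.1 1 1) * (A.1 1 0 * B.1 0 0 + A.1 1 1 * B.1 1 0)
          - B.1 1 0 * ((A.1 0 0 * B.1 0 0 + A.1 0 1 * B.1 1 0)
            - (A.1 1 0 * B.1 0 1 + A.1 1 1 * B.1 1 1)))) := by
    have h1 : (A * B * A⁻¹ * B⁻¹).1 = A.1 * B.1 * A.1.adjugate * B.1.adjugate := by
      rw [Matrix.SpecialLinearGroup.coe_mul, Matrix.SpecialLinearGroup.coe_mul,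
        Matrix.SpecialLinearGroup.coe_mul, Matrix.SpecialLinearGroup.coe_inv,
        Matrix.SpecialLinearGroup.coe_inv]
    rw [h1, Matrix.trace_fin_two, Matrix.adjugate_fin_two, Matrix.adjugate_fin_two]
    simp only [Matrix.mul_apply, Fin.sum_univ_two, Matrix.of_apply, Matrix.cons_val', Matrix.cons_val_zero,
      Matrix.cons_val_one, Matrix.cons_val_fin_one, Matrix.empty_val']
    linear_combination 2 * hdA + 2 * (A.1 0 0 * A.1 1 1 - A.1 0 1 * A.1 1 0) * hdB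
  have hD := cramer (A.1 0 0 - A.1 1 1) (A.1 1 0) (A.1 0 1) (B.1 0 0 - B.1 1 1) (B.1 1 0) (B.1 0 1)
    ((A.1 0 0 * B.1 0 0 + A.1 0 1 * B.1 1 0) - (A.1 1 0 * B.1 0 1 + A.1 1 1 * B.1 1 1))
    (A.1 1 0 * B.1 0 0 + A.1 1 1 * B.1 1 0) (A.1 0 0 * B.1 0 1 + A.1 0 1 * B.1 1 1)
    (X 0 0) (X 0 1) (X 1 0) (by
      intro h0
      apply hAB
      rw [htr, h0, sub_zero])
  rw [Matrix.trace_fin_two] at hX hXA hXB hXAB
  simp only [Matrix.mul_apply, Fin.sum_univ_two] at hXA hXB hXAB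
  have h11 : X 1 1 = - X 0 0 := by linarith
  rw [h11] at hXA hXB hXAB
  obtain ⟨hx, hy, hz⟩ := hD (by linear_combination hXA) (by linear_combination hXB)
    (by linear_combination hXAB)
  ext i j
  fin_cases i <;> fin_cases j
  · exact hx
  · exact hy
  · exact hz
  · show X 1 1 = 0
    rw [h11, hx, neg_zero]

end Pool.Agent.H934R4.AN.TaskBasisN
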