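import Pool.Agent.H934R4.AN.Stmts

set_option autoImplicit false

noncomputable section

open Filter Topology Set
open scoped MatrixGroups Kronecker

namespace Pool.Agent.H934R4.AN.TaskBdN

open Pool.Agent.H934R4.AN

theorem coeff_cont (i : ℕ) : Continuous fun M : Matrix I4 I4 ℂ => M.charpoly.coeff i := by
  have h : (fun M : Matrix I4 I4 ℂ => M.charpoly.coeff i) = fun M : Matrix I4 I4 ℂ =>
      MvPolynomial.eval (fun p : I4 × I4 => M p.1 p.2) ((Matrix.charpoly.univ ℂ I4).coeff i) := by
    funext M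
    exact (Matrix.charpoly.univ_coeff_eval₂Hom I4 (RingHom.id ℂ)
      (fun p : I4 × I4 => M p.1 p.2) i).symm
  rw [h]
  refine (MvPolynomial.continuous_eval _).comp ?_
  exact continuous_pi fun p => (continuous_apply p.2).comp (continuous_apply p.1)

theorem mat_cont (f : Gam) : Continuous fun ρ : Rep Gam I4 => mat ρ f := by
  have h : Continuous fun (ρ : Rep Gam I4) (γ : Gam) => mat ρ γ := continuous_induced_dom
  exact (continuous_apply f).comp h

/-- the coefficient as a function on the character variety -/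
def cf (f : Gam) (i : ℕ) : CharVar Gam I4 → ℂ :=
  Quotient.lift (fun ρ : Rep Gam I4 => (mat ρ f).charpoly.coeff i) (fun a b h => by
    have h' : (mat a f).charpoly = (mat b f).charpoly := h f
    simp only [h'])

theorem cf_cont (f : Gam) (i : ℕ) : Continuous (cf f i) := by
  have h : Continuous (fun ρ : Rep Gam I4 => (mat ρ f).charpoly.coeff i) :=
    (coeff_cont i).comp (mat_cont f)
  exact h.quotient_lift _

theorem cf_cls (f : Gam) (i : ℕ) (ρ : Rep Gam I4) :
    cf f i (cls ρ) = (mat ρ f).charpoly.coeff i := rfl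

theorem taskBd : TaskBd := by
  intro K hK f
  have hb : ∀ i : ℕ, ∃ C, ∀ x ∈ K, ‖cf f i x‖ ≤ C := fun i =>
    hK.exists_bound_of_continuousOn (cf_cont f i).continuousOn
  choose C hC using hb
  refine ⟨(∑ i ∈ Finset.range (Fintype.card I4), |C i|) + 1, ?_⟩
  intro ρ hρ μ hμ
  set p := (mat ρ f).charpoly with hp
  have hm : p.Monic := Matrix.charpoly_monic _
  have hdeg : p.natDegree = Fintype.card I4 := Matrix.charpoly_natDegree_eq_dim _
  have h1 := Polynomial.IsRoot.norm_lt_cauchyBound hm.ne_zero hμ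
  have h2 : (‖μ‖ : ℝ) < (Polynomial.cauchyBound p : ℝ) := by exact_mod_cast h1
  refine h2.le.trans ?_
  unfold Polynomial.cauchyBound
  rw [hm.leadingCoeff, nnnorm_one, div_one, hdeg]
  push_cast
  refine add_le_add ?_ le_rfl
  have hnn : 0 ≤ ∑ i ∈ Finset.range (Fintype.card I4), |C i| :=
    Finset.sum_nonneg fun i _ => abs_nonneg _
  have h3 : (Finset.range (Fintype.card I4)).sup (fun x => ‖p.coeff x‖₊) ≤
      Real.toNNReal (∑ i ∈ Finset.range (Fintype.card I4), |C i|) := by
    apply Finset.sup_le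
    intro i hi
    apply NNReal.le_toNNReal_of_coe_le
    show ‖p.coeff i‖ ≤ ∑ i ∈ Finset.range (Fintype.card I4), |C i|
    have h4 : ‖p.coeff i‖ ≤ C i := hC i (cls ρ) hρ
    refine (h4.trans (le_abs_self _)).trans ?_
    exact Finset.single_le_sum (f := fun i => |C i|) (fun i _ => abs_nonneg _) hi
  have h5 := NNReal.coe_le_coe.2 h3
  rwa [Real.coe_toNNReal _ hnn] at h5

end Pool.Agent.H934R4.AN.TaskBdN
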