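import Pool.Agent.H934R4.AN.Stmts

/-! Project ANOSOV, task Coc (helper766): cocompactness. -/

set_option autoImplicit false

noncomputable section

open Filter Topology Set
open scoped MatrixGroups Kronecker

namespace Pool.Agent.H934R4.AN

namespace TaskCocN

theorem compact_D (B : ℝ) : IsCompact {h : SL(2, ℝ) | ∀ i j, |h.1 i j| ≤ B} := by
  have hcl : IsClosedEmbedding (Subtype.val : SL(2, ℝ) → Matrix (Fin 2) (Fin 2) ℝ) := by
    apply IsClosed.isClosedEmbedding_subtypeVal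
    exact isClosed_eq (Continuous.matrix_det continuous_id) continuous_const
  have hK : IsCompact {A : Matrix (Fin 2) (Fin 2) ℝ | ∀ i j, |A i j| ≤ B} := by
    have h : IsCompact (Set.pi univ (fun _ : Fin 2 => Set.pi univ
        (fun _ : Fin 2 => Set.Icc (-B) B))) :=
      isCompact_univ_pi (fun _ => isCompact_univ_pi (fun _ => isCompact_Icc))
    have hs : {A : Matrix (Fin 2) (Fin 2) ℝ | ∀ i j, |A i j| ≤ B} =
        (Set.pi univ (fun _ : Fin 2 => Set.pi univ (fun _ : Fin 2 => Set.Icc (-B) B)) :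
          Set (Fin 2 → Fin 2 → ℝ)) := by
      apply Set.ext
      intro A
      constructor
      · intro hA i _ j _
        exact abs_le.1 (hA i j)
      · intro hA i j
        exact abs_le.2 (hA i (Set.mem_univ _) j (Set.mem_univ _))
    rw [hs]
    exact h
  exact hcl.isCompact_preimage hK

theorem taskCoc (h1 : TaskMink) (h2 : TaskReps) : TaskCoc := by
  obtain ⟨C, hC⟩ := h1
  have hC0 : 0 ≤ C := by
    obtain ⟨x, _, h, _⟩ := hC 1
    exact (abs_nonneg _).trans (h 0 0)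
  obtain ⟨S, hS, hrep⟩ := h2 (6 * C ^ 2)
  set K : ℝ := ∑ y ∈ S, ∑ i, ∑ j, |(MM y)⁻¹ i j| with hK
  refine ⟨{h : SL(2, ℝ) | ∀ i j, |h.1 i j| ≤ 2 * C * K}, compact_D _, ?_⟩
  intro g
  obtain ⟨x, hx0, hx1, hx2⟩ := hC g⁻¹
  have hdet : ((g⁻¹ : SL(2, ℝ)).1 * MM x).det = e1 (qn x) := by
    rw [Matrix.det_mul, (g⁻¹ : SL(2, ℝ)).2, one_mul, MM_det]
  have hb1 : |e1 (qn x)| ≤ 6 * C ^ 2 := by
    rw [← hdet, Matrix.det_fin_two]
    set A := (g⁻¹ : SL(2, ℝ)).1 * MM x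
    have e1 : |A 0 0 * A 1 1| ≤ C * C := by
      rw [abs_mul]; exact mul_le_mul (hx1 0 0) (hx1 1 1) (abs_nonneg _) hC0
    have e2 : |A 0 1 * A 1 0| ≤ C * C := by
      rw [abs_mul]; exact mul_le_mul (hx1 0 1) (hx1 1 0) (abs_nonneg _) hC0
    have := abs_sub (A 0 0 * A 1 1) (A 0 1 * A 1 0)
    nlinarith
  have hb2 : |e2 (qn x)| ≤ 6 * C ^ 2 := by
    have hs : √(2 : ℝ) ≤ 2 := by
      rw [Real.sqrt_le_left (by norm_num)]; norm_num
    have hs0 : 0 ≤ √(2 : ℝ) := Real.sqrt_nonneg _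
    have hsq : ∀ i, e2 (x i) * e2 (x i) ≤ C ^ 2 ∧ 0 ≤ e2 (x i) * e2 (x i) := by
      intro i
      constructor
      · have := hx2 i
        have h := abs_le.1 this
        nlinarith
      · exact mul_self_nonneg _
    rw [qn, e2_sub, e2_add, e2_sub, e2_mul, e2_mul, e2_mul, e2_mul, e2_mul, e2_mul, e2_w2]
    obtain ⟨a0, b0⟩ := hsq 0
    obtain ⟨a1, b1⟩ := hsq 1
    obtain ⟨a2, b2⟩ := hsq 2
    obtain ⟨a3, b3⟩ := hsq 3
    have m1 : √2 * (e2 (x 1) * e2 (x 1)) ≤ 2 * C ^ 2 := mul_le_mul hs a1 b1 (by norm_num)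
    have m3 : √2 * (e2 (x 3) * e2 (x 3)) ≤ 2 * C ^ 2 := mul_le_mul hs a3 b3 (by norm_num)
    have p1 : 0 ≤ √2 * (e2 (x 1) * e2 (x 1)) := mul_nonneg hs0 b1
    have p3 : 0 ≤ √2 * (e2 (x 3) * e2 (x 3)) := mul_nonneg hs0 b3
    rw [abs_le]
    constructor <;> nlinarith
  obtain ⟨y, hy, u, hu, hqu, hxu⟩ := hrep x hx0 hb1 hb2
  have hydet : (MM y).det ≠ 0 := by
    rw [MM_det]
    intro h
    apply hS y hy
    apply e1_inj
    rw [h, e1_zero]
  let γ0 : SL(2, ℝ) := ⟨MM u, by rw [MM_det, hqu, e1_one]⟩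
  have hγ0 : γ0 ∈ Gam := ⟨u, hu, rfl⟩
  have hprod : (g⁻¹ * γ0 : SL(2, ℝ)).1 = ((g⁻¹ : SL(2, ℝ)).1 * MM x) * (MM y)⁻¹ := by
    rw [hxu, MM_mul, Matrix.mul_assoc, Matrix.mul_assoc,
      Matrix.mul_nonsing_inv _ (isUnit_iff_ne_zero.2 hydet), Matrix.mul_one]
    rfl
  have hKy : ∀ i j, |(MM y)⁻¹ i j| ≤ K := by
    intro i j
    calc |(MM y)⁻¹ i j| ≤ ∑ j, |(MM y)⁻¹ i j| :=
          Finset.single_le_sum (f := fun j => |(MM y)⁻¹ i j|) (fun _ _ => abs_nonneg _)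
            (Finset.mem_univ j)
      _ ≤ ∑ i, ∑ j, |(MM y)⁻¹ i j| :=
          Finset.single_le_sum (f := fun i => ∑ j, |(MM y)⁻¹ i j|)
            (fun _ _ => Finset.sum_nonneg fun _ _ => abs_nonneg _) (Finset.mem_univ i)
      _ ≤ K := Finset.single_le_sum (f := fun y => ∑ i, ∑ j, |(MM y)⁻¹ i j|)
            (fun _ _ => Finset.sum_nonneg fun _ _ => Finset.sum_nonneg fun _ _ => abs_nonneg _) hy
  have hent : ∀ i j, |(g⁻¹ * γ0 : SL(2, ℝ)).1 i j| ≤ 2 * C * K := by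
    intro i j
    rw [hprod, Matrix.mul_apply, Fin.sum_univ_two]
    set A := (g⁻¹ : SL(2, ℝ)).1 * MM x
    have e1 : |A i 0 * (MM y)⁻¹ 0 j| ≤ C * K := by
      rw [abs_mul]; exact mul_le_mul (hx1 i 0) (hKy 0 j) (abs_nonneg _) hC0
    have e2 : |A i 1 * (MM y)⁻¹ 1 j| ≤ C * K := by
      rw [abs_mul]; exact mul_le_mul (hx1 i 1) (hKy 1 j) (abs_nonneg _) hC0
    have := abs_add_le (A i 0 * (MM y)⁻¹ 0 j) (A i 1 * (MM y)⁻¹ 1 j)
    linarith
  refine ⟨γ0⁻¹, Gam.inv_mem hγ0, ?_⟩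
  have hinv : γ0⁻¹ * g = (g⁻¹ * γ0)⁻¹ := by group
  intro i j
  rw [hinv, Matrix.SpecialLinearGroup.coe_inv, Matrix.adjugate_fin_two]
  fin_cases i <;> fin_cases j
  · simpa using hent 1 1
  · simpa using hent 0 1
  · simpa using hent 1 0
  · simpa using hent 0 0

end TaskCocN

end Pool.Agent.H934R4.AN
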