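import Pool.Agent.H934R4.AN.Stmts

/-!
# Task `TaskConj`: finitely many traces determine an automorphism up to conjugacy

Written by helper20 for project ANOSOV (helper934).
-/

set_option autoImplicit false

noncomputable section

open Filter Topology Set
open scoped MatrixGroups Kronecker

namespace Pool.Agent.H934R4.AN.TaskConjN

theorem comm_trace_ne (h1 : TaskHyp) (φ : MulAut Gam) {s t : Gam} (hst : s * t ≠ t * s) :
    (((φ s : Gam) : SL(2, ℝ)) * ((φ t : Gam) : SL(2, ℝ)) * ((φ s : Gam) : SL(2, ℝ))⁻¹ *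
      ((φ t : Gam) : SL(2, ℝ))⁻¹).1.trace ≠ 2 := by
  intro h
  have hne : φ s * φ t * (φ s)⁻¹ * (φ t)⁻¹ ≠ 1 := by
    intro h2
    apply hst
    apply φ.injective
    rw [map_mul, map_mul]
    have h3 := mul_inv_eq_one.1 h2
    rw [mul_inv_eq_iff_eq_mul] at h3
    exact h3
  have h2 := h1 _ hne
  have h3 : tr (φ s * φ t * (φ s)⁻¹ * (φ t)⁻¹) = 2 := h
  rw [h3] at h2
  norm_num at h2

theorem tr_conj {h k : Matrix (Fin 2) (Fin 2) ℝ} (hk : k * h = 1) (M : Matrix (Fin 2) (Fin 2) ℝ) :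
    (h * M * k).trace = M.trace := by
  rw [Matrix.trace_mul_cycle, hk, Matrix.one_mul]

theorem taskConj (h1 : TaskHyp) (h2 : TaskPair) (h3 : TaskBasis) : TaskConj := by
  intro φ φ' S s t hS hst hw
  have hs1 : s ≠ 1 := by
    rintro rfl
    exact hst (by rw [one_mul, mul_one])
  have hc := comm_trace_ne h1 φ hst
  have hc' := comm_trace_ne h1 φ' hst
  have hφs : φ s ≠ 1 := by
    intro h
    exact hs1 (φ.injective (by rw [h, map_one]))
  have hA : 2 < |((φ s : Gam) : SL(2, ℝ)).1.trace| := h1 _ hφs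
  have ets : tr (φ s) = tr (φ' s) := hw s (Or.inl rfl)
  have ett : tr (φ t) = tr (φ' t) := hw t (Or.inr (Or.inl rfl))
  have etst : tr (φ (s * t)) = tr (φ' (s * t)) := hw (s * t) (Or.inr (Or.inr (Or.inl rfl)))
  rw [map_mul, map_mul] at etst
  obtain ⟨h, hdet, hhA, hhB⟩ := h2 ((φ s : Gam) : SL(2, ℝ)) ((φ t : Gam) : SL(2, ℝ))
    ((φ' s : Gam) : SL(2, ℝ)) ((φ' t : Gam) : SL(2, ℝ)) hA hc ets ett etst
  have hu : IsUnit h.det := isUnit_iff_ne_zero.2 hdet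
  have hhk : h * h⁻¹ = 1 := Matrix.mul_nonsing_inv h hu
  have hkh : h⁻¹ * h = 1 := Matrix.nonsing_inv_mul h hu
  set k := h⁻¹ with hkdef
  have eA : ((φ' s : Gam) : SL(2, ℝ)).1 = h * ((φ s : Gam) : SL(2, ℝ)).1 * k := by
    rw [hhA, Matrix.mul_assoc, hhk, Matrix.mul_one]
  have eB : ((φ' t : Gam) : SL(2, ℝ)).1 = h * ((φ t : Gam) : SL(2, ℝ)).1 * k := by
    rw [hhB, Matrix.mul_assoc, hhk, Matrix.mul_one]
  have key : ∀ a ∈ S, h * ((φ a : Gam) : SL(2, ℝ)).1 = ((φ' a : Gam) : SL(2, ℝ)).1 * h := by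
    intro a ha
    have e0 : tr (φ a) = tr (φ' a) :=
      hw a (Or.inr (Or.inr (Or.inr ⟨a, ha, Or.inl rfl⟩)))
    have e1 : tr (φ (a * s)) = tr (φ' (a * s)) :=
      hw (a * s) (Or.inr (Or.inr (Or.inr ⟨a, ha, Or.inr (Or.inl rfl)⟩)))
    have e2 : tr (φ (a * t)) = tr (φ' (a * t)) :=
      hw (a * t) (Or.inr (Or.inr (Or.inr ⟨a, ha, Or.inr (Or.inr (Or.inl rfl))⟩)))
    have e3 : tr (φ (a * (s * t))) = tr (φ' (a * (s * t))) :=
      hw (a * (s * t)) (Or.inr (Or.inr (Or.inr ⟨a, ha, Or.inr (Or.inr (Or.inr rfl))⟩)))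
    rw [map_mul, map_mul] at e1 e2
    rw [map_mul, map_mul, map_mul, map_mul] at e3
    have e0' : ((φ a : Gam) : SL(2, ℝ)).1.trace = ((φ' a : Gam) : SL(2, ℝ)).1.trace := e0
    have e1' : (((φ a : Gam) : SL(2, ℝ)).1 * ((φ s : Gam) : SL(2, ℝ)).1).trace =
      (((φ' a : Gam) : SL(2, ℝ)).1 * ((φ' s : Gam) : SL(2, ℝ)).1).trace := e1
    have e2' : (((φ a : Gam) : SL(2, ℝ)).1 * ((φ t : Gam) : SL(2, ℝ)).1).trace =
      (((φ' a : Gam) : SL(2, ℝ)).1 * ((φ' t : Gam) : SL(2, ℝ)).1).trace := e2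
    have e3' : (((φ a : Gam) : SL(2, ℝ)).1 * (((φ s : Gam) : SL(2, ℝ)).1 *
      ((φ t : Gam) : SL(2, ℝ)).1)).trace =
      (((φ' a : Gam) : SL(2, ℝ)).1 * (((φ' s : Gam) : SL(2, ℝ)).1 *
      ((φ' t : Gam) : SL(2, ℝ)).1)).trace := e3
    have hX : h * ((φ a : Gam) : SL(2, ℝ)).1 * k - ((φ' a : Gam) : SL(2, ℝ)).1 = 0 := by
      refine h3 ((φ' s : Gam) : SL(2, ℝ)) ((φ' t : Gam) : SL(2, ℝ)) hc' _ ?_ ?_ ?_ ?_
      · rw [Matrix.trace_sub, tr_conj hkh, e0', sub_self]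
      · rw [Matrix.sub_mul, Matrix.trace_sub, ← e1', eA]
        have : h * ((φ a : Gam) : SL(2, ℝ)).1 * k * (h * ((φ s : Gam) : SL(2, ℝ)).1 * k) =
            h * (((φ a : Gam) : SL(2, ℝ)).1 * ((φ s : Gam) : SL(2, ℝ)).1) * k := by
          calc h * ((φ a : Gam) : SL(2, ℝ)).1 * k * (h * ((φ s : Gam) : SL(2, ℝ)).1 * k)
              = h * ((φ a : Gam) : SL(2, ℝ)).1 * (k * h) * ((φ s : Gam) : SL(2, ℝ)).1 * k := by
                simp only [Matrix.mul_assoc]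
            _ = _ := by rw [hkh, Matrix.mul_one]; simp only [Matrix.mul_assoc]
        rw [this, tr_conj hkh, sub_self]
      · rw [Matrix.sub_mul, Matrix.trace_sub, ← e2', eB]
        have : h * ((φ a : Gam) : SL(2, ℝ)).1 * k * (h * ((φ t : Gam) : SL(2, ℝ)).1 * k) =
            h * (((φ a : Gam) : SL(2, ℝ)).1 * ((φ t : Gam) : SL(2, ℝ)).1) * k := by
          calc h * ((φ a : Gam) : SL(2, ℝ)).1 * k * (h * ((φ t : Gam) : SL(2, ℝ)).1 * k)
              = h * ((φ a : Gam) : SL(2, ℝ)).1 * (k * h) * ((φ t : Gam) : SL(2, ℝ)).1 * k := by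
                simp only [Matrix.mul_assoc]
            _ = _ := by rw [hkh, Matrix.mul_one]; simp only [Matrix.mul_assoc]
        rw [this, tr_conj hkh, sub_self]
      · rw [Matrix.sub_mul, Matrix.trace_sub, ← e3', eA, eB]
        have : h * ((φ a : Gam) : SL(2, ℝ)).1 * k * (h * ((φ s : Gam) : SL(2, ℝ)).1 * k *
            (h * ((φ t : Gam) : SL(2, ℝ)).1 * k)) =
            h * (((φ a : Gam) : SL(2, ℝ)).1 * (((φ s : Gam) : SL(2, ℝ)).1 *
              ((φ t : Gam) : SL(2, ℝ)).1)) * k := by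
          calc h * ((φ a : Gam) : SL(2, ℝ)).1 * k * (h * ((φ s : Gam) : SL(2, ℝ)).1 * k *
            (h * ((φ t : Gam) : SL(2, ℝ)).1 * k))
              = h * ((φ a : Gam) : SL(2, ℝ)).1 * (k * h) * ((φ s : Gam) : SL(2, ℝ)).1 * (k * h) *
                ((φ t : Gam) : SL(2, ℝ)).1 * k := by
                simp only [Matrix.mul_assoc]
            _ = _ := by rw [hkh, Matrix.mul_one, Matrix.mul_one]; simp only [Matrix.mul_assoc]
        rw [this, tr_conj hkh, sub_self]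
    have hX' := sub_eq_zero.1 hX
    rw [← hX', Matrix.mul_assoc, hkh, Matrix.mul_one]
  refine ⟨h, hdet, ?_⟩
  intro γ
  have hγ : γ ∈ Subgroup.closure S := by rw [hS]; trivial
  induction hγ using Subgroup.closure_induction with
  | mem x hx => exact key x hx
  | one =>
    rw [map_one, map_one]
    show h * (1 : Matrix (Fin 2) (Fin 2) ℝ) = (1 : Matrix (Fin 2) (Fin 2) ℝ) * h
    rw [Matrix.mul_one, Matrix.one_mul]
  | mul x y _ _ hx hy =>
    rw [map_mul, map_mul]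
    show h * (((φ x : Gam) : SL(2, ℝ)).1 * ((φ y : Gam) : SL(2, ℝ)).1) =
      (((φ' x : Gam) : SL(2, ℝ)).1 * ((φ' y : Gam) : SL(2, ℝ)).1) * h
    rw [← Matrix.mul_assoc, hx, Matrix.mul_assoc, hy, ← Matrix.mul_assoc]
  | inv x _ hx =>
    rw [map_inv, map_inv]
    have i1 : ((φ x : Gam) : SL(2, ℝ)).1 * (((φ x : Gam) : SL(2, ℝ))⁻¹).1 = 1 := by
      have := mul_inv_cancel ((φ x : Gam) : SL(2, ℝ))
      have h5 := congrArg Subtype.val this
      exact h5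
    have i2 : (((φ' x : Gam) : SL(2, ℝ))⁻¹).1 * ((φ' x : Gam) : SL(2, ℝ)).1 = 1 := by
      have := inv_mul_cancel ((φ' x : Gam) : SL(2, ℝ))
      have h5 := congrArg Subtype.val this
      exact h5
    show h * (((φ x : Gam) : SL(2, ℝ))⁻¹).1 = (((φ' x : Gam) : SL(2, ℝ))⁻¹).1 * h
    calc h * (((φ x : Gam) : SL(2, ℝ))⁻¹).1
        = (((φ' x : Gam) : SL(2, ℝ))⁻¹).1 * (((φ' x : Gam) : SL(2, ℝ)).1 * h) *
          (((φ x : Gam) : SL(2, ℝ))⁻¹).1 := by
          rw [← Matrix.mul_assoc, i2, Matrix.one_mul]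
      _ = (((φ' x : Gam) : SL(2, ℝ))⁻¹).1 * h := by
          rw [← hx, Matrix.mul_assoc, Matrix.mul_assoc, i1, Matrix.mul_one]

end Pool.Agent.H934R4.AN.TaskConjN
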