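import Pool.Agent.H934R4.AN.Stmts

/-!
# Diagonalisation of hyperbolic elements of `SL(2,ℝ)`
-/

set_option autoImplicit false

noncomputable section

open Filter Topology Set
open scoped MatrixGroups

namespace Pool.Agent.H934R4.AN.TaskDiagN

open Pool.Agent.H934R4.AN

theorem eigvec (A : Matrix (Fin 2) (Fin 2) ℝ) (hA : A.det = 1) (x : ℝ)
    (hx : x * x - A.trace * x + 1 = 0) :
    ∃ v : Fin 2 → ℝ, v ≠ 0 ∧ A 0 0 * v 0 + A 0 1 * v 1 = x * v 0 ∧
      A 1 0 * v 0 + A 1 1 * v 1 = x * v 1 := by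
  rw [Matrix.det_fin_two] at hA
  rw [Matrix.trace_fin_two] at hx
  have hdet : (!![A 0 0 - x, A 0 1; A 1 0, A 1 1 - x] : Matrix (Fin 2) (Fin 2) ℝ).det = 0 := by
    rw [Matrix.det_fin_two_of]
    linear_combination hA + hx
  obtain ⟨v, hv, hv'⟩ := Matrix.exists_mulVec_eq_zero_iff.2 hdet
  refine ⟨v, hv, ?_, ?_⟩
  · have h := congrFun hv' 0
    simp only [Matrix.mulVec, dotProduct, Fin.sum_univ_two, Matrix.of_apply, Matrix.cons_val',
      Matrix.cons_val_zero, Matrix.cons_val_one, Matrix.cons_val_fin_one, Pi.zero_apply] at h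
    linear_combination h
  · have h := congrFun hv' 1
    simp only [Matrix.mulVec, dotProduct, Fin.sum_univ_two, Matrix.of_apply, Matrix.cons_val',
      Matrix.cons_val_zero, Matrix.cons_val_one, Matrix.cons_val_fin_one, Pi.zero_apply] at h
    linear_combination h

theorem diag_pos (A : Matrix (Fin 2) (Fin 2) ℝ) (hA : A.det = 1) (ht : 2 < A.trace) :
    ∃ (g : SL(2, ℝ)) (l : ℝ), 0 < l ∧ A * g.1 = g.1 * (fl l).1 ∧
      A.trace = Real.exp (l / 2) + Real.exp (-(l / 2)) := by
  set t := A.trace with htd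
  have hdisc : 0 < t ^ 2 - 4 := by nlinarith
  set r := Real.sqrt (t ^ 2 - 4) with hr
  have hr2 : r * r = t ^ 2 - 4 := Real.mul_self_sqrt hdisc.le
  have hr0 : 0 < r := Real.sqrt_pos.2 hdisc
  set x := (t + r) / 2 with hx
  have hx1 : 1 < x := by rw [hx]; linarith
  have hx0 : 0 < x := by linarith
  have hinv : x⁻¹ = (t - r) / 2 := by
    apply inv_eq_of_mul_eq_one_right
    rw [hx]
    linear_combination -(1/4) * hr2
  have hxe : x * x - t * x + 1 = 0 := by
    rw [hx]; linear_combination (1/4) * hr2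
  have hye : x⁻¹ * x⁻¹ - t * x⁻¹ + 1 = 0 := by
    rw [hinv]; linear_combination (1/4) * hr2
  obtain ⟨v, hv, hv0, hv1⟩ := eigvec A hA x hxe
  obtain ⟨w, hw, hw0, hw1⟩ := eigvec A hA x⁻¹ hye
  have hxy : x - x⁻¹ ≠ 0 := by
    have : x⁻¹ < 1 := inv_lt_one_of_one_lt₀ hx1
    linarith
  -- independence
  have hD : v 0 * w 1 - w 0 * v 1 ≠ 0 := by
    intro hD
    apply hw
    have key0 : ∀ k : ℝ, w 0 = k * v 0 → w 1 = k * v 1 → w = 0 := by
      intro k h0 h1
      have e0 : (x - x⁻¹) * w 0 = 0 := by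
        rw [h0, h1] at hw0
        rw [h0]
        linear_combination -k * hv0 + hw0
      have e1 : (x - x⁻¹) * w 1 = 0 := by
        rw [h0, h1] at hw1
        rw [h1]
        linear_combination -k * hv1 + hw1
      have f0 := (mul_eq_zero.1 e0).resolve_left hxy
      have f1 := (mul_eq_zero.1 e1).resolve_left hxy
      funext i
      fin_cases i
      · exact f0
      · exact f1
    by_cases h0 : v 0 = 0
    · by_cases h1 : v 1 = 0
      · exfalso
        apply hv
        funext i
        fin_cases i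
        · exact h0
        · exact h1
      · apply key0 (w 1 / v 1)
        · rw [h0] at hD
          rw [h0, mul_zero]
          have : w 0 * v 1 = 0 := by linarith
          exact (mul_eq_zero.1 this).resolve_right h1
        · field_simp
    · apply key0 (w 0 / v 0)
      · field_simp
      · field_simp
        linarith
  set D := v 0 * w 1 - w 0 * v 1 with hDd
  have hgdet : (!![v 0, w 0 / D; v 1, w 1 / D] : Matrix (Fin 2) (Fin 2) ℝ).det = 1 := by
    rw [Matrix.det_fin_two_of]
    field_simp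
    rw [hDd]
  refine ⟨⟨!![v 0, w 0 / D; v 1, w 1 / D], hgdet⟩, 2 * Real.log x, ?_, ?_, ?_⟩
  · have := Real.log_pos hx1
    linarith
  · have e1 : Real.exp (2 * Real.log x / 2) = x := by
      rw [mul_div_cancel_left₀ _ (two_ne_zero), Real.exp_log hx0]
    have e2 : Real.exp (-(2 * Real.log x / 2)) = x⁻¹ := by
      rw [Real.exp_neg, e1]
    show A * !![v 0, w 0 / D; v 1, w 1 / D] = !![v 0, w 0 / D; v 1, w 1 / D] *
      !![Real.exp (2 * Real.log x / 2), 0; 0, Real.exp (-(2 * Real.log x / 2))]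
    rw [e1, e2]
    ext i j
    fin_cases i <;> fin_cases j
    · simp [Matrix.mul_apply, Fin.sum_univ_two]
      linear_combination hv0
    · simp [Matrix.mul_apply, Fin.sum_univ_two]
      linear_combination (1 / D) * hw0
    · simp [Matrix.mul_apply, Fin.sum_univ_two]
      linear_combination hv1
    · simp [Matrix.mul_apply, Fin.sum_univ_two]
      linear_combination (1 / D) * hw1
  · have e1 : Real.exp (2 * Real.log x / 2) = x := by
      rw [mul_div_cancel_left₀ _ (two_ne_zero), Real.exp_log hx0]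
    have e2 : Real.exp (-(2 * Real.log x / 2)) = x⁻¹ := by
      rw [Real.exp_neg, e1]
    rw [e1, e2, hinv, hx]
    ring

theorem taskDiag : TaskDiag := by
  intro γ hγ
  rcases lt_or_ge 0 γ.1.trace with h | h
  · rw [abs_of_pos h] at hγ ⊢
    obtain ⟨g, l, hl, h1, h2⟩ := diag_pos γ.1 γ.2 hγ
    exact ⟨g, l, hl, Or.inl (Subtype.ext h1), h2⟩
  · rw [abs_of_nonpos h] at hγ ⊢
    have hdet : (-γ.1).det = 1 := by
      rw [Matrix.det_neg, γ.2]
      simp
    have htr : (-γ.1).trace = -γ.1.trace := Matrix.trace_neg _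
    obtain ⟨g, l, hl, h1, h2⟩ := diag_pos (-γ.1) hdet (by rw [htr]; exact hγ)
    refine ⟨g, l, hl, Or.inr (Subtype.ext ?_), by rw [← htr]; exact h2⟩
    show γ.1 * g.1 = -(g.1 * (fl l).1)
    rw [← h1, Matrix.neg_mul, neg_neg]

end Pool.Agent.H934R4.AN.TaskDiagN
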