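import Pool.Agent.H934R4.AN.Stmts

set_option autoImplicit false
set_option linter.all false

/-! Task ANOSOV TaskDisc: the arithmetic group is discrete. -/

noncomputable section

open Filter Topology Set
open scoped MatrixGroups

namespace Pool.Agent.H934R4.AN.TaskDiscN

/-- elements of the ring with bounded coordinates -/
def box (K : ℤ) : Set (ℤ√2) := {z | |z.re| ≤ K ∧ |z.im| ≤ K}

theorem box_finite (K : ℤ) : (box K).Finite := by
  have h1 : (Set.Icc (-K) K ×ˢ Set.Icc (-K) K : Set (ℤ × ℤ)).Finite :=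
    (Set.finite_Icc _ _).prod (Set.finite_Icc _ _)
  refine Set.Finite.of_injOn (f := fun z : ℤ√2 => (z.re, z.im)) ?_ ?_ h1
  · rintro z ⟨hz1, hz2⟩
    rw [abs_le] at hz1 hz2
    exact ⟨⟨hz1.1, hz1.2⟩, ⟨hz2.1, hz2.2⟩⟩
  · intro z _ z' _ h
    simp only [Prod.mk.injEq] at h
    exact Zsqrtd.ext h.1 h.2

theorem mem_box {z : ℤ√2} {B : ℝ} (h1 : |e1 z| ≤ B) (h2 : |e2 z| ≤ 1) :
    z ∈ box ⌈B + 1⌉ := by
  have hs : (1 : ℝ) ≤ √2 := by
    rw [Real.one_le_sqrt]; norm_num
  have hs0 : (0 : ℝ) < √2 := by positivity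
  rw [abs_le] at h1 h2
  unfold e1 at h1
  unfold e2 at h2
  have hB : 0 ≤ B := by linarith
  have hc : B + 1 ≤ (⌈B + 1⌉ : ℝ) := Int.le_ceil _
  constructor
  · rw [abs_le]
    constructor
    · have : ((-⌈B + 1⌉ : ℤ) : ℝ) ≤ (z.re : ℝ) := by
        push_cast; linarith
      exact_mod_cast this
    · have : (z.re : ℝ) ≤ ((⌈B + 1⌉ : ℤ) : ℝ) := by linarith
      exact_mod_cast this
  · have h3 : |(z.im : ℝ)| ≤ B + 1 := by
      have h4 : |(z.im : ℝ) * √2| ≤ B + 1 := by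
        rw [abs_le]; constructor <;> linarith
      rw [abs_mul, abs_of_pos hs0] at h4
      have h5 : |(z.im : ℝ)| * 1 ≤ |(z.im : ℝ)| * √2 := mul_le_mul_of_nonneg_left hs (abs_nonneg _)
      linarith
    rw [abs_le] at h3 ⊢
    constructor
    · have : ((-⌈B + 1⌉ : ℤ) : ℝ) ≤ (z.im : ℝ) := by
        push_cast; linarith [h3.1]
      exact_mod_cast this
    · have : (z.im : ℝ) ≤ ((⌈B + 1⌉ : ℤ) : ℝ) := by linarith [h3.2]
      exact_mod_cast this

theorem e2_bound {x : Q4} (hx : qn x = 1) (i : Fin 4) : |e2 (x i)| ≤ 1 := by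
  have h1 : e2 (qn x) = 1 := by rw [hx, e2_one]
  rw [qn, e2_sub, e2_add, e2_sub, e2_mul, e2_mul, e2_mul, e2_mul, e2_mul, e2_mul, e2_w2] at h1
  have hs : (1 : ℝ) ≤ √2 := by
    rw [Real.one_le_sqrt]; norm_num
  have a0 := mul_self_nonneg (e2 (x 0))
  have a1 := mul_self_nonneg (e2 (x 1))
  have a2 := mul_self_nonneg (e2 (x 2))
  have a3 := mul_self_nonneg (e2 (x 3))
  have b1 : 1 * (e2 (x 1) * e2 (x 1)) ≤ √2 * (e2 (x 1) * e2 (x 1)) :=
    mul_le_mul_of_nonneg_right hs a1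
  have b3 : 1 * (e2 (x 3) * e2 (x 3)) ≤ √2 * (e2 (x 3) * e2 (x 3)) :=
    mul_le_mul_of_nonneg_right hs a3
  have key : e2 (x i) * e2 (x i) ≤ 1 := by
    fin_cases i
    · show e2 (x 0) * e2 (x 0) ≤ 1; linarith
    · show e2 (x 1) * e2 (x 1) ≤ 1; linarith
    · show e2 (x 2) * e2 (x 2) ≤ 1; linarith
    · show e2 (x 3) * e2 (x 3) ≤ 1; linarith
  rw [abs_le]
  constructor <;> nlinarith

theorem entry_bound (C : Set SL(2, ℝ)) (hC : IsCompact C) :
    ∃ B : ℝ, ∀ g ∈ C, ∀ i j, |g.1 i j| ≤ B := by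
  have h1 : ∀ i j : Fin 2, ∃ B : ℝ, ∀ g ∈ C, |g.1 i j| ≤ B := by
    intro i j
    have hcont : Continuous (fun g : SL(2, ℝ) => g.1 i j) := by
      have h0 : Continuous (fun g : SL(2, ℝ) => g.1) := continuous_subtype_val
      exact (continuous_apply j).comp ((continuous_apply i).comp h0)
    obtain ⟨B, hB⟩ := hC.exists_bound_of_continuousOn hcont.continuousOn
    exact ⟨B, fun g hg => by simpa [Real.norm_eq_abs] using hB g hg⟩
  choose B hB using h1
  refine ⟨∑ i, ∑ j, |B i j|, fun g hg i j => ?_⟩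
  calc |g.1 i j| ≤ B i j := hB i j g hg
    _ ≤ |B i j| := le_abs_self _
    _ ≤ ∑ j, |B i j| := Finset.single_le_sum (f := fun j => |B i j|) (fun j _ => abs_nonneg _)
        (Finset.mem_univ j)
    _ ≤ ∑ i, ∑ j, |B i j| := Finset.single_le_sum (f := fun i => ∑ j, |B i j|)
        (fun i _ => Finset.sum_nonneg (fun j _ => abs_nonneg _)) (Finset.mem_univ i)

theorem taskDisc : TaskDisc := by
  intro C hC
  obtain ⟨B, hB⟩ := entry_bound C hC
  have hth := th_pos
  have hth1 : 1 ≤ th := by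
    unfold th
    rw [Real.one_le_sqrt, Real.one_le_sqrt]; norm_num
  have hT : (Set.pi Set.univ (fun _ : Fin 4 => box ⌈B + 1⌉) : Set Q4).Finite :=
    Set.Finite.pi' (fun _ => box_finite _) |>.subset (by
      intro x hx i; exact hx i (Set.mem_univ i))
  refine Set.Finite.subset (s := ⋃ x ∈ (Set.pi Set.univ (fun _ : Fin 4 => box ⌈B + 1⌉) : Set Q4),
    {g : SL(2, ℝ) | g.1 = MM x}) ?_ ?_
  · refine Set.Finite.biUnion hT (fun x _ => ?_)
    apply Set.Subsingleton.finite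
    intro g hg g' hg'
    exact Subtype.ext (hg.trans hg'.symm)
  · rintro g ⟨hgG, hgC⟩
    have hx := crd_MM ⟨g, hgG⟩
    have hn := crd_norm ⟨g, hgG⟩
    set x := crd ⟨g, hgG⟩ with hxdef
    have hgx : g.1 = MM x := hx
    have b00 := hB g hgC 0 0
    have b01 := hB g hgC 0 1
    have b10 := hB g hgC 1 0
    have b11 := hB g hgC 1 1
    rw [hgx] at b00 b01 b10 b11
    simp only [MM, Matrix.of_apply, Matrix.cons_val', Matrix.cons_val_zero, Matrix.cons_val_one,
      Matrix.cons_val_fin_one] at b00 b01 b10 b11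
    rw [abs_le] at b00 b01 b10 b11
    have c0 : |e1 (x 0)| ≤ B := by rw [abs_le]; constructor <;> linarith
    have c2 : |e1 (x 2)| ≤ B := by rw [abs_le]; constructor <;> linarith
    have hle : ∀ y : ℝ, |th * y| ≤ B → |y| ≤ B := by
      intro y hy
      rw [abs_mul, abs_of_pos hth] at hy
      have h5 : 1 * |y| ≤ th * |y| := mul_le_mul_of_nonneg_right hth1 (abs_nonneg _)
      linarith
    have c1 : |e1 (x 1)| ≤ B := hle _ (by rw [abs_le]; constructor <;> linarith)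
    have c3 : |e1 (x 3)| ≤ B := hle _ (by rw [abs_le]; constructor <;> linarith)
    rw [Set.mem_iUnion₂]
    refine ⟨x, ?_, hgx⟩
    intro i _
    apply mem_box _ (e2_bound hn i)
    fin_cases i
    · exact c0
    · exact c1
    · exact c2
    · exact c3

end Pool.Agent.H934R4.AN.TaskDiscN
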