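import Pool.Agent.H934R4.AN.Stmts

set_option autoImplicit false

open Filter Topology Set
open scoped MatrixGroups Pointwise

namespace Pool.Agent.H934R4.AN

namespace TaskFGN

open Matrix Matrix.SpecialLinearGroup

lemma tr_cont {i j : Fin 2} (h : i ≠ j) :
    Continuous (fun c : ℝ => (Matrix.SpecialLinearGroup.transvection h c : SL(2, ℝ))) := by
  have hc : Continuous (fun c : ℝ => (1 : Matrix (Fin 2) (Fin 2) ℝ) + Matrix.single i j c) := by
    refine continuous_const.add (continuous_matrix fun a b => ?_)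
    by_cases hab : i = a ∧ j = b
    · simp only [Matrix.single, Matrix.of_apply, if_pos hab]
      exact continuous_id
    · simp only [Matrix.single, Matrix.of_apply, if_neg hab]
      exact continuous_const
  have he : (fun c : ℝ => (1 : Matrix (Fin 2) (Fin 2) ℝ) + Matrix.single i j c) =
      fun c : ℝ => ((Matrix.SpecialLinearGroup.transvection h c : SL(2, ℝ)) :
        Matrix (Fin 2) (Fin 2) ℝ) := by
    funext c
    exact (transvection_coe h c).symm
  rw [he] at hc
  exact continuous_induced_rng.mpr hc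

lemma tr_pow {i j : Fin 2} (h : i ≠ j) (c : ℝ) (n : ℕ) :
    (Matrix.SpecialLinearGroup.transvection h ((n : ℝ) * c) : SL(2, ℝ)) =
      Matrix.SpecialLinearGroup.transvection h c ^ n := by
  induction n with
  | zero => simp
  | succ n ih =>
    rw [pow_succ, ← ih, ← transvection_add]
    congr 1
    push_cast; ring

/-- the compact generating set -/
def C1 : Set SL(2, ℝ) :=
  ((fun c : ℝ => (Matrix.SpecialLinearGroup.transvection (zero_ne_one : (0 : Fin 2) ≠ 1) c :
    SL(2, ℝ))) '' Icc (-1) 1) ∪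
  ((fun c : ℝ => (Matrix.SpecialLinearGroup.transvection (one_ne_zero : (1 : Fin 2) ≠ 0) c :
    SL(2, ℝ))) '' Icc (-1) 1)

lemma C1_compact : IsCompact C1 :=
  (isCompact_Icc.image (tr_cont _)).union (isCompact_Icc.image (tr_cont _))

lemma exists_n (c : ℝ) : ∃ n : ℕ, 0 < n ∧ c / n ∈ Icc (-1 : ℝ) 1 := by
  obtain ⟨n, hn⟩ := exists_nat_gt |c|
  have hn0 : (0 : ℝ) < n := (abs_nonneg c).trans_lt hn
  refine ⟨n, by exact_mod_cast hn0, ?_⟩
  have := (abs_lt.1 hn)
  constructor
  · rw [le_div_iff₀ hn0]; linarith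
  · rw [div_le_iff₀ hn0]; linarith

lemma gen_C1 (g : SL(2, ℝ)) : g ∈ Submonoid.closure C1 := by
  refine Matrix.SL2.transvection_induction (fun g => g ∈ Submonoid.closure C1) ?_
    (fun A B hA hB => mul_mem hA hB) g
  intro i j h c
  obtain ⟨n, hn, hc⟩ := exists_n c
  have hn0 : (n : ℝ) ≠ 0 := by exact_mod_cast hn.ne'
  have e : c = (n : ℝ) * (c / n) := by field_simp
  rw [e, tr_pow]
  apply pow_mem
  apply Submonoid.subset_closure
  fin_cases i
  · obtain rfl : j = 1 := by fin_cases j <;> tauto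
    exact Or.inl ⟨c / n, hc, rfl⟩
  · obtain rfl : j = 0 := by fin_cases j <;> tauto
    exact Or.inr ⟨c / n, hc, rfl⟩

theorem taskFG (h1 : TaskCoc) (h2 : TaskDisc) : TaskFG := by
  obtain ⟨D, hD, hcov⟩ := h1
  let D' : Set SL(2, ℝ) := D ∪ {1}
  have hD' : IsCompact D' := hD.union isCompact_singleton
  have hK : IsCompact (D' * C1 * D'⁻¹) := (hD'.mul C1_compact).mul hD'.inv
  let F : Set SL(2, ℝ) := ((Gam : Set SL(2, ℝ)) ∩ (D' * C1 * D'⁻¹)) ∪ ((Gam : Set SL(2, ℝ)) ∩ D')
  have hF : F.Finite := (h2 _ hK).union (h2 _ hD')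
  have hFG : F ⊆ (Gam : Set SL(2, ℝ)) := by
    rintro x (hx | hx)
    · exact hx.1
    · exact hx.1
  have key : ∀ g : SL(2, ℝ), ∃ h ∈ Subgroup.closure F, ∃ d ∈ D', g = h * d := by
    intro g
    refine Submonoid.closure_induction_right (s := C1)
      (motive := fun g _ => ∃ h ∈ Subgroup.closure F, ∃ d ∈ D', g = h * d) ?_ ?_ (gen_C1 g)
    · exact ⟨1, one_mem _, 1, Or.inr rfl, (mul_one 1).symm⟩
    · rintro x _ c hc ⟨h, hh, d, hd, rfl⟩
      obtain ⟨γ, hγ, hγd⟩ := hcov (d * c)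
      have hinv : γ⁻¹ ∈ F := by
        refine Or.inl ⟨inv_mem hγ, ?_⟩
        refine ⟨d * c, ⟨d, hd, c, hc, rfl⟩, (γ * (d * c))⁻¹, ?_, ?_⟩
        · rw [Set.inv_mem_inv]; exact Or.inl hγd
        · simp only [_root_.mul_inv_rev]
          group
      refine ⟨h * γ⁻¹, mul_mem hh (Subgroup.subset_closure hinv), γ * (d * c), Or.inl hγd, ?_⟩
      group
  have hle : Gam ≤ Subgroup.closure F := by
    intro γ hγ
    obtain ⟨h, hh, d, hd, he⟩ := key γ
    have hhG : h ∈ Gam := (Subgroup.closure_le _).2 hFG hh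
    have hdG : d ∈ Gam := by
      have : d = h⁻¹ * γ := by rw [he]; group
      rw [this]; exact mul_mem (inv_mem hhG) hγ
    rw [he]
    exact mul_mem hh (Subgroup.subset_closure (Or.inr ⟨hdG, hd⟩))
  have heq : Subgroup.closure F = Gam := le_antisymm ((Subgroup.closure_le _).2 hFG) hle
  have hfg : Gam.FG := ⟨hF.toFinset, by rw [hF.coe_toFinset, heq]⟩
  have h3 : Group.FG Gam := (Group.fg_iff_subgroup_fg Gam).2 hfg
  exact h3.out

end TaskFGN

end Pool.Agent.H934R4.AN
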