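import Pool.Agent.H934R4.AN.Stmts

/-!
# Task `TaskFin`
-/

set_option autoImplicit false

noncomputable section

open Filter Topology Set
open scoped MatrixGroups

namespace Pool.Agent.H934R4.AN.TaskFinN

/-- the class of `ψ * φ` depends only on the class of `ψ` (and on `φ`) -/
theorem mk_mul_right (ψ ψ' φ : MulAut Gam)
    (h : (QuotientGroup.mk ψ : Mod Gam) = QuotientGroup.mk ψ') :
    (QuotientGroup.mk (ψ * φ) : Mod Gam) = QuotientGroup.mk (ψ' * φ) := by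
  rw [QuotientGroup.eq] at h ⊢
  obtain ⟨γ, hγ⟩ := h
  refine ⟨φ⁻¹ γ, ?_⟩
  have h1 : (ψ * φ)⁻¹ * (ψ' * φ) = φ⁻¹ * (ψ⁻¹ * ψ') * φ := by group
  rw [h1, ← hγ]
  ext x
  simp [MulAut.conj_apply]

theorem taskFin (h1 : TaskTr) (h2 : TaskNorm) (h3 : TaskConj) (h4 : TaskFG) (h5 : TaskNC) :
    TaskFin := by
  classical
  obtain ⟨S, hS⟩ := h4
  obtain ⟨s, t, hst⟩ := h5
  refine ⟨{s, t, s * t} ∪ (S ∪ (S.image (fun a => a * s) ∪
    (S.image (fun a => a * t) ∪ S.image (fun a => a * (s * t))))), fun R => ?_⟩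
  set F : Finset Gam := {s, t, s * t} ∪ (S ∪ (S.image (fun a => a * s) ∪
    (S.image (fun a => a * t) ∪ S.image (fun a => a * (s * t))))) with hF
  have hmem : ∀ w : Gam, (w = s ∨ w = t ∨ w = s * t ∨ ∃ a ∈ (S : Set Gam), w = a ∨ w = a * s ∨
      w = a * t ∨ w = a * (s * t)) → w ∈ F := by
    intro w hw
    rw [hF]
    simp only [Finset.mem_union, Finset.mem_insert, Finset.mem_singleton, Finset.mem_image]
    rcases hw with h | h | h | ⟨a, ha, h | h | h | h⟩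
    · exact Or.inl (Or.inl h)
    · exact Or.inl (Or.inr (Or.inl h))
    · exact Or.inl (Or.inr (Or.inr h))
    · exact Or.inr (Or.inl (h ▸ ha))
    · exact Or.inr (Or.inr (Or.inl ⟨a, ha, h.symm⟩))
    · exact Or.inr (Or.inr (Or.inr (Or.inl ⟨a, ha, h.symm⟩)))
    · exact Or.inr (Or.inr (Or.inr (Or.inr ⟨a, ha, h.symm⟩)))
  clear_value F
  let A : Set (MulAut Gam) := {φ | ∀ f ∈ F, |tr (φ f)| ≤ R}
  let τ : MulAut Gam → (F → ℝ) := fun φ f => tr (φ f)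
  have hfin : (τ '' A).Finite := by
    refine (Set.Finite.pi' (fun _ : F => h1 R)).subset ?_
    rintro _ ⟨φ, hφ, rfl⟩ f
    exact ⟨hφ f.1 f.2, φ f, rfl⟩
  let pick : (F → ℝ) → MulAut Gam := fun x =>
    if h : ∃ φ ∈ A, τ φ = x then h.choose else 1
  have hpick : ∀ φ ∈ A, τ (pick (τ φ)) = τ φ := by
    intro φ hφ
    have h : ∃ φ' ∈ A, τ φ' = τ φ := ⟨φ, hφ, rfl⟩
    show τ (if h : ∃ φ' ∈ A, τ φ' = τ φ then h.choose else 1) = τ φ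
    rw [dif_pos h]
    exact h.choose_spec.2
  refine (Set.Finite.image2 (fun (c : Mod Gam) (x : F → ℝ) =>
    (QuotientGroup.mk (Quotient.out c * pick x) : Mod Gam)) h2 hfin).subset ?_
  rintro _ ⟨φ, hφ, rfl⟩
  set φ₀ := pick (τ φ) with hφ₀
  have hτ : ∀ w ∈ F, tr (φ₀ w) = tr (φ w) := by
    intro w hw
    exact congrFun (hpick φ hφ) ⟨w, hw⟩
  obtain ⟨h, hdet, hh⟩ := h3 φ₀ φ (S : Set Gam) s t hS hst (fun w hw => hτ w (hmem w hw))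
  have hψ : (φ * φ₀⁻¹) ∈ {φ : MulAut Gam | ∃ h : Matrix (Fin 2) (Fin 2) ℝ, h.det ≠ 0 ∧
      ∀ γ : Gam, h * (γ : SL(2, ℝ)).1 = ((φ γ : Gam) : SL(2, ℝ)).1 * h} := by
    refine ⟨h, hdet, fun γ => ?_⟩
    have h6 := hh (φ₀⁻¹ γ)
    have h7 : φ₀ (φ₀⁻¹ γ) = γ := MulEquiv.apply_symm_apply φ₀ γ
    rw [h7] at h6
    exact h6
  refine ⟨QuotientGroup.mk (φ * φ₀⁻¹), ⟨φ * φ₀⁻¹, hψ, rfl⟩, τ φ, ⟨φ, hφ, rfl⟩, ?_⟩
  have h8 : (QuotientGroup.mk (Quotient.out (QuotientGroup.mk (φ * φ₀⁻¹) : Mod Gam)) : Mod Gam) =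
      QuotientGroup.mk (φ * φ₀⁻¹) := Quotient.out_eq' _
  have h9 := mk_mul_right _ _ φ₀ h8
  rw [inv_mul_cancel_right] at h9
  exact h9

end Pool.Agent.H934R4.AN.TaskFinN
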