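import Pool.Agent.H934R4.AN.Stmts

/-!
# Project ANOSOV, task Free: the group acts freely on the upper half plane
-/

set_option autoImplicit false

noncomputable section

open Filter Topology Set
open scoped MatrixGroups

namespace Pool.Agent.H934R4.AN.TaskFreeN

theorem taskFree (h : TaskHyp) : TaskFree := by
  intro γ hγ z hz
  by_contra hne
  have hne' : (⟨γ, hγ⟩ : Gam) ≠ 1 := by
    intro h1
    apply hne
    have := congrArg (fun x : Gam => (x : SL(2, ℝ))) h1
    simpa using this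
  have htr := h ⟨γ, hγ⟩ hne'
  have htr2 : tr ⟨γ, hγ⟩ = γ.1 0 0 + γ.1 1 1 := by
    unfold tr
    rw [Matrix.trace_fin_two]
  rw [htr2] at htr
  have hdet : γ.1 0 0 * γ.1 1 1 - γ.1 0 1 * γ.1 1 0 = 1 := by
    have := γ.2
    rwa [Matrix.det_fin_two] at this
  have hy : 0 < (z : ℂ).im := z.im_pos
  have h1 := UpperHalfPlane.coe_specialLinearGroup_apply γ z
  rw [hz] at h1
  simp only [Algebra.algebraMap_self, RingHom.id_apply] at h1
  change (z : ℂ) = ((γ.1 0 0 : ℝ) * (z : ℂ) + (γ.1 0 1 : ℝ)) /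
    ((γ.1 1 0 : ℝ) * (z : ℂ) + (γ.1 1 1 : ℝ)) at h1
  generalize γ.1 0 0 = a at *
  generalize γ.1 0 1 = b at *
  generalize γ.1 1 0 = c at *
  generalize γ.1 1 1 = d at *
  have hden : ((c : ℝ) : ℂ) * (z : ℂ) + (d : ℝ) ≠ 0 := by
    intro h0
    rw [h0, div_zero] at h1
    rw [h1] at hy
    simp at hy
  rw [eq_div_iff hden] at h1
  have hre := congrArg Complex.re h1
  have him := congrArg Complex.im h1
  simp only [Complex.mul_re, Complex.mul_im, Complex.add_re, Complex.add_im, Complex.ofReal_re,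
    Complex.ofReal_im, zero_mul, mul_zero, sub_zero, add_zero] at hre him
  generalize (z : ℂ).re = x at *
  generalize (z : ℂ).im = y at *
  have e1 : 2 * c * x = a - d := by
    have h2 : (2 * c * x - (a - d)) * y = 0 := by linarith
    rcases mul_eq_zero.1 h2 with h3 | h3
    · linarith
    · exact absurd h3 hy.ne'
  have e2 : b = -(c * (x ^ 2 + y ^ 2)) := by
    have h2 : d = a - 2 * c * x := by linarith
    rw [h2] at hre
    nlinarith [hre]
  have e3 : (a + d) ^ 2 = 4 - 4 * c ^ 2 * y ^ 2 := by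
    have h4 : a * d = 1 + b * c := by linarith
    have h5 : (a + d) ^ 2 = (a - d) ^ 2 + 4 * (a * d) := by ring
    rw [h5, h4, ← e1, e2]
    ring
  have e4 : (a + d) ^ 2 ≤ 2 ^ 2 := by
    rw [e3]
    nlinarith [mul_nonneg (sq_nonneg c) (sq_nonneg y)]
  have e5 : |a + d| ≤ 2 := abs_le_of_sq_le_sq e4 (by norm_num) |> fun h => h
  linarith

end Pool.Agent.H934R4.AN.TaskFreeN
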