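import Pool.Agent.H934R4.AN.Stmts

set_option autoImplicit false

noncomputable section

open Filter Topology Set
open scoped MatrixGroups Kronecker ENNReal NNReal

namespace Pool.Agent.H934R4.AN.TaskGelfN

open Pool.Agent.H934R4.AN

attribute [local instance] Matrix.linftyOpNormedRing Matrix.linftyOpNormedAlgebra

theorem main {n : Type} [Fintype n] [DecidableEq n] [Nonempty n] (A : Matrix n n ℂ) (v : n → ℂ)
    (C b : ℝ) (hC : 0 < C) (hb : 0 < b) (h : ∀ m : ℕ, C * b ^ m ≤ ‖(A ^ m).mulVec v‖) :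
    ∃ μ : ℂ, A.charpoly.IsRoot μ ∧ b ≤ ‖μ‖ := by
  have : CompleteSpace (Matrix n n ℂ) := FiniteDimensional.complete ℂ _
  obtain ⟨μ, hμ, hr⟩ := spectrum.exists_nnnorm_eq_spectralRadius A
  refine ⟨μ, Matrix.mem_spectrum_iff_isRoot_charpoly.1 hμ, ?_⟩
  by_contra hlt
  push Not at hlt
  obtain ⟨b', h1, h2⟩ := exists_between hlt
  have hb'0 : 0 < b' := lt_of_le_of_lt (norm_nonneg _) h1
  have htend := spectrum.pow_nnnorm_pow_one_div_tendsto_nhds_spectralRadius A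
  rw [← hr] at htend
  have hlt' : (‖μ‖₊ : ℝ≥0∞) < ENNReal.ofReal b' := by
    have h7 : ENNReal.ofReal ‖μ‖ = (‖μ‖₊ : ℝ≥0∞) := by
      rw [← coe_nnnorm, ENNReal.ofReal_coe_nnreal]
    rw [← h7]
    exact (ENNReal.ofReal_lt_ofReal_iff hb'0).2 h1
  have hev := htend.eventually_lt_const hlt'
  have hev2 : ∀ᶠ m : ℕ in atTop, C * (b / b') ^ m ≤ ‖v‖ := by
    filter_upwards [hev, eventually_ge_atTop 1] with m hm hm1
    have hm0 : (m : ℝ) ≠ 0 := by positivity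
    have h3 : (‖A ^ m‖₊ : ℝ≥0∞) ≤ ENNReal.ofReal b' ^ m := by
      have h4 : ((‖A ^ m‖₊ : ℝ≥0∞) ^ (1 / m : ℝ)) ^ m ≤ ENNReal.ofReal b' ^ m :=
        pow_le_pow_left' hm.le m
      rwa [← ENNReal.rpow_natCast, ← ENNReal.rpow_mul, one_div, inv_mul_cancel₀ hm0,
        ENNReal.rpow_one] at h4
    have h5 : ‖A ^ m‖ ≤ b' ^ m := by
      have h6 : ENNReal.ofReal ‖A ^ m‖ ≤ ENNReal.ofReal (b' ^ m) := by
        rw [ENNReal.ofReal_pow hb'0.le]
        have h7 : ENNReal.ofReal ‖A ^ m‖ = (‖A ^ m‖₊ : ℝ≥0∞) := by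
          rw [← coe_nnnorm, ENNReal.ofReal_coe_nnreal]
        rw [h7]
        exact h3
      exact (ENNReal.ofReal_le_ofReal_iff (by positivity)).1 h6
    have h8 : C * b ^ m ≤ b' ^ m * ‖v‖ :=
      (h m).trans ((Matrix.linfty_opNorm_mulVec _ _).trans
        (mul_le_mul_of_nonneg_right h5 (norm_nonneg _)))
    rw [div_pow, mul_div_assoc', div_le_iff₀ (by positivity)]
    linarith
  have hgt : Tendsto (fun m : ℕ => C * (b / b') ^ m) atTop atTop :=
    (tendsto_pow_atTop_atTop_of_one_lt ((one_lt_div hb'0).2 h2)).const_mul_atTop hC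
  obtain ⟨m, hm1, hm2⟩ := (hev2.and (hgt.eventually_gt_atTop ‖v‖)).exists
  exact absurd hm1 (not_le.2 hm2)

theorem taskGelf : TaskGelf := fun A v C b hC hb h => main A v C b hC hb h

end Pool.Agent.H934R4.AN.TaskGelfN
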