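import Pool.Agent.H934R4.AN.Stmts

/-!
# All nontrivial elements of `Gam` are hyperbolic (`TaskHyp`), by helper662
-/

set_option autoImplicit false

noncomputable section

open scoped MatrixGroups

namespace Pool.Agent.H934R4.AN.TaskHypN

theorem e2_eq_zero {x : ℤ√2} (h : e2 x = 0) : x = 0 := by
  have h1 : e1 ⟨x.re, -x.im⟩ = e1 0 := by
    rw [e1_zero, ← h]
    simp [e1, e2]
    ring
  have h2 := e1_inj h1
  have h3 := congrArg Zsqrtd.re h2
  have h4 := congrArg Zsqrtd.im h2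
  simp only [Zsqrtd.re_zero, Zsqrtd.im_zero] at h3 h4
  ext
  · simpa using h3
  · simpa using h4

theorem tr_eq (γ : Gam) : tr γ = 2 * e1 (crd γ 0) := by
  rw [tr, crd_MM, MM, Matrix.trace_fin_two_of]
  ring

theorem norm_eq (x : Q4) (h : qn x = 1) :
    e2 (x 0) ^ 2 + √2 * e2 (x 1) ^ 2 + e2 (x 2) ^ 2 + √2 * e2 (x 3) ^ 2 = 1 := by
  have h1 := congrArg e2 h
  rw [qn, e2_sub, e2_add, e2_sub, e2_mul, e2_mul, e2_mul, e2_mul, e2_mul, e2_mul, e2_w2,
    e2_one] at h1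
  linarith

theorem taskHyp : TaskHyp := by
  intro γ hγ
  by_contra hcon
  push Not at hcon
  rw [tr_eq, abs_mul, abs_two] at hcon
  have h1 : |e1 (crd γ 0)| ≤ 1 := by linarith
  have hn := norm_eq _ (crd_norm γ)
  have hs : 0 < √(2 : ℝ) := Real.sqrt_pos.2 (by norm_num)
  have p1 : 0 ≤ √2 * e2 (crd γ 1) ^ 2 := by positivity
  have p2 : 0 ≤ e2 (crd γ 2) ^ 2 := by positivity
  have p3 : 0 ≤ √2 * e2 (crd γ 3) ^ 2 := by positivity
  have h2 : |e2 (crd γ 0)| ≤ 1 := by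
    rw [← sq_le_one_iff_abs_le_one]
    linarith
  have hc := crd_cong γ
  obtain ⟨⟨c, hc0⟩, -, -, -⟩ := hc
  have hre := congrArg Zsqrtd.re hc0
  simp at hre
  have e1def : e1 (crd γ 0) = (crd γ 0).re + (crd γ 0).im * √2 := rfl
  have e2def : e2 (crd γ 0) = (crd γ 0).re - (crd γ 0).im * √2 := rfl
  rw [abs_le] at h1 h2
  have ha1 : ((crd γ 0).re : ℝ) ≤ 1 := by linarith
  have ha2 : (-1 : ℝ) ≤ ((crd γ 0).re : ℝ) := by linarith
  have ha1' : (crd γ 0).re ≤ 1 := by exact_mod_cast ha1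
  have ha2' : -1 ≤ (crd γ 0).re := by exact_mod_cast ha2
  have hre1 : (crd γ 0).re = 1 := by omega
  have hs1 : (1 : ℝ) < √2 := by
    rw [Real.lt_sqrt] <;> norm_num
  have hb1 : ((crd γ 0).im : ℝ) * √2 ≤ 1 := by linarith
  have hb2 : -1 ≤ ((crd γ 0).im : ℝ) * √2 := by linarith
  have him : (crd γ 0).im = 0 := by
    by_contra hne
    rcases lt_or_gt_of_ne hne with hlt | hgt
    · have : ((crd γ 0).im : ℝ) ≤ -1 := by exact_mod_cast (by omega : (crd γ 0).im ≤ -1)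
      nlinarith
    · have : (1 : ℝ) ≤ ((crd γ 0).im : ℝ) := by exact_mod_cast (by omega : 1 ≤ (crd γ 0).im)
      nlinarith
  have hx0 : crd γ 0 = 1 := by
    ext
    · simpa using hre1
    · simpa using him
  rw [hx0, e2_one] at hn
  have q1 : e2 (crd γ 1) ^ 2 = 0 := by
    have : √2 * e2 (crd γ 1) ^ 2 = 0 := by linarith
    exact (mul_eq_zero.1 this).resolve_left hs.ne'
  have q2 : e2 (crd γ 2) ^ 2 = 0 := by linarith
  have q3 : e2 (crd γ 3) ^ 2 = 0 := by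
    have : √2 * e2 (crd γ 3) ^ 2 = 0 := by linarith
    exact (mul_eq_zero.1 this).resolve_left hs.ne'
  have hx1 := e2_eq_zero (pow_eq_zero_iff two_ne_zero |>.1 q1)
  have hx2 := e2_eq_zero (pow_eq_zero_iff two_ne_zero |>.1 q2)
  have hx3 := e2_eq_zero (pow_eq_zero_iff two_ne_zero |>.1 q3)
  have hx : crd γ = ![1, 0, 0, 0] := by
    funext i
    fin_cases i
    · exact hx0
    · exact hx1
    · exact hx2
    · exact hx3
  apply hγ
  apply Subtype.ext
  apply Subtype.ext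
  rw [crd_MM, hx, MM_one]
  rfl

end Pool.Agent.H934R4.AN.TaskHypN
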