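import Pool.Agent.H934R4.AN.Stmts

set_option autoImplicit false

noncomputable section

open Filter Topology Set
open scoped MatrixGroups Kronecker

namespace Pool.Agent.H934R4.AN
namespace TaskIrrN

def xa : ℤ√2 := ⟨-4481, -3168⟩
def xb : ℤ√2 := ⟨-3768, -2664⟩
def x0 : Q4 := ![xa, xb, 0, 0]
def y0 : Q4 := ![xa, 0, 0, xb]

theorem qn_x0 : qn x0 = 1 := by decide +kernel
theorem qn_y0 : qn y0 = 1 := by decide +kernel

theorem dvd_a : (3 : ℤ√2) ∣ xa - 1 := ⟨⟨-1494, -1056⟩, by decide +kernel⟩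
theorem dvd_b : (3 : ℤ√2) ∣ xb := ⟨⟨-1256, -888⟩, by decide +kernel⟩

theorem cong_x0 : Cong x0 := ⟨dvd_a, dvd_b, dvd_zero _, dvd_zero _⟩
theorem cong_y0 : Cong y0 := ⟨dvd_a, dvd_zero _, dvd_zero _, dvd_b⟩

/-- the element of the group with quaternion `x` -/
def mk (x : Q4) (hc : Cong x) (hn : qn x = 1) : Gam :=
  ⟨⟨MM x, by rw [MM_det, hn, e1_one]⟩, x, hc, rfl⟩

theorem crd_mk (x : Q4) (hc : Cong x) (hn : qn x = 1) : crd (mk x hc hn) = x := by
  apply MM_inj
  rw [← crd_MM]
  rfl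

theorem mat_mk (x : Q4) (hc : Cong x) (hn : qn x = 1) :
    mat rho1 (mk x hc hn) = (MM x).map (fun r : ℝ => (r : ℂ)) ⊗ₖ TT x := by
  rw [mat_rho1, crd_mk]
  rfl

theorem e1a_ne : e1 xa ≠ 0 := by
  intro h
  rw [← e1_zero] at h
  exact absurd (e1_inj h) (by decide +kernel)

theorem e1b_ne : e1 xb ≠ 0 := by
  intro h
  rw [← e1_zero] at h
  exact absurd (e1_inj h) (by decide +kernel)

theorem e2a_ne : e2 xa ≠ 0 := by
  intro h
  have h1 : (3168 : ℝ) * √2 = 4481 := by
    simp only [e2, xa] at h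
    push_cast at h
    linarith
  have h2 : ((3168 : ℝ) * √2) * (3168 * √2) = 4481 * 4481 := by rw [h1]
  have h3 : ((3168 : ℝ) * √2) * (3168 * √2) = 3168 * 3168 * 2 := by
    linear_combination (3168 * 3168 : ℝ) * sqrt2_sq
  rw [h3] at h2
  norm_num at h2

theorem e2b_ne : e2 xb ≠ 0 := by
  intro h
  have h1 : (2664 : ℝ) * √2 = 3768 := by
    simp only [e2, xb] at h
    push_cast at h
    linarith
  have h2 : ((2664 : ℝ) * √2) * (2664 * √2) = 3768 * 3768 := by rw [h1]
  have h3 : ((2664 : ℝ) * √2) * (2664 * √2) = 2664 * 2664 * 2 := by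
    linear_combination (2664 * 2664 : ℝ) * sqrt2_sq
  rw [h3] at h2
  norm_num at h2

/-- real diagonal -/
def av : Fin 2 → ℝ := ![e1 xa + th * e1 xb, e1 xa - th * e1 xb]
/-- sign -/
def sv : Fin 2 → ℝ := ![1, -1]
/-- the diagonal entries -/
def dd (k : I4) : ℂ := (av k.1 : ℂ) * ((e2 xa : ℂ) + (sv k.2 : ℂ) * (th * Complex.I * e2 xb))

theorem av_mul : av 0 * av 1 = 1 := by
  have h := MM_det x0
  rw [qn_x0, e1_one, Matrix.det_fin_two] at h
  simp [MM, x0, e1_zero] at h
  simpa [av] using h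

theorem av_ne (i : Fin 2) : av i ≠ 0 := by
  intro h
  have := av_mul
  fin_cases i
  · simp only [Fin.zero_eta] at h
    rw [h, zero_mul] at this
    exact zero_ne_one this
  · simp only [Fin.mk_one] at h
    rw [h, mul_zero] at this
    exact zero_ne_one this

theorem av_sub : av 0 - av 1 ≠ 0 := by
  have h : av 0 - av 1 = 2 * (th * e1 xb) := by
    simp [av]; ring
  rw [h]
  exact mul_ne_zero two_ne_zero (mul_ne_zero th_pos.ne' e1b_ne)

theorem av_inj {i i' : Fin 2} (h : av i = av i') : i = i' := by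
  have h1 := av_sub
  fin_cases i <;> fin_cases i'
  · rfl
  · exact absurd (sub_eq_zero.2 h) h1
  · exact absurd (sub_eq_zero.2 h.symm) h1
  · rfl

theorem sv_inj {i i' : Fin 2} (h : sv i = sv i') : i = i' := by
  fin_cases i <;> fin_cases i'
  · rfl
  · simp [sv] at h; norm_num at h
  · simp [sv] at h; norm_num at h
  · rfl

theorem dd_re (k : I4) : (dd k).re = av k.1 * e2 xa := by
  simp [dd]

theorem dd_im (k : I4) : (dd k).im = av k.1 * (sv k.2 * (th * e2 xb)) := by
  simp [dd]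

theorem dd_inj : Function.Injective dd := by
  intro k l h
  have h1 := congrArg Complex.re h
  have h2 := congrArg Complex.im h
  rw [dd_re, dd_re] at h1
  rw [dd_im, dd_im] at h2
  have h3 : k.1 = l.1 := av_inj (mul_right_cancel₀ e2a_ne h1)
  rw [h3] at h2
  have h4 := mul_left_cancel₀ (av_ne l.1) h2
  have h5 : k.2 = l.2 := sv_inj (mul_right_cancel₀ (mul_ne_zero th_pos.ne' e2b_ne) h4)
  exact Prod.ext h3 h5

theorem mat_x0 : mat rho1 (mk x0 cong_x0 qn_x0) = Matrix.diagonal dd := by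
  rw [mat_mk]
  ext k l
  obtain ⟨i, j⟩ := k
  obtain ⟨i', j'⟩ := l
  fin_cases i <;> fin_cases j <;> fin_cases i' <;> fin_cases j' <;>
    simp [Matrix.kroneckerMap_apply, Matrix.diagonal_apply, MM, TT, x0, dd, av, sv, e1_zero, e2_zero,
      Prod.ext_iff] <;> first | ring1 | (left; ring1)

theorem mat_y0_ne (k l : I4) : mat rho1 (mk y0 cong_y0 qn_y0) k l ≠ 0 := by
  rw [mat_mk]
  have h1 : (e1 xa : ℂ) ≠ 0 := by exact_mod_cast e1a_ne
  have h2 : (e1 xb : ℂ) ≠ 0 := by exact_mod_cast e1b_ne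
  have h3 : (e2 xa : ℂ) ≠ 0 := by exact_mod_cast e2a_ne
  have h4 : (e2 xb : ℂ) ≠ 0 := by exact_mod_cast e2b_ne
  have h5 : (th : ℂ) ≠ 0 := by exact_mod_cast th_pos.ne'
  obtain ⟨i, j⟩ := k
  obtain ⟨i', j'⟩ := l
  fin_cases i <;> fin_cases j <;> fin_cases i' <;> fin_cases j' <;>
    simp [Matrix.kroneckerMap_apply, MM, TT, y0, e1_zero, e2_zero, h1, h2, h3, h4, h5]

/-- the representation as a homomorphism to matrices -/
def mh : Gam →* Matrix I4 I4 ℂ where
  toFun := mat rho1
  map_one' := by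
    show ((show Gam →* Matrix.SpecialLinearGroup I4 ℂ from rho1) 1).1 = 1
    rw [map_one]; rfl
  map_mul' γ δ := by
    show ((show Gam →* Matrix.SpecialLinearGroup I4 ℂ from rho1) (γ * δ)).1 = _
    rw [map_mul]; rfl

theorem aeval_diag (d : I4 → ℂ) (p : Polynomial ℂ) :
    Polynomial.aeval (Matrix.diagonal d) p = Matrix.diagonal (fun k => p.eval (d k)) := by
  induction p using Polynomial.induction_on' with
  | add p q hp hq =>
    rw [map_add, hp, hq, Matrix.diagonal_add]
    congr 1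
    funext k
    simp
  | monomial n a =>
    rw [Polynomial.aeval_monomial, Matrix.diagonal_pow, Algebra.algebraMap_eq_smul_one, smul_mul_assoc,
      one_mul, ← Matrix.diagonal_smul]
    congr 1
    funext k
    simp

theorem taskIrr : TaskIrr := by
  set B : Subalgebra ℂ (Matrix I4 I4 ℂ) := Algebra.adjoin ℂ (Set.range (mat rho1)) with hB
  have hspan : Subalgebra.toSubmodule B = Submodule.span ℂ (Set.range (mat rho1)) := by
    rw [hB, Algebra.adjoin_eq_span]
    congr 1
    have h1 : Set.range (mat rho1) = (MonoidHom.mrange mh : Set (Matrix I4 I4 ℂ)) := by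
      ext M
      simp [MonoidHom.mem_mrange, mh]
    rw [h1, Submonoid.closure_eq]
  show Submodule.span ℂ (Set.range (mat rho1)) = ⊤
  rw [← hspan]
  have hmem : ∀ γ : Gam, mat rho1 γ ∈ B := fun γ => Algebra.subset_adjoin ⟨γ, rfl⟩
  have hE : ∀ k : I4, Matrix.single k k (1 : ℂ) ∈ B := by
    intro k
    have h1 : Polynomial.aeval (Matrix.diagonal dd) (Lagrange.basis Finset.univ dd k) ∈ B := by
      rw [← mat_x0]
      have h0 := Polynomial.aeval_mem_adjoin_singleton (R := ℂ)
        (p := Lagrange.basis Finset.univ dd k) (mat rho1 (mk x0 cong_x0 qn_x0))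
      have hsub : ({mat rho1 (mk x0 cong_x0 qn_x0)} : Set (Matrix I4 I4 ℂ)) ⊆
          Set.range (mat rho1) := Set.singleton_subset_iff.2 ⟨_, rfl⟩
      exact Algebra.adjoin_mono hsub h0
    rw [aeval_diag] at h1
    have h2 : Matrix.single k k (1 : ℂ) =
        Matrix.diagonal (fun l => (Lagrange.basis Finset.univ dd k).eval (dd l)) := by
      rw [← Matrix.diagonal_single]
      congr 1
      funext l
      by_cases hkl : k = l
      · subst hkl
        rw [Lagrange.eval_basis_self dd_inj.injOn (Finset.mem_univ _), Pi.single_eq_same]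
      · rw [Lagrange.eval_basis_of_ne hkl (Finset.mem_univ _), Pi.single_eq_of_ne (Ne.symm hkl)]
    rw [h2]
    exact h1
  have hS : ∀ k l : I4, Matrix.single k l (1 : ℂ) ∈ B := by
    intro k l
    set M := mat rho1 (mk y0 cong_y0 qn_y0) with hM
    have h1 : Matrix.single k k (1 : ℂ) * M * Matrix.single l l (1 : ℂ) ∈ B :=
      B.mul_mem (B.mul_mem (hE k) (hmem _)) (hE l)
    have h2 : Matrix.single k k (1 : ℂ) * M * Matrix.single l l (1 : ℂ) =
        Matrix.single k l (M k l) := by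
      rw [Matrix.single_mul_mul_single]
      simp
    rw [h2] at h1
    have h3 := B.smul_mem h1 (M k l)⁻¹
    rw [Matrix.smul_single, smul_eq_mul, inv_mul_cancel₀ (mat_y0_ne k l)] at h3
    exact h3
  rw [eq_top_iff]
  intro M _
  show M ∈ B
  rw [Matrix.matrix_eq_sum_single M]
  refine B.sum_mem (fun k _ => B.sum_mem (fun l _ => ?_))
  have h := B.smul_mem (hS k l) (M k l)
  rwa [Matrix.smul_single, smul_eq_mul, mul_one] at h

end TaskIrrN
end Pool.Agent.H934R4.AN
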