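import Pool.Agent.H934R4.AN.Stmts

/-! Task TaskMink of the project ANOSOV (helper265): Minkowski's theorem in dimension eight. -/

set_option autoImplicit false

noncomputable section

open MeasureTheory Matrix
open scoped MatrixGroups

namespace Pool.Agent.H934R4.AN.TaskMinkN

/-- the matrix of the map from the coordinates to the entries of `g * MM x` -/
def KK (a b c d t : ℝ) : Matrix (Fin 4) (Fin 4) ℝ :=
  !![a, t * a, -b, t * b; b, -(t * b), a, t * a; c, t * c, -d, t * d; d, -(t * d), c, t * c]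

theorem KK_det (a b c d t : ℝ) : (KK a b c d t).det = -4 * t ^ 2 * (a * d - b * c) ^ 2 := by
  unfold KK
  simp [Matrix.det_succ_row_zero, Fin.sum_univ_succ, Fin.succAbove]
  ring

/-- the eight dimensional matrix -/
def LL (a b c d t r : ℝ) : Matrix (Fin 4 ⊕ Fin 4) (Fin 4 ⊕ Fin 4) ℝ :=
  fromBlocks (KK a b c d t) (r • KK a b c d t) 1 (-(r • 1))

theorem LL_det (a b c d t r : ℝ) :
    (LL a b c d t r).det = 16 * r ^ 4 * (-4 * t ^ 2 * (a * d - b * c) ^ 2) := by
  have h1 : LL a b c d t r = fromBlocks (KK a b c d t) 0 0 1 *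
      fromBlocks 1 (r • 1) 1 (-(r • 1)) := by
    rw [fromBlocks_multiply]
    simp [LL]
  have h2 : (-(r • 1) - 1 * (r • 1) : Matrix (Fin 4) (Fin 4) ℝ) = (-(2 * r)) • 1 := by
    rw [one_mul, neg_smul, mul_smul, two_smul]
    abel
  rw [h1, det_mul, det_fromBlocks_zero₂₁, det_one, mul_one, KK_det, det_fromBlocks_one₁₁, h2,
    det_smul, det_one, Fintype.card_fin]
  ring

theorem taskMink : TaskMink := by
  refine ⟨3, fun g => ?_⟩
  set r : ℝ := √2 with hr
  have hr2 : r * r = 2 := sqrt2_sq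
  have ht2 : th * th = r := th_sq
  have hr0 : 0 < r := by rw [hr]; positivity
  have hgdet : g.1 0 0 * g.1 1 1 - g.1 0 1 * g.1 1 0 = 1 := by
    have := g.2
    rwa [Matrix.det_fin_two] at this
  set M := LL (g.1 0 0) (g.1 0 1) (g.1 1 0) (g.1 1 1) th r with hM
  have hdet : M.det = -(256 * r) := by
    rw [hM, LL_det, hgdet]
    have h4 : r ^ 4 = 4 := by
      rw [show r ^ 4 = (r * r) * (r * r) by ring, hr2]; norm_num
    have h5 : th ^ 2 = r := by rw [pow_two, ht2]
    rw [h4, h5]; ring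
  have hdet0 : M.det ≠ 0 := by
    rw [hdet]
    simp [hr0.ne']
  have hdet0' : LinearMap.det (toLin' M) ≠ 0 := by rwa [LinearMap.det_toLin']
  set s : Set ((Fin 4 ⊕ Fin 4) → ℝ) := (toLin' M) ⁻¹' Metric.closedBall 0 3 with hs
  have hvs : volume s = ENNReal.ofReal |M.det⁻¹| * ENNReal.ofReal (6 ^ 8) := by
    rw [hs, Measure.addHaar_preimage_linearMap volume hdet0', LinearMap.det_toLin',
      Real.volume_pi_closedBall _ (by norm_num)]
    norm_num
  have hF : volume (ZSpan.fundamentalDomain (Pi.basisFun ℝ (Fin 4 ⊕ Fin 4))) = 1 := by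
    rw [ZSpan.fundamentalDomain_pi_basisFun, volume_pi, Measure.pi_pi]
    simp
  have hlt : volume (ZSpan.fundamentalDomain (Pi.basisFun ℝ (Fin 4 ⊕ Fin 4))) *
      2 ^ Module.finrank ℝ ((Fin 4 ⊕ Fin 4) → ℝ) < volume s := by
    rw [hF, hvs, one_mul, Module.finrank_fintype_fun_eq_card, Fintype.card_sum, Fintype.card_fin,
      ← ENNReal.ofReal_mul (abs_nonneg _), hdet, abs_inv, abs_neg, abs_of_pos (by positivity)]
    have : (2 : ENNReal) ^ (4 + 4) = ENNReal.ofReal (2 ^ 8) := by
      rw [ENNReal.ofReal_pow (by norm_num)]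
      norm_num
    rw [this]
    refine (ENNReal.ofReal_lt_ofReal_iff (by positivity)).2 ?_
    rw [inv_mul_eq_div, lt_div_iff₀ (by positivity)]
    have : r ≤ 2 := by nlinarith
    nlinarith
  have hsymm : ∀ x ∈ s, -x ∈ s := by
    intro x hx
    rw [hs, Set.mem_preimage, mem_closedBall_zero_iff] at hx ⊢
    rwa [map_neg, norm_neg]
  have hconv : Convex ℝ s := (convex_closedBall 0 3).linear_preimage _
  have : Countable (Submodule.span ℤ (Set.range (Pi.basisFun ℝ (Fin 4 ⊕ Fin 4)))).toAddSubgroup :=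
    inferInstanceAs (Countable (Submodule.span ℤ (Set.range (Pi.basisFun ℝ (Fin 4 ⊕ Fin 4)))))
  obtain ⟨⟨v, hvL⟩, hv0, hvs'⟩ := exists_ne_zero_mem_lattice_of_measure_mul_two_pow_lt_measure
    (ZSpan.isAddFundamentalDomain' (Pi.basisFun ℝ (Fin 4 ⊕ Fin 4)) volume) hsymm hconv hlt
  have hv0' : v ≠ 0 := fun h => hv0 (Subtype.ext h)
  have hint : ∀ i, ∃ n : ℤ, (n : ℝ) = v i := by
    intro i
    have h := (Module.Basis.mem_span_iff_repr_mem ℤ (Pi.basisFun ℝ (Fin 4 ⊕ Fin 4)) v).1 hvL i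
    rw [Pi.basisFun_repr] at h
    obtain ⟨n, hn⟩ := h
    exact ⟨n, by simpa using hn⟩
  choose n hn using hint
  change toLin' M v ∈ Metric.closedBall 0 3 at hvs'
  rw [mem_closedBall_zero_iff, pi_norm_le_iff_of_nonneg (by norm_num)] at hvs'
  have he1 : ∀ i, e1 (⟨n (Sum.inl i), n (Sum.inr i)⟩ : ℤ√2) = v (Sum.inl i) + v (Sum.inr i) * r := by
    intro i
    rw [e1, hn, hn]
  have he2 : ∀ i, e2 (⟨n (Sum.inl i), n (Sum.inr i)⟩ : ℤ√2) = v (Sum.inl i) - v (Sum.inr i) * r := by
    intro i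
    rw [e2, hn, hn]
  refine ⟨fun i => ⟨n (Sum.inl i), n (Sum.inr i)⟩, ?_, ?_, ?_⟩
  · intro h
    apply hv0'
    funext i
    rw [← hn i]
    rcases i with i | i
    · have := congrArg Zsqrtd.re (congrFun h i)
      simp only [Pi.zero_apply, Zsqrtd.re_zero] at this
      simp [this]
    · have := congrArg Zsqrtd.im (congrFun h i)
      simp only [Pi.zero_apply, Zsqrtd.im_zero] at this
      simp [this]
  · intro i j
    have h0 := hvs' (Sum.inl 0)
    have h1 := hvs' (Sum.inl 1)
    have h2 := hvs' (Sum.inl 2)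
    have h3 := hvs' (Sum.inl 3)
    simp only [toLin'_apply, mulVec, dotProduct, Fintype.sum_sum_type, hM, LL, fromBlocks_apply₁₁,
      fromBlocks_apply₁₂, Matrix.smul_apply, smul_eq_mul, Fin.sum_univ_four, KK, of_apply, cons_val',
      cons_val_zero, cons_val_one, cons_val, cons_val_fin_one, Real.norm_eq_abs] at h0 h1 h2 h3
    fin_cases i <;> fin_cases j <;>
      simp only [Fin.zero_eta, Fin.mk_one, mul_apply, Fin.sum_univ_two, MM, he1, of_apply,
        cons_val', cons_val_zero, cons_val_one, cons_val_fin_one]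
    · refine le_trans (le_of_eq ?_) h0
      congr 1; ring
    · refine le_trans (le_of_eq ?_) h1
      congr 1; ring
    · refine le_trans (le_of_eq ?_) h2
      congr 1; ring
    · refine le_trans (le_of_eq ?_) h3
      congr 1; ring
  · intro i
    have h0 := hvs' (Sum.inr i)
    simp only [he2]
    refine le_trans (le_of_eq ?_) h0
    rw [Real.norm_eq_abs, toLin'_apply]
    congr 1
    simp only [mulVec, dotProduct, Fintype.sum_sum_type, hM, LL, fromBlocks_apply₂₁,
      fromBlocks_apply₂₂, Matrix.neg_apply, Matrix.smul_apply, smul_eq_mul, Matrix.one_apply]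
    simp
    ring

end Pool.Agent.H934R4.AN.TaskMinkN
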