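import Pool.Agent.H934R4.AN.Stmts

/-! Task NC of project ANOSOV (helper82) -/

set_option autoImplicit false

open Filter Topology Set
open scoped MatrixGroups Kronecker

namespace Pool.Agent.H934R4.AN.TaskNCN

/-- the quaternion of `s` -/
def xs : Q4 := ![⟨-4481, -3168⟩, ⟨-3768, -2664⟩, 0, 0]

/-- the quaternion of `t` -/
def xt : Q4 := ![⟨-4481, -3168⟩, 0, 0, ⟨-3768, -2664⟩]

lemma qn_xs : qn xs = 1 := by decide +kernel

lemma qn_xt : qn xt = 1 := by decide +kernel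

lemma cong_xs : Cong xs := by
  refine ⟨⟨⟨-1494, -1056⟩, ?_⟩, ⟨⟨-1256, -888⟩, ?_⟩, ⟨0, ?_⟩, ⟨0, ?_⟩⟩ <;> decide +kernel

lemma cong_xt : Cong xt := by
  refine ⟨⟨⟨-1494, -1056⟩, ?_⟩, ⟨0, ?_⟩, ⟨0, ?_⟩, ⟨⟨-1256, -888⟩, ?_⟩⟩ <;> decide +kernel

/-- an element of the group from its quaternion -/
noncomputable def el (x : Q4) (h : Cong x) (hn : qn x = 1) : Gam :=
  ⟨⟨MM x, by rw [MM_det, hn, e1_one]⟩, ⟨x, h, rfl⟩⟩

theorem taskNC : TaskNC := by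
  refine ⟨el xs cong_xs qn_xs, el xt cong_xt qn_xt, fun h => ?_⟩
  have h1 : MM xs * MM xt = MM xt * MM xs := congrArg (fun γ : Gam => (γ : SL(2, ℝ)).1) h
  rw [← MM_mul, ← MM_mul] at h1
  have h2 := congrFun (MM_inj h1) 2
  revert h2
  decide +kernel

end Pool.Agent.H934R4.AN.TaskNCN
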