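import Pool.Agent.H934R4.AN.Stmts

set_option autoImplicit false

noncomputable section

open Filter Topology Set
open scoped MatrixGroups

namespace Pool.Agent.H934R4.AN.TaskNormN

open Pool.Agent.H934R4.AN

/-- the reflection -/
def JJ : Matrix (Fin 2) (Fin 2) ℝ := !![1, 0; 0, -1]

theorem JJ_sq : JJ * JJ = 1 := by
  ext i j
  fin_cases i <;> fin_cases j <;> simp [JJ, Matrix.mul_apply, Fin.sum_univ_two]

theorem JJ_det : JJ.det = -1 := by
  simp [JJ, Matrix.det_fin_two]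

/-- conjugation by the reflection -/
def cj (g : SL(2, ℝ)) : SL(2, ℝ) := ⟨JJ * g.1 * JJ, by
  rw [Matrix.det_mul, Matrix.det_mul, JJ_det, g.2]; norm_num⟩

theorem eq_conj (a g x : SL(2, ℝ)) (h : a.1 * g.1 = g.1 * x.1) : a = g * x * g⁻¹ := by
  rw [eq_mul_inv_iff_mul_eq]
  apply Subtype.ext
  exact h

theorem norm_cases (φ : MulAut Gam) (h : Matrix (Fin 2) (Fin 2) ℝ) (hd : h.det ≠ 0)
    (hφ : ∀ γ : Gam, h * (γ : SL(2, ℝ)).1 = ((φ γ : Gam) : SL(2, ℝ)).1 * h) :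
    ∃ g : SL(2, ℝ), (∀ γ : Gam, ((φ γ : Gam) : SL(2, ℝ)) = g * (γ : SL(2, ℝ)) * g⁻¹) ∨
      (∀ γ : Gam, ((φ γ : Gam) : SL(2, ℝ)) = g * cj (γ : SL(2, ℝ)) * g⁻¹) := by
  rcases lt_or_gt_of_ne hd with hneg | hpos
  · have hp : 0 < -h.det := by linarith
    have hdet : ((√(-h.det))⁻¹ • (h * JJ)).det = 1 := by
      have h2 : ((√(-h.det))⁻¹) ^ 2 = (-h.det)⁻¹ := by rw [inv_pow, Real.sq_sqrt hp.le]
      rw [Matrix.det_smul, Matrix.det_mul, JJ_det, Fintype.card_fin, h2,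
        show h.det * -1 = -h.det by ring]
      exact inv_mul_cancel₀ hp.ne'
    refine ⟨⟨_, hdet⟩, Or.inr fun γ => eq_conj _ _ _ ?_⟩
    show ((φ γ : Gam) : SL(2, ℝ)).1 * ((√(-h.det))⁻¹ • (h * JJ)) =
        ((√(-h.det))⁻¹ • (h * JJ)) * (JJ * (γ : SL(2, ℝ)).1 * JJ)
    rw [Matrix.mul_smul, Matrix.smul_mul, ← Matrix.mul_assoc, ← hφ γ]
    congr 1
    calc h * (γ : SL(2, ℝ)).1 * JJ = h * 1 * (γ : SL(2, ℝ)).1 * JJ := by rw [Matrix.mul_one]
      _ = h * (JJ * JJ) * (γ : SL(2, ℝ)).1 * JJ := by rw [JJ_sq]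
      _ = _ := by simp only [Matrix.mul_assoc]
  · have hdet : ((√(h.det))⁻¹ • h).det = 1 := by
      have h2 : ((√(h.det))⁻¹) ^ 2 = (h.det)⁻¹ := by rw [inv_pow, Real.sq_sqrt hpos.le]
      rw [Matrix.det_smul, Fintype.card_fin, h2]
      exact inv_mul_cancel₀ hpos.ne'
    refine ⟨⟨_, hdet⟩, Or.inl fun γ => eq_conj _ _ _ ?_⟩
    show ((φ γ : Gam) : SL(2, ℝ)).1 * ((√(h.det))⁻¹ • h) = ((√(h.det))⁻¹ • h) * (γ : SL(2, ℝ)).1
    rw [Matrix.mul_smul, Matrix.smul_mul, hφ γ]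

/-- the possible values -/
def KK (D : Set SL(2, ℝ)) (s : SL(2, ℝ)) : Set SL(2, ℝ) :=
  ((fun k => k * s * k⁻¹) '' D) ∪ ((fun k => k * cj s * k⁻¹) '' D)

theorem KK_compact {D : Set SL(2, ℝ)} (hD : IsCompact D) (s : SL(2, ℝ)) : IsCompact (KK D s) := by
  refine IsCompact.union ?_ ?_
  · exact hD.image ((continuous_id.mul continuous_const).mul continuous_inv)
  · exact hD.image ((continuous_id.mul continuous_const).mul continuous_inv)

theorem taskNorm (h1 : TaskCoc) (h2 : TaskDisc) (h3 : TaskFG) : TaskNorm := by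
  obtain ⟨D, hD, hcov⟩ := h1
  obtain ⟨S, hS⟩ := h3
  set T : Set (MulAut Gam) := {ψ | ∀ s ∈ S, ((ψ s : Gam) : SL(2, ℝ)) ∈ KK D (s : SL(2, ℝ))} with hT
  have hTfin : T.Finite := by
    have hfs : ∀ s : S, {a : Gam | (a : SL(2, ℝ)) ∈ KK D ((s : Gam) : SL(2, ℝ))}.Finite := by
      intro s
      have h := h2 _ (KK_compact hD ((s : Gam) : SL(2, ℝ)))
      refine Set.Finite.of_finite_image (f := fun a : Gam => (a : SL(2, ℝ))) (h.subset ?_)
        Subtype.val_injective.injOn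
      rintro _ ⟨a, ha, rfl⟩
      exact ⟨a.2, ha⟩
    have hpi := Set.Finite.pi' hfs
    refine Set.Finite.of_finite_image (f := fun ψ : MulAut Gam => fun s : S => ψ (s : Gam))
      (hpi.subset ?_) ?_
    · rintro _ ⟨ψ, hψ, rfl⟩ s
      exact hψ s s.2
    · intro ψ _ ψ' _ he
      have hhom : (ψ.toMonoidHom : Gam →* Gam) = ψ'.toMonoidHom := by
        refine MonoidHom.eq_of_eqOn_dense hS ?_
        intro s hs
        exact congrFun he ⟨s, hs⟩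
      ext γ : 1
      exact DFunLike.congr_fun hhom γ
  refine (hTfin.image fun ψ => (QuotientGroup.mk ψ : Mod Gam)).subset ?_
  rintro x ⟨φ, ⟨h, hd, hφ⟩, rfl⟩
  obtain ⟨g, hg⟩ := norm_cases φ h hd hφ
  obtain ⟨γ, hγ, hγD⟩ := hcov g
  set c : Gam := ⟨γ, hγ⟩ with hc
  refine ⟨MulAut.conj c * φ, ?_, ?_⟩
  · intro s _
    have hval : (((MulAut.conj c * φ) s : Gam) : SL(2, ℝ)) = γ * ((φ s : Gam) : SL(2, ℝ)) * γ⁻¹ := rfl
    rw [hval]
    rcases hg with hg | hg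
    · left
      refine ⟨γ * g, hγD, ?_⟩
      simp only [hg s]
      group
    · right
      refine ⟨γ * g, hγD, ?_⟩
      simp only [hg s]
      group
  · rw [QuotientGroup.eq]
    refine ⟨φ⁻¹ c⁻¹, ?_⟩
    ext x : 1
    show (MulAut.conj (φ⁻¹ c⁻¹)) x = ((MulAut.conj c * φ)⁻¹) (φ x)
    have h5 : ((MulAut.conj c * φ)⁻¹) (φ x) = φ⁻¹ ((MulAut.conj c)⁻¹ (φ x)) := by
      rw [mul_inv_rev]; rfl
    rw [h5, MulAut.conj_inv_apply, map_mul, map_mul, MulAut.inv_apply_self, MulAut.conj_apply,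
      map_inv, inv_inv]

end Pool.Agent.H934R4.AN.TaskNormN
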