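import Pool.Agent.H934R4.AN.Stmts

/-!
# ANOSOV, TaskNot (helper18)
-/

set_option autoImplicit false

noncomputable section

open Filter Topology Set
open scoped MatrixGroups Kronecker

namespace Pool.Agent.H934R4.AN
namespace TaskNotN

/-! ### invariance of the Birman-Series set -/

theorem simple_left {Γ : Subgroup SL(2, ℝ)} {g : SL(2, ℝ)} (hg : IsSimpleClosed Γ g)
    {γ : SL(2, ℝ)} (hγ : γ ∈ Γ) : IsSimpleClosed Γ (γ * g) := by
  obtain ⟨⟨T, hT, γ', hγ', h⟩, h2⟩ := hg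
  refine ⟨⟨T, hT, γ * γ' * γ⁻¹, Γ.mul_mem (Γ.mul_mem hγ hγ') (Γ.inv_mem hγ), ?_⟩, ?_⟩
  · have e0 : γ * γ' * γ⁻¹ * (γ * g) = γ * (γ' * g) := by group
    rcases h with h | h
    · left
      rw [e0, h]
      group
    · right
      rw [e0, h, mul_neg, mul_assoc]
  · intro k hk s t hst
    have e1 : γ⁻¹ * k * γ * g * fl s = γ⁻¹ * (k * (γ * g) * fl s) := by group
    have e2 : g * fl t = γ⁻¹ * (γ * g * fl t) := by group
    have e3 : (γ⁻¹ * k * γ * g * fl s) • UpperHalfPlane.I = (g * fl t) • UpperHalfPlane.I := by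
      rw [e1, e2, mul_smul γ⁻¹, mul_smul γ⁻¹ (γ * g * fl t), hst]
    rcases h2 _ (Γ.mul_mem (Γ.mul_mem (Γ.inv_mem hγ) hk) hγ) s t e3 with h | h
    · left
      rw [e1, e2] at h
      exact mul_left_cancel h
    · right
      rw [e1, e2, ← mul_neg] at h
      exact mul_left_cancel h

theorem BS_left {Γ : Subgroup SL(2, ℝ)} {g : SL(2, ℝ)} (hg : g ∈ BS Γ)
    {γ : SL(2, ℝ)} (hγ : γ ∈ Γ) : γ * g ∈ BS Γ := by
  have hc : Continuous fun x : SL(2, ℝ) => γ * x := continuous_const.mul continuous_id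
  have hm : Set.MapsTo (fun x : SL(2, ℝ) => γ * x) {g | IsSimpleClosed Γ g}
      {g | IsSimpleClosed Γ g} := fun x hx => simple_left hx hγ
  exact (hm.closure hc) hg

/-! ### the representation as a matrix valued function -/

theorem mat_mul {Γ : Subgroup SL(2, ℝ)} {ι : Type} [Fintype ι] [DecidableEq ι] (ρ : Rep Γ ι)
    (γ δ : Γ) : mat ρ (γ * δ) = mat ρ γ * mat ρ δ := by
  unfold mat
  rw [map_mul]
  rfl

theorem mat_one {Γ : Subgroup SL(2, ℝ)} {ι : Type} [Fintype ι] [DecidableEq ι] (ρ : Rep Γ ι) :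
    mat ρ 1 = 1 := by
  unfold mat
  rw [map_one]
  rfl

theorem mat_pow {Γ : Subgroup SL(2, ℝ)} {ι : Type} [Fintype ι] [DecidableEq ι] (ρ : Rep Γ ι)
    (γ : Γ) (m : ℕ) : mat ρ (γ ^ m) = mat ρ γ ^ m := by
  induction m with
  | zero => rw [pow_zero, pow_zero, mat_one]
  | succ m ih => rw [pow_succ, pow_succ, mat_mul, ih]

theorem mat_inv_mul {Γ : Subgroup SL(2, ℝ)} {ι : Type} [Fintype ι] [DecidableEq ι] (ρ : Rep Γ ι)
    (γ : Γ) : mat ρ γ⁻¹ * mat ρ γ = 1 := by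
  rw [← mat_mul, inv_mul_cancel, mat_one]

/-! ### the element `γ₀` -/

/-- the quaternion -/
def q0 : Q4 := ![⟨-4481, -3168⟩, ⟨-3768, -2664⟩, 0, 0]

theorem q0_norm : qn q0 = 1 := by decide

theorem q0_cong : Cong q0 := by
  refine ⟨⟨⟨-1494, -1056⟩, by decide⟩, ⟨⟨-1256, -888⟩, by decide⟩, ⟨0, by decide⟩, ⟨0, by decide⟩⟩

def g0 : SL(2, ℝ) := ⟨MM q0, by rw [MM_det, q0_norm, e1_one]⟩

def γ0 : Gam := ⟨g0, q0, q0_cong, rfl⟩

theorem crd_γ0 : crd γ0 = q0 := by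
  apply MM_inj
  rw [← crd_MM]
  rfl

/-- the two eigenvalues at the first place -/
def al : ℝ := -4481 - 3168 * √2 - th * (3768 + 2664 * √2)
def be : ℝ := -4481 - 3168 * √2 + th * (3768 + 2664 * √2)

theorem al_be : al * be = 1 := by
  have h := th_sq
  have h2 := sqrt2_sq
  unfold al be
  linear_combination (-(3768 + 2664 * √2) ^ 2) * h + (3168 ^ 2 - 2 * 3768 * 2664 - 2664 ^ 2 * √2) * h2

theorem al_lt : al < -1 := by
  have h1 : 0 ≤ √(2 : ℝ) := Real.sqrt_nonneg _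
  have h2 := th_pos
  unfold al
  nlinarith [mul_nonneg h2.le h1]

theorem MM_q0 : MM q0 = Matrix.diagonal ![al, be] := by
  ext i j
  fin_cases i <;> fin_cases j <;> simp [MM, q0, e1, al, be] <;> ring

/-- the eigenvalue at the second place -/
def zz : ℂ := ((-4481 + 3168 * √2 : ℝ) : ℂ) + ((th * (-3768 + 2664 * √2) : ℝ) : ℂ) * Complex.I
def zc : ℂ := ((-4481 + 3168 * √2 : ℝ) : ℂ) - ((th * (-3768 + 2664 * √2) : ℝ) : ℂ) * Complex.I

theorem TT_q0 : TT q0 = Matrix.diagonal ![zz, zc] := by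
  ext i j
  fin_cases i <;> fin_cases j <;> simp [TT, q0, e2, zz, zc] <;> ring

theorem zz_zc : zz * zc = 1 := by
  have h := th_sq
  have h2 := sqrt2_sq
  have e : zz * zc = (((-4481 + 3168 * √2) ^ 2 + (th * (-3768 + 2664 * √2)) ^ 2 : ℝ) : ℂ) := by
    unfold zz zc
    push_cast
    linear_combination (-((th : ℂ) * (-3768 + 2664 * (√2 : ℝ))) ^ 2) * Complex.I_mul_I
  rw [e]
  have : ((-4481 + 3168 * √2) ^ 2 + (th * (-3768 + 2664 * √2)) ^ 2 : ℝ) = 1 := by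
    linear_combination ((-3768 + 2664 * √2) ^ 2) * h +
      (3168 ^ 2 - 2 * 3768 * 2664 + 2664 ^ 2 * √2) * h2
  rw [this]
  simp

theorem zc_conj : zc = (starRingEnd ℂ) zz := by
  unfold zz zc
  simp only [map_add, map_mul, Complex.conj_ofReal, Complex.conj_I]
  ring

theorem norm_zz : ‖zz‖ = 1 ∧ ‖zc‖ = 1 := by
  have h1 : ‖zz‖ = ‖zc‖ := by rw [zc_conj]; simp
  have h2 : ‖zz‖ * ‖zc‖ = 1 := by rw [← norm_mul, zz_zc]; simp
  rw [← h1] at h2
  have h3 : ‖zz‖ = 1 := by nlinarith [norm_nonneg zz]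
  exact ⟨h3, h1 ▸ h3⟩

theorem zz_ne : zz ≠ zc := by
  intro h
  have h1 : (((th * (-3768 + 2664 * √2) : ℝ) : ℂ)) * Complex.I = 0 := by
    unfold zz zc at h
    linear_combination h / 2
  rw [mul_eq_zero] at h1
  rcases h1 with h1 | h1
  · have h2 : th * (-3768 + 2664 * √2) = 0 := by exact_mod_cast h1
    rw [mul_eq_zero] at h2
    rcases h2 with h2 | h2
    · exact th_pos.ne' h2
    · have h3 : √(2 : ℝ) = 3768 / 2664 := by linarith
      have h4 := sqrt2_sq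
      rw [h3] at h4
      norm_num at h4
  · exact Complex.I_ne_zero h1

/-- the length of the closed geodesic -/
def T0 : ℝ := 2 * Real.log (-al)

theorem T0_pos : 0 < T0 := by
  have h := al_lt
  have : 0 < Real.log (-al) := Real.log_pos (by linarith)
  unfold T0
  linarith

theorem fl_T0 : fl T0 = -g0 := by
  have h := al_lt
  have hb : be = al⁻¹ := eq_inv_of_mul_eq_one_right al_be
  apply Subtype.ext
  rw [Matrix.SpecialLinearGroup.coe_neg]
  show (!![Real.exp (T0 / 2), 0; 0, Real.exp (-(T0 / 2))] : Matrix (Fin 2) (Fin 2) ℝ) = -(MM q0)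
  have e1 : T0 / 2 = Real.log (-al) := by unfold T0; ring
  rw [e1, Real.exp_neg, Real.exp_log (by linarith), MM_q0, hb]
  ext i j
  fin_cases i <;> fin_cases j <;> simp

theorem fl_add (s t : ℝ) : fl (s + t) = fl s * fl t := by
  apply Subtype.ext
  rw [Matrix.SpecialLinearGroup.coe_mul]
  show (!![Real.exp ((s + t) / 2), 0; 0, Real.exp (-((s + t) / 2))] : Matrix (Fin 2) (Fin 2) ℝ) =
    !![Real.exp (s / 2), 0; 0, Real.exp (-(s / 2))] *
      !![Real.exp (t / 2), 0; 0, Real.exp (-(t / 2))]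
  ext i j
  fin_cases i <;> fin_cases j <;> simp [← Real.exp_add] <;> ring_nf

theorem fl_zero : fl 0 = 1 := by
  apply Subtype.ext
  show (!![Real.exp (0 / 2), 0; 0, Real.exp (-(0 / 2))] : Matrix (Fin 2) (Fin 2) ℝ) = 1
  ext i j
  fin_cases i <;> fin_cases j <;> simp

theorem fl_mT (m : ℕ) : fl (m * T0) = ((γ0 ^ m : Gam) : SL(2, ℝ)) ∨
    fl (m * T0) = -((γ0 ^ m : Gam) : SL(2, ℝ)) := by
  induction m with
  | zero => left; simp [fl_zero]
  | succ m ih =>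
    have e : fl ((m + 1 : ℕ) * T0) = fl (m * T0) * -((γ0 : Gam) : SL(2, ℝ)) := by
      have : ((m + 1 : ℕ) : ℝ) * T0 = m * T0 + T0 := by push_cast; ring
      rw [this, fl_add, fl_T0]
      rfl
    have e2 : ((γ0 ^ (m + 1) : Gam) : SL(2, ℝ)) = ((γ0 ^ m : Gam) : SL(2, ℝ)) * (γ0 : SL(2, ℝ)) := by
      rw [pow_succ]; rfl
    rcases ih with h | h
    · right
      rw [e, h, e2, mul_neg]
    · left
      rw [e, h, e2, mul_neg, neg_mul, neg_neg]

/-! ### linear algebra -/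

theorem range_line {P : Matrix I4 I4 ℂ} (hP : P * P = P) (hr : P.rank = 1) :
    ∃ v0 : I4 → ℂ, v0 ≠ 0 ∧ P.mulVec v0 = v0 ∧ ∀ u, P.mulVec u = u → ∃ a : ℂ, u = a • v0 := by
  unfold Matrix.rank at hr
  rw [finrank_eq_one_iff'] at hr
  obtain ⟨⟨v, y, hy⟩, hne, hall⟩ := hr
  rw [Matrix.mulVecLin_apply] at hy
  refine ⟨v, ?_, ?_, ?_⟩
  · intro h
    apply hne
    apply Subtype.ext
    exact h
  · rw [← hy, Matrix.mulVec_mulVec, hP]
  · intro u hu
    obtain ⟨a, ha⟩ := hall ⟨u, u, by rw [Matrix.mulVecLin_apply]; exact hu⟩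
    refine ⟨a, ?_⟩
    have := congrArg Subtype.val ha
    exact this.symm

theorem eig_of_root {A : Matrix I4 I4 ℂ} {ν : ℂ} (h : A.charpoly.IsRoot ν) :
    ∃ v : I4 → ℂ, v ≠ 0 ∧ A.mulVec v = ν • v := by
  rw [Polynomial.IsRoot, Matrix.eval_charpoly] at h
  obtain ⟨v, hv, h2⟩ := Matrix.exists_mulVec_eq_zero_iff.2 h
  refine ⟨v, hv, ?_⟩
  rw [Matrix.sub_mulVec, sub_eq_zero] at h2
  rw [← h2]
  ext i
  simp [Matrix.scalar_apply, Matrix.mulVec_diagonal]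

theorem root_of_eig {A : Matrix I4 I4 ℂ} {ν : ℂ} {v : I4 → ℂ} (hv : v ≠ 0)
    (h : A.mulVec v = ν • v) : A.charpoly.IsRoot ν := by
  rw [Polynomial.IsRoot, Matrix.eval_charpoly]
  apply Matrix.exists_mulVec_eq_zero_iff.1
  refine ⟨v, hv, ?_⟩
  rw [Matrix.sub_mulVec, h, sub_eq_zero]
  ext i
  simp [Matrix.scalar_apply, Matrix.mulVec_diagonal]

/-- the diagonal entries of `ρ₁(γ₀)` -/
def dd (p : I4) : ℂ := ((![al, be] p.1 : ℝ) : ℂ) * (![zz, zc] p.2 : ℂ)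

theorem mat_rho1_γ0 : mat rho1 γ0 = Matrix.diagonal dd := by
  rw [mat_rho1, crd_γ0, TT_q0]
  have h : cM (γ0 : SL(2, ℝ)) = Matrix.diagonal (fun i => ((![al, be] i : ℝ) : ℂ)) := by
    unfold cM
    have : (γ0 : SL(2, ℝ)).1 = Matrix.diagonal ![al, be] := MM_q0
    rw [this, Matrix.diagonal_map (by simp)]
  rw [h, Matrix.diagonal_kronecker_diagonal]
  rfl

theorem root_iff (μ : ℂ) : (mat rho1 γ0).charpoly.IsRoot μ ↔ ∃ p, μ = dd p := by
  rw [mat_rho1_γ0, Matrix.charpoly_diagonal, Polynomial.IsRoot, Polynomial.eval_prod,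
    Finset.prod_eq_zero_iff]
  simp [sub_eq_zero]

theorem norm_dd (p : I4) : |be| ≤ ‖dd p‖ := by
  have hab : |be| ≤ |al| := by
    have h := al_lt
    have h1 : |al| * |be| = 1 := by rw [← abs_mul, al_be, abs_one]
    have h2 : 1 < |al| := by rw [abs_of_neg (by linarith)]; linarith
    have h3 := abs_nonneg be
    nlinarith
  obtain ⟨i, j⟩ := p
  have hj : ‖(![zz, zc] j : ℂ)‖ = 1 := by
    fin_cases j
    · exact norm_zz.1
    · exact norm_zz.2
  unfold dd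
  rw [norm_mul, hj, mul_one, Complex.norm_real, Real.norm_eq_abs]
  fin_cases i
  · exact hab
  · exact le_rfl

theorem be_ne : be ≠ 0 := right_ne_zero_of_mul (by rw [al_be]; exact one_ne_zero)

theorem taskNot : TaskNot := by
  intro h1 ρ hch hA
  obtain ⟨N, P, C, c, hC, hc, -, hN0, hNs, -, hNneg, hNeq, -, hP, hPf, hPeq, hdom⟩ := hA
  have hpow : ∀ m : ℕ, ((γ0 ^ m : Gam) : SL(2, ℝ)) ∈ BS Gam := by
    intro m
    have := BS_left h1 (γ0 ^ m : Gam).2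
    rwa [mul_one] at this
  have hNfl : ∀ (m : ℕ) (v : I4 → ℂ), N (1 * fl (m * T0)) v =
      N ((γ0 ^ m : Gam) : SL(2, ℝ)) v := by
    intro m v
    rw [one_mul]
    rcases fl_mT m with h | h
    · rw [h]
    · rw [h, hNneg _ (hpow m)]
  have hNT : ∀ (m : ℕ) (v : I4 → ℂ),
      N ((γ0 ^ m : Gam) : SL(2, ℝ)) ((mat ρ (γ0 ^ m)).mulVec v) = N 1 v := by
    intro m v
    have e := hNeq 1 h1 (γ0 ^ m) v
    rwa [mul_one] at e
  have hcomm : P 1 * mat ρ γ0 = mat ρ γ0 * P 1 := by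
    have e := hPeq 1 h1 γ0
    rw [mul_one] at e
    have e2 : P ((γ0 : Gam) : SL(2, ℝ)) = P 1 := by
      have e3 := (hPf _ (hpow 1)).1
      have e4 := (hPf 1 h1).2 T0
      rw [one_mul, fl_T0] at e4
      rw [pow_one] at e3
      rw [← e3]
      exact e4
    rw [e2] at e
    exact e
  have hpowv : ∀ (μ : ℂ) (v : I4 → ℂ), (mat ρ γ0).mulVec v = μ • v → ∀ m : ℕ,
      (mat ρ (γ0 ^ m)).mulVec v = μ ^ m • v := by
    intro μ v hv m
    induction m with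
    | zero => rw [pow_zero, mat_one, Matrix.one_mulVec, pow_zero, one_smul]
    | succ m ih =>
      rw [pow_succ', mat_mul, ← Matrix.mulVec_mulVec, ih, Matrix.mulVec_smul, hv, smul_smul,
        ← pow_succ]
  have hgrow : ∀ (μ : ℂ) (v : I4 → ℂ), μ ≠ 0 → (mat ρ γ0).mulVec v = μ • v → ∀ m : ℕ,
      N (1 * fl (m * T0)) v = N 1 v / ‖μ‖ ^ m := by
    intro μ v hμ hv m
    have e := hNT m v
    rw [hpowv μ v hv m, hNs _ (hpow m), norm_pow] at e
    rw [hNfl, ← e]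
    have : ‖μ‖ ^ m ≠ 0 := pow_ne_zero _ (norm_ne_zero_iff.2 hμ)
    field_simp
  have hpos : ∀ v : I4 → ℂ, v ≠ 0 → 0 < N 1 v := by
    intro v hv
    obtain ⟨a, b⟩ := hN0 1 h1 v
    exact lt_of_le_of_ne a fun h => hv (b h.symm)
  -- the dominated splitting separates the moduli
  have hsep : ∀ (μ ν : ℂ) (v w : I4 → ℂ), μ ≠ 0 → ν ≠ 0 → v ≠ 0 → w ≠ 0 →
      (mat ρ γ0).mulVec v = μ • v → (mat ρ γ0).mulVec w = ν • w →
      (P 1).mulVec v = v → (P 1).mulVec w = 0 → ‖ν‖ ≤ ‖μ‖ → False := by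
    intro μ ν v w hμ hν hv hw hv2 hw2 hv3 hw3 hle
    have hT := T0_pos
    obtain ⟨m, hm⟩ := exists_nat_gt (C / (c * T0))
    have hcT : 0 < c * T0 := mul_pos hc hT
    rw [div_lt_iff₀ hcT] at hm
    have hd := hdom 1 h1 v w hv3 hv hw3 hw (m * T0) (by positivity)
    rw [hgrow μ v hμ hv2 m, hgrow ν w hν hw2 m] at hd
    have p1 := hpos v hv
    have p2 := hpos w hw
    have p3 : 0 < ‖μ‖ ^ m := pow_pos (norm_pos_iff.2 hμ) m
    have p4 : 0 < ‖ν‖ ^ m := pow_pos (norm_pos_iff.2 hν) m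
    have q1 : N 1 w / ‖ν‖ ^ m / N 1 w = 1 / ‖ν‖ ^ m := by field_simp
    have q2 : N 1 v / ‖μ‖ ^ m / N 1 v = 1 / ‖μ‖ ^ m := by field_simp
    rw [q1, q2] at hd
    have q3 : 1 / ‖μ‖ ^ m ≤ 1 / ‖ν‖ ^ m :=
      one_div_le_one_div_of_le p4 (pow_le_pow_left₀ (norm_nonneg _) hle m)
    have q4 : 1 ≤ C * Real.exp (-(c * (m * T0))) := by
      have q5 : (1 : ℝ) * (1 / ‖μ‖ ^ m) ≤ C * Real.exp (-(c * (m * T0))) * (1 / ‖μ‖ ^ m) := by
        rw [one_mul]; exact q3.trans hd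
      exact le_of_mul_le_mul_right q5 (by positivity)
    rw [Real.exp_neg] at q4
    have q6 : Real.exp (c * (m * T0)) ≤ C := by
      have := Real.exp_pos (c * (m * T0))
      calc Real.exp (c * (m * T0)) = 1 * Real.exp (c * (m * T0)) := (one_mul _).symm
        _ ≤ C * (Real.exp (c * (m * T0)))⁻¹ * Real.exp (c * (m * T0)) := by gcongr
        _ = C := by field_simp
    have q7 := Real.add_one_le_exp (c * (m * T0))
    nlinarith
  obtain ⟨hPP, hPr⟩ := hP 1 h1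
  obtain ⟨v0, hv0, hPv0, hline⟩ := range_line hPP hPr
  -- vectors in the range of `P 1`
  obtain ⟨μ, hμ⟩ : ∃ μ : ℂ, (mat ρ γ0).mulVec v0 = μ • v0 := by
    apply hline
    rw [Matrix.mulVec_mulVec, hcomm, ← Matrix.mulVec_mulVec, hPv0]
  have hroot : ∀ ν : ℂ, (mat ρ γ0).charpoly.IsRoot ν ↔ ∃ p, ν = dd p := by
    intro ν
    rw [hch γ0]
    exact root_iff ν
  obtain ⟨p, hp⟩ := (hroot μ).1 (root_of_eig hv0 hμ)
  have hbe : 0 < |be| := abs_pos.2 be_ne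
  have hμn : |be| ≤ ‖μ‖ := by rw [hp]; exact norm_dd p
  have hμ0 : μ ≠ 0 := norm_pos_iff.1 (hbe.trans_le hμn)
  have hν : ∀ j : Fin 2, ‖dd (1, j)‖ = |be| ∧ dd (1, j) = μ := by
    intro j
    have hn : ‖dd (1, j)‖ = |be| := by
      have hj : ‖(![zz, zc] j : ℂ)‖ = 1 := by
        fin_cases j
        · exact norm_zz.1
        · exact norm_zz.2
      unfold dd
      rw [norm_mul, hj, mul_one, Complex.norm_real, Real.norm_eq_abs]
      rfl
    refine ⟨hn, ?_⟩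
    obtain ⟨w, hw, hw2⟩ := eig_of_root ((hroot (dd (1, j))).2 ⟨_, rfl⟩)
    have hd0 : dd (1, j) ≠ 0 := norm_pos_iff.1 (by rw [hn]; exact hbe)
    by_cases hPw : (P 1).mulVec w = 0
    · exact (hsep μ (dd (1, j)) v0 w hμ0 hd0 hv0 hw hμ hw2 hPv0 hPw (by rw [hn]; exact hμn)).elim
    · obtain ⟨a, ha⟩ := hline ((P 1).mulVec w) (by rw [Matrix.mulVec_mulVec, hPP])
      have e1 : (mat ρ γ0).mulVec ((P 1).mulVec w) = dd (1, j) • (P 1).mulVec w := by
        rw [Matrix.mulVec_mulVec, ← hcomm, ← Matrix.mulVec_mulVec, hw2, Matrix.mulVec_smul]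
      have e2 : (mat ρ γ0).mulVec ((P 1).mulVec w) = μ • (P 1).mulVec w := by
        rw [ha, Matrix.mulVec_smul, hμ, smul_comm]
      rw [e1] at e2
      have e3 : (dd (1, j) - μ) • (P 1).mulVec w = 0 := by rw [sub_smul, e2, sub_self]
      rcases smul_eq_zero.1 e3 with h | h
      · exact sub_eq_zero.1 h
      · exact absurd h hPw
  have h01 : dd (1, 0) = dd (1, 1) := (hν 0).2.trans (hν 1).2.symm
  have hbc : ((be : ℝ) : ℂ) ≠ 0 := by exact_mod_cast be_ne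
  have h01' : ((be : ℝ) : ℂ) * zz = ((be : ℝ) : ℂ) * zc := h01
  exact zz_ne (mul_left_cancel₀ hbc h01')

end TaskNotN
end Pool.Agent.H934R4.AN
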