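import Pool.Agent.H934R4.AN.Stmts

/-!
# The representations whose image spans the matrix algebra form an open set
-/

set_option autoImplicit false

noncomputable section

open Filter Topology Set
open scoped MatrixGroups Kronecker

namespace Pool.Agent.H934R4.AN.TaskOpenIrrN

open Pool.Agent.H934R4.AN

/-- matrices as functions -/
abbrev FM : Type := I4 → I4 → ℂ

/-- the identity, as a linear equivalence -/
def toFM : Matrix I4 I4 ℂ ≃ₗ[ℂ] FM := LinearEquiv.refl ℂ _

theorem spanTop_iff (ρ : Rep Gam I4) : SpanTop ρ ↔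
    ∃ γ : Fin (Module.finrank ℂ FM) → Gam, LinearIndependent ℂ (fun i => toFM (mat ρ (γ i))) := by
  have hfr : Module.finrank ℂ (Matrix I4 I4 ℂ) = Module.finrank ℂ FM := rfl
  constructor
  · intro h
    have h0 : Module.finrank ℂ (Submodule.span ℂ (Set.range (mat ρ))) = Module.finrank ℂ FM := by
      rw [show Submodule.span ℂ (Set.range (mat ρ)) = ⊤ from h, finrank_top, hfr]
    obtain ⟨f, hf1, hf2, hf3⟩ := Submodule.exists_fun_fin_finrank_span_eq ℂ (Set.range (mat ρ))
    choose γ hγ using hf1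
    refine ⟨fun i => γ (finCongr h0.symm i), ?_⟩
    have h3 := (hf3.comp _ (finCongr h0.symm).injective).map' (toFM : Matrix I4 I4 ℂ →ₗ[ℂ] FM)
      toFM.ker
    have h4 : (fun i => toFM (mat ρ (γ (finCongr h0.symm i)))) =
        (toFM : Matrix I4 I4 ℂ →ₗ[ℂ] FM) ∘ (f ∘ (finCongr h0.symm)) := by
      funext i
      show toFM (mat ρ (γ (finCongr h0.symm i))) = toFM (f (finCongr h0.symm i))
      rw [hγ]
    show LinearIndependent ℂ (fun i => toFM (mat ρ (γ (finCongr h0.symm i))))
    rw [h4]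
    exact h3
  · rintro ⟨γ, h⟩
    have h1 : LinearIndependent ℂ (fun i => mat ρ (γ i)) := by
      have := h.map' (toFM.symm : FM →ₗ[ℂ] Matrix I4 I4 ℂ) toFM.symm.ker
      exact this
    have h2 := h1.span_eq_top_of_card_eq_finrank' (by rw [Fintype.card_fin, hfr])
    refine top_le_iff.1 ?_
    rw [← h2]
    refine Submodule.span_mono ?_
    rintro _ ⟨i, rfl⟩
    exact ⟨γ i, rfl⟩

theorem taskOpenIrr : TaskOpenIrr := by
  have h1 : {ρ : Rep Gam I4 | SpanTop ρ} = ⋃ γ : Fin (Module.finrank ℂ FM) → Gam,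
      (fun (ρ : Rep Gam I4) => fun i => (toFM (mat ρ (γ i)) : FM)) ⁻¹'
        {f : Fin (Module.finrank ℂ FM) → FM | LinearIndependent ℂ f} := by
    ext ρ
    simp only [mem_iUnion, mem_preimage, mem_ofPred_eq, spanTop_iff]
  unfold TaskOpenIrr
  rw [h1]
  refine isOpen_iUnion fun γ => ?_
  refine isOpen_setOfPred_linearIndependent.preimage ?_
  have h2 : Continuous (fun (ρ : Rep Gam I4) (γ : Gam) => mat ρ γ) := continuous_induced_dom
  refine continuous_pi fun i => ?_
  exact (continuous_apply (γ i)).comp h2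

end Pool.Agent.H934R4.AN.TaskOpenIrrN
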