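import Pool.Agent.H934R4.AN.Stmts

set_option autoImplicit false

open scoped MatrixGroups

namespace Pool.Agent.H934R4.AN.TaskPairN

open Pool.Agent.H934R4.AN Matrix

/-- diagonalisation with prescribed eigenvalues -/
theorem diag {L M : ℝ} (hLM : L * M = 1) (hne : L ≠ M)
    (A : Matrix (Fin 2) (Fin 2) ℝ) (htr : A.trace = L + M) (hdet : A.det = 1) :
    ∃ P : Matrix (Fin 2) (Fin 2) ℝ, P.det ≠ 0 ∧ A * P = P * !![L, 0; 0, M] := by
  obtain ⟨a, b, c, d, rfl⟩ : ∃ a b c d, A = !![a, b; c, d] :=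
    ⟨A 0 0, A 0 1, A 1 0, A 1 1, Matrix.eta_fin_two A⟩
  rw [Matrix.trace_fin_two_of] at htr
  rw [Matrix.det_fin_two_of] at hdet
  have hne' : L - M ≠ 0 := sub_ne_zero.2 hne
  by_cases hb : b = 0
  · by_cases hc : c = 0
    · subst hb hc
      have h1 : (a - L) * (a - M) = 0 := by
        have hd : d = L + M - a := by linarith
        subst hd
        linear_combination hLM - hdet
      rcases mul_eq_zero.1 h1 with h2 | h2
      · have ha : a = L := by linarith
        have hd : d = M := by linarith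
        subst ha hd
        refine ⟨1, by simp, ?_⟩
        simp
      · have ha : a = M := by linarith
        have hd : d = L := by linarith
        subst ha hd
        refine ⟨!![0, 1; 1, 0], by simp [Matrix.det_fin_two_of], ?_⟩
        simp
    · subst hb
      refine ⟨!![L - d, M - d; c, c], ?_, ?_⟩
      · rw [Matrix.det_fin_two_of]
        have : (L - d) * c - (M - d) * c = (L - M) * c := by ring
        rw [this]
        exact mul_ne_zero hne' hc
      · rw [Matrix.mul_fin_two, Matrix.mul_fin_two]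
        have hd : d = L + M - a := by linarith
        subst hd
        ext i j
        fin_cases i <;> fin_cases j <;> simp <;>
          first | ring1 | linear_combination hLM - hdet
  · refine ⟨!![b, b; L - a, M - a], ?_, ?_⟩
    · rw [Matrix.det_fin_two_of]
      have : b * (M - a) - b * (L - a) = -((L - M) * b) := by ring
      rw [this]
      exact neg_ne_zero.2 (mul_ne_zero hne' hb)
    · rw [Matrix.mul_fin_two, Matrix.mul_fin_two]
      have hd : d = L + M - a := by linarith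
      subst hd
      ext i j
      fin_cases i <;> fin_cases j <;> simp <;>
        first | ring1 | linear_combination hLM - hdet

/-- the diagonal case -/
theorem dcase {L M : ℝ} (hne : L ≠ M) (X Y : Matrix (Fin 2) (Fin 2) ℝ)
    (hX : X.det = 1) (hY : Y.det = 1) (h1 : X.trace = Y.trace)
    (h2 : (!![L, 0; 0, M] * X).trace = (!![L, 0; 0, M] * Y).trace) (h3 : X 0 1 * X 1 0 ≠ 0) :
    ∃ k : Matrix (Fin 2) (Fin 2) ℝ, k.det ≠ 0 ∧ k * !![L, 0; 0, M] = !![L, 0; 0, M] * k ∧
      k * X = Y * k := by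
  obtain ⟨a, b, c, d, rfl⟩ : ∃ a b c d, X = !![a, b; c, d] :=
    ⟨X 0 0, X 0 1, X 1 0, X 1 1, Matrix.eta_fin_two X⟩
  obtain ⟨a', b', c', d', rfl⟩ : ∃ a b c d, Y = !![a, b; c, d] :=
    ⟨Y 0 0, Y 0 1, Y 1 0, Y 1 1, Matrix.eta_fin_two Y⟩
  rw [Matrix.det_fin_two_of] at hX hY
  rw [Matrix.trace_fin_two_of, Matrix.trace_fin_two_of] at h1
  rw [Matrix.mul_fin_two, Matrix.mul_fin_two, Matrix.trace_fin_two_of,
    Matrix.trace_fin_two_of] at h2
  have hbc : b * c ≠ 0 := by simpa using h3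
  have hne' : L - M ≠ 0 := sub_ne_zero.2 hne
  have ha : a = a' := by
    have h4 : (L - M) * (a - a') = 0 := by linear_combination h2 - M * h1
    have := (mul_eq_zero.1 h4).resolve_left hne'
    linarith
  have hd : d = d' := by linarith
  subst ha hd
  have h5 : b * c = b' * c' := by linarith
  have hb : b ≠ 0 := fun h => hbc (by rw [h, zero_mul])
  have hb' : b' ≠ 0 := fun h => hbc (by rw [h5, h, zero_mul])
  refine ⟨!![b', 0; 0, b], ?_, ?_, ?_⟩
  · rw [Matrix.det_fin_two_of]
    simp [hb, hb']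
  · rw [Matrix.mul_fin_two, Matrix.mul_fin_two]
    ext i j
    fin_cases i <;> fin_cases j <;> simp <;> ring
  · rw [Matrix.mul_fin_two, Matrix.mul_fin_two]
    ext i j
    fin_cases i <;> fin_cases j <;> simp <;>
      first | ring1 | linear_combination h5

/-- Fricke trace identity -/
theorem fricke (A B : SL(2, ℝ)) : (A * B * A⁻¹ * B⁻¹).1.trace =
    A.1.trace ^ 2 + B.1.trace ^ 2 + (A * B).1.trace ^ 2 -
      A.1.trace * B.1.trace * (A * B).1.trace - 2 := by
  have hA := A.2
  have hB := B.2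
  rw [Matrix.det_fin_two] at hA hB
  have e1 : (A * B * A⁻¹ * B⁻¹).1 = A.1 * B.1 * A.1.adjugate * B.1.adjugate := rfl
  have e2 : (A * B).1 = A.1 * B.1 := rfl
  rw [e1, e2]
  simp only [Matrix.trace_fin_two, Matrix.adjugate_fin_two, Matrix.mul_apply, Fin.sum_univ_two,
    Matrix.of_apply, Matrix.cons_val', Matrix.cons_val_zero, Matrix.cons_val_one,
    Matrix.cons_val_fin_one]
  generalize A.1 0 0 = a at *
  generalize A.1 0 1 = b at *
  generalize A.1 1 0 = c at *
  generalize A.1 1 1 = d at *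
  generalize B.1 0 0 = x at *
  generalize B.1 0 1 = y at *
  generalize B.1 1 0 = z at *
  generalize B.1 1 1 = w at *
  linear_combination ((a + d) ^ 2 - 2 * (a * d - b * c)) * hB + ((x + w) ^ 2 - 2) * hA

theorem taskPair : TaskPair := by
  intro A B A' B' hA2 hcomm hAA hBB hABAB
  -- eigenvalues
  set t := A.1.trace with ht
  have ht4 : 0 < t ^ 2 - 4 := by
    have h1 : (2 : ℝ) ^ 2 < |t| ^ 2 := pow_lt_pow_left₀ hA2 (by norm_num) (by norm_num)
    rw [sq_abs] at h1
    linarith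
  set s := Real.sqrt (t ^ 2 - 4) with hs
  have hs0 : 0 < s := Real.sqrt_pos.2 ht4
  have hs2 : s * s = t ^ 2 - 4 := Real.mul_self_sqrt ht4.le
  set L : ℝ := (t + s) / 2 with hL
  set M : ℝ := (t - s) / 2 with hM
  have hLM : L * M = 1 := by
    rw [hL, hM]
    linear_combination (-1 / 4) * hs2
  have hsum : L + M = t := by
    rw [hL, hM]
    ring
  have hne : L ≠ M := by
    intro h
    rw [hL, hM] at h
    linarith
  obtain ⟨P, hP, hAP⟩ := diag hLM hne A.1 (by rw [hsum]) A.2
  obtain ⟨P', hP', hAP'⟩ := diag hLM hne A'.1 (by rw [hsum, ← hAA]) A'.2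
  set D : Matrix (Fin 2) (Fin 2) ℝ := !![L, 0; 0, M] with hD
  have hPu : IsUnit P.det := isUnit_iff_ne_zero.2 hP
  have hPu' : IsUnit P'.det := isUnit_iff_ne_zero.2 hP'
  have p1 : P * P⁻¹ = 1 := Matrix.mul_nonsing_inv P hPu
  have p2 : P⁻¹ * P = 1 := Matrix.nonsing_inv_mul P hPu
  have p1' : P' * P'⁻¹ = 1 := Matrix.mul_nonsing_inv P' hPu'
  have p2' : P'⁻¹ * P' = 1 := Matrix.nonsing_inv_mul P' hPu'
  have hA : A.1 = P * D * P⁻¹ := by
    rw [← hAP, Matrix.mul_assoc, p1, Matrix.mul_one]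
  have hA' : A'.1 = P' * D * P'⁻¹ := by
    rw [← hAP', Matrix.mul_assoc, p1', Matrix.mul_one]
  set X := P⁻¹ * B.1 * P with hX
  set Y := P'⁻¹ * B'.1 * P' with hY
  have trX : X.trace = B.1.trace := by
    rw [hX, Matrix.trace_mul_comm, ← Matrix.mul_assoc, p1, Matrix.one_mul]
  have trY : Y.trace = B'.1.trace := by
    rw [hY, Matrix.trace_mul_comm, ← Matrix.mul_assoc, p1', Matrix.one_mul]
  have detX : X.det = 1 := by
    rw [hX, Matrix.det_mul, Matrix.det_mul, B.2, mul_one, mul_comm, ← Matrix.det_mul, p1,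
      Matrix.det_one]
  have detY : Y.det = 1 := by
    rw [hY, Matrix.det_mul, Matrix.det_mul, B'.2, mul_one, mul_comm, ← Matrix.det_mul, p1',
      Matrix.det_one]
  have trDX : (D * X).trace = (A * B).1.trace := by
    have e : (A * B).1 = A.1 * B.1 := rfl
    rw [e, hA, hX]
    have e2 : P * D * P⁻¹ * B.1 = P * (D * P⁻¹ * B.1) := by
      simp only [Matrix.mul_assoc]
    rw [e2, Matrix.trace_mul_comm P]
    simp only [Matrix.mul_assoc]
  have trDY : (D * Y).trace = (A' * B').1.trace := by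
    have e : (A' * B').1 = A'.1 * B'.1 := rfl
    rw [e, hA', hY]
    have e2 : P' * D * P'⁻¹ * B'.1 = P' * (D * P'⁻¹ * B'.1) := by
      simp only [Matrix.mul_assoc]
    rw [e2, Matrix.trace_mul_comm P']
    simp only [Matrix.mul_assoc]
  have hX01 : X 0 1 * X 1 0 ≠ 0 := by
    intro h0
    apply hcomm
    rw [fricke, ← ht, ← hsum, ← trX, ← trDX]
    rw [Matrix.det_fin_two] at detX
    have e1 : X.trace = X 0 0 + X 1 1 := Matrix.trace_fin_two X
    have e2 : (D * X).trace = L * X 0 0 + M * X 1 1 := by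
      rw [Matrix.trace_fin_two, Matrix.mul_apply, Matrix.mul_apply, Fin.sum_univ_two,
        Fin.sum_univ_two, hD]
      simp
    rw [e1, e2]
    have e3 : X 0 0 * X 1 1 = 1 := by linarith
    generalize X 0 0 = a at *
    generalize X 1 1 = d at *
    linear_combination (2 - (L ^ 2 + M ^ 2)) * e3 +
      (2 - a ^ 2 - d ^ 2) * hLM
  obtain ⟨k, hk, hkD, hkX⟩ := dcase hne X Y detX detY (by rw [trX, trY, hBB])
    (by rw [trDX, trDY, hABAB]) hX01
  rw [← hD] at hkD
  refine ⟨P' * k * P⁻¹, ?_, ?_, ?_⟩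
  · rw [Matrix.det_mul, Matrix.det_mul]
    refine mul_ne_zero (mul_ne_zero hP' hk) ?_
    intro h0
    have := congrArg Matrix.det p1
    rw [Matrix.det_mul, h0, mul_zero, Matrix.det_one] at this
    exact zero_ne_one this
  · calc P' * k * P⁻¹ * A.1 = P' * k * P⁻¹ * (P * D * P⁻¹) := by rw [← hA]
      _ = P' * k * (P⁻¹ * P) * D * P⁻¹ := by simp only [Matrix.mul_assoc]
      _ = P' * (k * D) * P⁻¹ := by rw [p2]; simp only [Matrix.mul_assoc, Matrix.one_mul]
      _ = P' * D * (P'⁻¹ * P') * k * P⁻¹ := by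
          rw [hkD, p2']; simp only [Matrix.mul_assoc, Matrix.one_mul]
      _ = P' * D * P'⁻¹ * (P' * k * P⁻¹) := by simp only [Matrix.mul_assoc]
      _ = A'.1 * (P' * k * P⁻¹) := by rw [← hA']
  · calc P' * k * P⁻¹ * B.1 = P' * k * P⁻¹ * B.1 * (P * P⁻¹) := by rw [p1, Matrix.mul_one]
      _ = P' * (k * X) * P⁻¹ := by rw [hX]; simp only [Matrix.mul_assoc]
      _ = P' * (Y * k) * P⁻¹ := by rw [hkX]
      _ = (P' * P'⁻¹) * B'.1 * P' * k * P⁻¹ := by rw [hY]; simp only [Matrix.mul_assoc]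
      _ = B'.1 * (P' * k * P⁻¹) := by rw [p1']; simp only [Matrix.mul_assoc, Matrix.one_mul]

end Pool.Agent.H934R4.AN.TaskPairN
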