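import Pool.Agent.H934R4.AN.Stmts

set_option autoImplicit false

noncomputable section

open Filter Topology Set
open scoped MatrixGroups Kronecker

namespace Pool.Agent.H934R4.AN.TaskQ1N

open Pool.Agent.H934R4.AN

theorem uni (α β w0 w1 : ℂ) :
    ‖α * w0 + β * w1‖ ^ 2 + ‖-(starRingEnd ℂ β) * w0 + starRingEnd ℂ α * w1‖ ^ 2 =
      (‖α‖ ^ 2 + ‖β‖ ^ 2) * (‖w0‖ ^ 2 + ‖w1‖ ^ 2) := by
  simp only [Complex.sq_norm, Complex.normSq_apply, Complex.add_re, Complex.add_im, Complex.mul_re,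
    Complex.mul_im, Complex.neg_re, Complex.neg_im, Complex.conj_re, Complex.conj_im]
  ring

/-- `TT x` multiplies the norm by the reduced norm -/
theorem TT_norm (x : Q4) (w : Fin 2 → ℂ) :
    ∑ j : Fin 2, ‖∑ k : Fin 2, TT x j k * w k‖ ^ 2 = e2 (qn x) * ∑ j : Fin 2, ‖w j‖ ^ 2 := by
  have h := uni ((e2 (x 0) : ℂ) + th * Complex.I * e2 (x 1))
    ((e2 (x 2) : ℂ) + th * Complex.I * e2 (x 3)) (w 0) (w 1)
  have hc1 : -(starRingEnd ℂ ((e2 (x 2) : ℂ) + th * Complex.I * e2 (x 3))) =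
      -(e2 (x 2) : ℂ) + th * Complex.I * e2 (x 3) := by
    simp only [map_add, map_mul, Complex.conj_ofReal, Complex.conj_I]
    ring
  have hc2 : (starRingEnd ℂ ((e2 (x 0) : ℂ) + th * Complex.I * e2 (x 1))) =
      (e2 (x 0) : ℂ) - th * Complex.I * e2 (x 1) := by
    simp only [map_add, map_mul, Complex.conj_ofReal, Complex.conj_I]
    ring
  rw [hc1, hc2] at h
  have hn : ‖(e2 (x 0) : ℂ) + th * Complex.I * e2 (x 1)‖ ^ 2 +
      ‖(e2 (x 2) : ℂ) + th * Complex.I * e2 (x 3)‖ ^ 2 = e2 (qn x) := by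
    have ht := th_sq
    simp only [Complex.sq_norm, Complex.normSq_apply, Complex.add_re, Complex.add_im,
      Complex.mul_re, Complex.mul_im, Complex.ofReal_re, Complex.ofReal_im, Complex.I_re,
      Complex.I_im]
    rw [qn, e2_sub, e2_add, e2_sub, e2_mul, e2_mul, e2_mul, e2_mul, e2_mul, e2_mul, e2_w2]
    linear_combination (e2 (x 1) * e2 (x 1) + e2 (x 3) * e2 (x 3)) * ht
  rw [hn] at h
  simp only [Fin.sum_univ_two]
  have t00 : TT x 0 0 = (e2 (x 0) : ℂ) + th * Complex.I * e2 (x 1) := rfl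
  have t01 : TT x 0 1 = (e2 (x 2) : ℂ) + th * Complex.I * e2 (x 3) := rfl
  have t10 : TT x 1 0 = -(e2 (x 2) : ℂ) + th * Complex.I * e2 (x 3) := rfl
  have t11 : TT x 1 1 = (e2 (x 0) : ℂ) - th * Complex.I * e2 (x 1) := rfl
  rw [t00, t01, t10, t11]
  exact h

theorem uu_act (γ : Gam) (g : SL(2, ℝ)) (v : I4 → ℂ) (i j : Fin 2) :
    uu ((γ : SL(2, ℝ)) * g) ((mat rho1 γ).mulVec v) (i, j) =
      ∑ k : Fin 2, TT (crd γ) j k * uu g v (i, k) := by
  have h1 : uu ((γ : SL(2, ℝ)) * g) ((mat rho1 γ).mulVec v) =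
      ((1 : Matrix (Fin 2) (Fin 2) ℂ) ⊗ₖ TT (crd γ)).mulVec (uu g v) := by
    unfold uu
    rw [mat_rho1, Matrix.mulVec_mulVec, Matrix.mulVec_mulVec, ← Matrix.mul_kronecker_mul,
      ← Matrix.mul_kronecker_mul, ← cM_mul]
    congr 2
    · rw [mul_inv_rev, inv_mul_cancel_right, Matrix.one_mul]
    · rw [Matrix.one_mul, Matrix.mul_one]
  rw [h1, Matrix.mulVec, dotProduct, Fintype.sum_prod_type]
  rw [Finset.sum_eq_single i]
  · refine Finset.sum_congr rfl ?_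
    intro k _
    simp [Matrix.kroneckerMap_apply]
  · intro i' _ hi
    refine Finset.sum_eq_zero ?_
    intro k _
    rw [Matrix.kroneckerMap_apply, Matrix.one_apply_ne (Ne.symm hi)]
    simp
  · intro h
    exact absurd (Finset.mem_univ _) h

theorem block (γ : Gam) (g : SL(2, ℝ)) (v : I4 → ℂ) (i : Fin 2) :
    ∑ j : Fin 2, ‖uu ((γ : SL(2, ℝ)) * g) ((mat rho1 γ).mulVec v) (i, j)‖ ^ 2 =
      ∑ j : Fin 2, ‖uu g v (i, j)‖ ^ 2 := by
  have h := TT_norm (crd γ) (fun k => uu g v (i, k))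
  rw [crd_norm, e2_one, one_mul] at h
  rw [← h]
  refine Finset.sum_congr rfl ?_
  intro j _
  rw [uu_act]

theorem taskQ1 : TaskQ1 := by
  intro γ g v
  constructor
  · unfold hh
    rw [Fintype.sum_prod_type, Fintype.sum_prod_type]
    exact Finset.sum_congr rfl fun i _ => block γ g v i
  · unfold QQ
    rw [block, block]

end Pool.Agent.H934R4.AN.TaskQ1N
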