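import Pool.Agent.H934R4.AN.Stmts

/-!
# TaskQ2 of project ANOSOV (helper489): the step inequality of the Lyapunov form
-/

set_option autoImplicit false

noncomputable section

open Filter Topology Set
open scoped MatrixGroups Kronecker

namespace Pool.Agent.H934R4.AN.TaskQ2N

theorem kron_diag (d0 d1 : ℂ) (w : I4 → ℂ) (i j : Fin 2) :
    ((!![d0, 0; 0, d1] : Matrix (Fin 2) (Fin 2) ℂ) ⊗ₖ (1 : Matrix (Fin 2) (Fin 2) ℂ)).mulVec w (i, j)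
      = (![d0, d1] i) * w (i, j) := by
  rw [Matrix.mulVec, dotProduct, Fintype.sum_prod_type]
  fin_cases i <;> fin_cases j <;>
    simp [Matrix.kroneckerMap_apply, Fin.sum_univ_two, Matrix.one_apply]

theorem cM_fl_inv : cM (fl 1)⁻¹ = !![((Real.exp (-(1 / 2)) : ℝ) : ℂ), 0; 0, ((Real.exp (1 / 2) : ℝ) : ℂ)] := by
  ext i j
  have : ((fl 1)⁻¹ : SL(2, ℝ)).1 = Matrix.adjugate (fl 1).1 := Matrix.SpecialLinearGroup.coe_inv _
  rw [cM, this]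
  fin_cases i <;> fin_cases j <;> simp [fl, Matrix.adjugate_fin_two]

theorem uu_fl (g : SL(2, ℝ)) (v : I4 → ℂ) (i j : Fin 2) :
    uu (g * fl 1) v (i, j) =
      (![((Real.exp (-(1 / 2)) : ℝ) : ℂ), ((Real.exp (1 / 2) : ℝ) : ℂ)] i) * uu g v (i, j) := by
  have h : uu (g * fl 1) v =
      ((!![((Real.exp (-(1 / 2)) : ℝ) : ℂ), 0; 0, ((Real.exp (1 / 2) : ℝ) : ℂ)] :
        Matrix (Fin 2) (Fin 2) ℂ) ⊗ₖ (1 : Matrix (Fin 2) (Fin 2) ℂ)).mulVec (uu g v) := by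
    rw [uu, uu, Matrix.mulVec_mulVec, ← Matrix.mul_kronecker_mul, one_mul, ← cM_fl_inv, ← cM_mul,
      mul_inv_rev]
  rw [h, kron_diag]

theorem uu_neg (g : SL(2, ℝ)) (v : I4 → ℂ) (i : I4) : uu (-g) v i = - uu g v i := by
  have h : cM (-g)⁻¹ = - cM g⁻¹ := by
    ext i j
    have h1 : ((-g)⁻¹ : SL(2, ℝ)).1 = Matrix.adjugate (-g).1 := Matrix.SpecialLinearGroup.coe_inv _
    have h2 : (g⁻¹ : SL(2, ℝ)).1 = Matrix.adjugate g.1 := Matrix.SpecialLinearGroup.coe_inv _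
    have h3 : (-g).1 = -g.1 := rfl
    rw [cM, cM, h1, h2, h3]
    fin_cases i <;> fin_cases j <;> simp [Matrix.adjugate_fin_two]
  rw [uu, uu, h]
  have : (-cM g⁻¹) ⊗ₖ (1 : Matrix (Fin 2) (Fin 2) ℂ) = - (cM g⁻¹ ⊗ₖ (1 : Matrix (Fin 2) (Fin 2) ℂ)) := by
    ext a b
    simp [Matrix.kroneckerMap_apply]
  rw [this, Matrix.neg_mulVec]
  rfl

theorem real_key (a b : ℝ) (ha0 : 0 ≤ a) (hb0 : 0 ≤ b) :
    b - a + (1 / 2) * (a + b) ≤ Real.exp 1 * b - Real.exp (-1) * a := by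
  have h1 : 2 ≤ Real.exp 1 := by
    have := Real.add_one_le_exp (1 : ℝ); linarith
  have h2 : Real.exp (-1) ≤ 1 / 2 := by
    rw [Real.exp_neg, ← one_div]
    exact one_div_le_one_div_of_le (by norm_num) h1
  nlinarith

theorem QQ_eq (g : SL(2, ℝ)) (v : I4 → ℂ) : QQ g v =
    (‖uu g v (1, 0)‖ ^ 2 + ‖uu g v (1, 1)‖ ^ 2) - (‖uu g v (0, 0)‖ ^ 2 + ‖uu g v (0, 1)‖ ^ 2) := by
  rw [QQ, Fin.sum_univ_two, Fin.sum_univ_two]

theorem hh_eq (g : SL(2, ℝ)) (v : I4 → ℂ) : hh g v =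
    (‖uu g v (0, 0)‖ ^ 2 + ‖uu g v (0, 1)‖ ^ 2) + (‖uu g v (1, 0)‖ ^ 2 + ‖uu g v (1, 1)‖ ^ 2) := by
  rw [hh, Fintype.sum_prod_type, Fin.sum_univ_two, Fin.sum_univ_two, Fin.sum_univ_two]

theorem sq0 (g : SL(2, ℝ)) (v : I4 → ℂ) (j : Fin 2) :
    ‖uu (g * fl 1) v (0, j)‖ ^ 2 = Real.exp (-1) * ‖uu g v (0, j)‖ ^ 2 := by
  have e1 : Real.exp (-(1 / 2)) ^ 2 = Real.exp (-1) := by
    rw [← Real.exp_nat_mul]; norm_num
  rw [uu_fl, norm_mul, mul_pow]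
  simp only [Matrix.cons_val_zero, Complex.norm_real, Real.norm_eq_abs, Real.abs_exp]
  rw [e1]

theorem sq1 (g : SL(2, ℝ)) (v : I4 → ℂ) (j : Fin 2) :
    ‖uu (g * fl 1) v (1, j)‖ ^ 2 = Real.exp 1 * ‖uu g v (1, j)‖ ^ 2 := by
  have e2 : Real.exp (1 / 2) ^ 2 = Real.exp 1 := by
    rw [← Real.exp_nat_mul]; norm_num
  rw [uu_fl, norm_mul, mul_pow]
  simp only [Matrix.cons_val_one, Matrix.cons_val_fin_one, Complex.norm_real, Real.norm_eq_abs,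
    Real.abs_exp]
  rw [e2]

theorem taskQ2 : TaskQ2 := by
  intro g v
  refine ⟨?_, ?_, ?_⟩
  · rw [QQ_eq (g * fl 1), sq0, sq0, sq1, sq1, QQ_eq, hh_eq]
    refine (real_key _ _ (add_nonneg (sq_nonneg _) (sq_nonneg _))
      (add_nonneg (sq_nonneg _) (sq_nonneg _))).trans (le_of_eq ?_)
    ring
  · rw [QQ_eq, hh_eq, abs_le]
    have h1 := sq_nonneg ‖uu g v (0, 0)‖
    have h2 := sq_nonneg ‖uu g v (0, 1)‖
    have h3 := sq_nonneg ‖uu g v (1, 0)‖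
    have h4 := sq_nonneg ‖uu g v (1, 1)‖
    constructor <;> linarith
  · rw [QQ_eq, QQ_eq]
    simp only [uu_neg, norm_neg]

end Pool.Agent.H934R4.AN.TaskQ2N
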