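import Pool.Agent.H934R4.AN.Stmts

set_option autoImplicit false

noncomputable section

open Filter Topology Set
open scoped MatrixGroups Kronecker

namespace Pool.Agent.H934R4.AN.TaskQ3N

open Pool.Agent.H934R4.AN

/-- sum of the absolute values of the entries -/
def SS (M : Matrix I4 I4 ℂ) : ℝ := ∑ i, ∑ j, ‖M i j‖

lemma SS_nonneg (M : Matrix I4 I4 ℂ) : 0 ≤ SS M :=
  Finset.sum_nonneg fun _ _ => Finset.sum_nonneg fun _ _ => norm_nonneg _

lemma row_le (M : Matrix I4 I4 ℂ) (i : I4) : ∑ j, ‖M i j‖ ≤ SS M :=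
  Finset.single_le_sum (f := fun i => ∑ j, ‖M i j‖)
    (fun _ _ => Finset.sum_nonneg fun _ _ => norm_nonneg _) (Finset.mem_univ i)

lemma mulVec_le (M : Matrix I4 I4 ℂ) (w : I4 → ℂ) (i : I4) : ‖M.mulVec w i‖ ≤ SS M * ‖w‖ := by
  unfold Matrix.mulVec dotProduct
  calc ‖∑ j, M i j * w j‖ ≤ ∑ j, ‖M i j * w j‖ := norm_sum_le _ _
    _ ≤ ∑ j, ‖M i j‖ * ‖w‖ := by
        refine Finset.sum_le_sum fun j _ => ?_
        rw [norm_mul]
        exact mul_le_mul_of_nonneg_left (norm_le_pi_norm w j) (norm_nonneg _)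
    _ = (∑ j, ‖M i j‖) * ‖w‖ := by rw [Finset.sum_mul]
    _ ≤ SS M * ‖w‖ := mul_le_mul_of_nonneg_right (row_le M i) (norm_nonneg _)

lemma mulVec_norm_le (M : Matrix I4 I4 ℂ) (w : I4 → ℂ) : ‖M.mulVec w‖ ≤ SS M * ‖w‖ := by
  rw [pi_norm_le_iff_of_nonneg (mul_nonneg (SS_nonneg M) (norm_nonneg _))]
  exact mulVec_le M w

lemma SS_add_le (M N : Matrix I4 I4 ℂ) : SS (M + N) ≤ SS M + SS N := by
  unfold SS
  rw [← Finset.sum_add_distrib]
  refine Finset.sum_le_sum fun i _ => ?_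
  rw [← Finset.sum_add_distrib]
  refine Finset.sum_le_sum fun j _ => ?_
  rw [Matrix.add_apply]
  exact norm_add_le _ _

lemma cont_SS : Continuous SS := by
  unfold SS
  refine continuous_finset_sum _ fun i _ => continuous_finset_sum _ fun j _ => ?_
  exact (continuous_id.matrix_elem i j).norm

lemma cont_cM : Continuous cM := by
  refine continuous_matrix fun i j => ?_
  have h1 : Continuous (fun g : SL(2, ℝ) => g.1) := continuous_subtype_val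
  exact Complex.continuous_ofReal.comp (h1.matrix_elem i j)

lemma cont_kr : Continuous (fun M : Matrix (Fin 2) (Fin 2) ℂ =>
    (M ⊗ₖ (1 : Matrix (Fin 2) (Fin 2) ℂ))) := by
  refine continuous_matrix fun i j => ?_
  simp only [Matrix.kroneckerMap_apply]
  exact (continuous_id.matrix_elem i.1 j.1).mul continuous_const

lemma norm_sq_le_hh (g : SL(2, ℝ)) (w : I4 → ℂ) :
    ‖w‖ ^ 2 ≤ (SS (cM g ⊗ₖ (1 : Matrix (Fin 2) (Fin 2) ℂ))) ^ 2 * hh g w := by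
  set L := SS (cM g ⊗ₖ (1 : Matrix (Fin 2) (Fin 2) ℂ)) with hL
  have hL0 : 0 ≤ L := SS_nonneg _
  have h1 : (cM g ⊗ₖ (1 : Matrix (Fin 2) (Fin 2) ℂ)).mulVec (uu g w) = w := by
    unfold uu
    rw [Matrix.mulVec_mulVec, ← Matrix.mul_kronecker_mul, ← cM_mul, mul_inv_cancel, cM_one,
      Matrix.one_mul, Matrix.one_kronecker_one, Matrix.one_mulVec]
  have h2 : ‖w‖ ≤ L * ‖uu g w‖ := by
    conv_lhs => rw [← h1]
    exact mulVec_norm_le _ _
  have h3 : ‖uu g w‖ ^ 2 ≤ hh g w := by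
    have hh0 : 0 ≤ hh g w := Finset.sum_nonneg fun _ _ => by positivity
    have h4 : ‖uu g w‖ ≤ Real.sqrt (hh g w) := by
      rw [pi_norm_le_iff_of_nonneg (Real.sqrt_nonneg _)]
      intro i
      refine Real.le_sqrt_of_sq_le ?_
      unfold hh
      exact Finset.single_le_sum (f := fun i => ‖uu g w i‖ ^ 2) (fun _ _ => by positivity)
        (Finset.mem_univ i)
    calc ‖uu g w‖ ^ 2 ≤ (Real.sqrt (hh g w)) ^ 2 := by gcongr
      _ = hh g w := Real.sq_sqrt hh0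
  calc ‖w‖ ^ 2 ≤ (L * ‖uu g w‖) ^ 2 := by gcongr
    _ = L ^ 2 * ‖uu g w‖ ^ 2 := by ring
    _ ≤ L ^ 2 * hh g w := by gcongr

lemma QQ_sub_le (g : SL(2, ℝ)) (x y : I4 → ℂ) :
    |QQ g x - QQ g y| ≤ 4 * (SS (cM g⁻¹ ⊗ₖ (1 : Matrix (Fin 2) (Fin 2) ℂ))) ^ 2 *
      (‖x - y‖ * (‖x‖ + ‖y‖)) := by
  set K := SS (cM g⁻¹ ⊗ₖ (1 : Matrix (Fin 2) (Fin 2) ℂ)) with hK
  have hK0 : 0 ≤ K := SS_nonneg _
  have h1 : ∀ i, |‖uu g x i‖ ^ 2 - ‖uu g y i‖ ^ 2| ≤ K ^ 2 * (‖x - y‖ * (‖x‖ + ‖y‖)) := by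
    intro i
    have h2 : ‖uu g x i‖ ≤ K * ‖x‖ := mulVec_le _ _ _
    have h3 : ‖uu g y i‖ ≤ K * ‖y‖ := mulVec_le _ _ _
    have h4 : ‖uu g x i - uu g y i‖ ≤ K * ‖x - y‖ := by
      have : uu g x i - uu g y i = (cM g⁻¹ ⊗ₖ (1 : Matrix (Fin 2) (Fin 2) ℂ)).mulVec (x - y) i := by
        rw [Matrix.mulVec_sub]; rfl
      rw [this]
      exact mulVec_le _ _ _
    have h5 : |‖uu g x i‖ - ‖uu g y i‖| ≤ K * ‖x - y‖ := (abs_norm_sub_norm_le _ _).trans h4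
    have h6 : ‖uu g x i‖ ^ 2 - ‖uu g y i‖ ^ 2
        = (‖uu g x i‖ - ‖uu g y i‖) * (‖uu g x i‖ + ‖uu g y i‖) := by ring
    rw [h6, abs_mul, abs_of_nonneg (add_nonneg (norm_nonneg _) (norm_nonneg _))]
    calc |‖uu g x i‖ - ‖uu g y i‖| * (‖uu g x i‖ + ‖uu g y i‖)
        ≤ (K * ‖x - y‖) * (K * ‖x‖ + K * ‖y‖) := by
          refine mul_le_mul h5 (add_le_add h2 h3) (by positivity) (by positivity)
      _ = _ := by ring
  have h7 : QQ g x - QQ g y = ((‖uu g x (1, 0)‖ ^ 2 - ‖uu g y (1, 0)‖ ^ 2)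
      + (‖uu g x (1, 1)‖ ^ 2 - ‖uu g y (1, 1)‖ ^ 2))
      - ((‖uu g x (0, 0)‖ ^ 2 - ‖uu g y (0, 0)‖ ^ 2)
      + (‖uu g x (0, 1)‖ ^ 2 - ‖uu g y (0, 1)‖ ^ 2)) := by
    unfold QQ
    simp only [Fin.sum_univ_two]
    ring
  rw [h7]
  have a1 := abs_le.1 (h1 (1, 0))
  have a2 := abs_le.1 (h1 (1, 1))
  have a3 := abs_le.1 (h1 (0, 0))
  have a4 := abs_le.1 (h1 (0, 1))
  rw [abs_le]
  constructor
  · linarith [a1.1, a2.1, a3.2, a4.2]
  · linarith [a1.2, a2.2, a3.1, a4.1]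

theorem taskQ3 (h0 : TaskDisc) (h1 : TaskQ1) (h2 : TaskQ2) : TaskQ3 := by
  intro D hD
  -- the compact set containing the `δ`
  set K0 : Set SL(2, ℝ) := (fun p : SL(2, ℝ) × SL(2, ℝ) => p.1 * fl 1 * p.2⁻¹) '' (D ×ˢ D) with hK0
  have hK0c : IsCompact K0 := by
    refine (hD.prod hD).image ?_
    exact (continuous_fst.mul continuous_const).mul continuous_snd.inv
  have hfin : {δ : Gam | (δ : SL(2, ℝ)) ∈ K0}.Finite := by
    have := (h0 K0 hK0c).preimage (f := fun δ : Gam => (δ : SL(2, ℝ)))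
      (Subtype.val_injective.injOn)
    refine this.subset ?_
    intro δ hδ
    exact ⟨δ.2, hδ⟩
  set F := hfin.toFinset with hF
  obtain ⟨B1, hB1⟩ := hD.exists_bound_of_continuousOn
    (f := fun g => SS (cM g ⊗ₖ (1 : Matrix (Fin 2) (Fin 2) ℂ)))
    ((cont_SS.comp (cont_kr.comp cont_cM)).continuousOn)
  obtain ⟨B2, hB2⟩ := hD.exists_bound_of_continuousOn
    (f := fun g => SS (cM g⁻¹ ⊗ₖ (1 : Matrix (Fin 2) (Fin 2) ℂ)))
    ((cont_SS.comp (cont_kr.comp (cont_cM.comp continuous_inv))).continuousOn)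
  set B := max 1 (max B1 B2) with hB
  have hB1' : ∀ g ∈ D, SS (cM g ⊗ₖ (1 : Matrix (Fin 2) (Fin 2) ℂ)) ≤ B := fun g hg =>
    ((le_abs_self _).trans (hB1 g hg)).trans ((le_max_left _ _).trans (le_max_right _ _))
  have hB2' : ∀ g ∈ D, SS (cM g⁻¹ ⊗ₖ (1 : Matrix (Fin 2) (Fin 2) ℂ)) ≤ B := fun g hg =>
    ((le_abs_self _).trans (hB2 g hg)).trans ((le_max_right _ _).trans (le_max_right _ _))
  have hBpos : 0 < B := lt_of_lt_of_le one_pos (le_max_left _ _)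
  set S1 : ℝ := ∑ δ ∈ F, SS (mat rho1 δ⁻¹) with hS1
  have hS10 : 0 ≤ S1 := Finset.sum_nonneg fun _ _ => SS_nonneg _
  set ε : ℝ := min 1 (1 / (16 * B ^ 4 * (2 * S1 + 1))) with hε
  have hε0 : 0 < ε := lt_min one_pos (by positivity)
  have hε1 : ε ≤ 1 := min_le_left _ _
  have hε2 : 4 * B ^ 4 * (ε * (2 * S1 + 1)) ≤ 1 / 4 := by
    have h3 : ε ≤ 1 / (16 * B ^ 4 * (2 * S1 + 1)) := min_le_right _ _
    rw [le_div_iff₀ (by positivity)] at h3
    nlinarith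
  refine ⟨⋂ δ ∈ F, {ρ : Rep Gam I4 | SS (mat ρ δ⁻¹ - mat rho1 δ⁻¹) < ε}, ?_, ?_, ?_⟩
  · refine isOpen_biInter_finset fun δ _ => ?_
    have hc : Continuous (fun ρ : Rep Gam I4 => SS (mat ρ δ⁻¹ - mat rho1 δ⁻¹)) := by
      have h3 : Continuous (fun ρ : Rep Gam I4 => (fun γ : Gam => mat ρ γ)) :=
        continuous_induced_dom
      have h4 : Continuous (fun ρ : Rep Gam I4 => mat ρ δ⁻¹) :=
        (continuous_apply (δ⁻¹ : Gam)).comp h3
      exact cont_SS.comp (h4.sub continuous_const)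
    exact isOpen_lt hc continuous_const
  · simp only [mem_iInter, mem_setOf_eq, sub_self]
    intro δ _
    have : SS (0 : Matrix I4 I4 ℂ) = 0 := by simp [SS]
    rw [this]
    exact hε0
  · intro ρ hρ d hd d' hd' δ hδ w
    have hδF : δ ∈ F := by
      rw [hF, Set.Finite.mem_toFinset]
      refine ⟨(d, d'), ⟨hd, hd'⟩, ?_⟩
      show d * fl 1 * d'⁻¹ = (δ : SL(2, ℝ))
      rw [← hδ]; group
    have hclose : SS (mat ρ δ⁻¹ - mat rho1 δ⁻¹) < ε := by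
      have := hρ
      simp only [mem_iInter, mem_setOf_eq] at this
      exact this δ hδF
    have hS1' : SS (mat rho1 δ⁻¹) ≤ S1 :=
      Finset.single_le_sum (f := fun δ : Gam => SS (mat rho1 δ⁻¹)) (fun _ _ => SS_nonneg _) hδF
    -- the inequality for `rho1`
    have h3 := (h1 δ⁻¹ ((δ : SL(2, ℝ)) * d') w).2
    have h4 : ((δ⁻¹ : Gam) : SL(2, ℝ)) * ((δ : SL(2, ℝ)) * d') = d' := by
      rw [Subgroup.coe_inv]; group
    rw [h4] at h3
    have h5 := (h2 d w).1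
    rw [hδ] at h3
    rw [← h3] at h5
    -- comparison
    set x := (mat ρ δ⁻¹).mulVec w with hx
    set y := (mat rho1 δ⁻¹).mulVec w with hy
    have h6 := QQ_sub_le d' x y
    have h7 : ‖x - y‖ ≤ ε * ‖w‖ := by
      have : x - y = (mat ρ δ⁻¹ - mat rho1 δ⁻¹).mulVec w := by rw [Matrix.sub_mulVec]
      rw [this]
      exact (mulVec_norm_le _ _).trans (mul_le_mul_of_nonneg_right hclose.le (norm_nonneg _))
    have h8 : ‖y‖ ≤ S1 * ‖w‖ :=
      (mulVec_norm_le _ _).trans (mul_le_mul_of_nonneg_right hS1' (norm_nonneg _))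
    have h9 : ‖x‖ ≤ (S1 + 1) * ‖w‖ := by
      have h10 : ‖x‖ ≤ ‖x - y‖ + ‖y‖ := by
        have := norm_add_le (x - y) y
        simpa using this
      have h11 : ε * ‖w‖ ≤ 1 * ‖w‖ := mul_le_mul_of_nonneg_right hε1 (norm_nonneg _)
      linarith
    have h12 : ‖x - y‖ * (‖x‖ + ‖y‖) ≤ (ε * (2 * S1 + 1)) * ‖w‖ ^ 2 := by
      calc ‖x - y‖ * (‖x‖ + ‖y‖) ≤ (ε * ‖w‖) * ((S1 + 1) * ‖w‖ + S1 * ‖w‖) :=
            mul_le_mul h7 (add_le_add h9 h8) (by positivity) (by positivity)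
        _ = _ := by ring
    have h13 : ‖w‖ ^ 2 ≤ B ^ 2 * hh d w := by
      refine (norm_sq_le_hh d w).trans ?_
      have : 0 ≤ hh d w := Finset.sum_nonneg fun _ _ => by positivity
      refine mul_le_mul_of_nonneg_right ?_ this
      exact pow_le_pow_left₀ (SS_nonneg _) (hB1' d hd) 2
    have hhh : 0 ≤ hh d w := Finset.sum_nonneg fun _ _ => by positivity
    have h14 : |QQ d' x - QQ d' y| ≤ (1 / 4) * hh d w := by
      calc |QQ d' x - QQ d' y|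
          ≤ 4 * (SS (cM d'⁻¹ ⊗ₖ (1 : Matrix (Fin 2) (Fin 2) ℂ))) ^ 2 *
            (‖x - y‖ * (‖x‖ + ‖y‖)) := h6
        _ ≤ 4 * B ^ 2 * ((ε * (2 * S1 + 1)) * ‖w‖ ^ 2) := by
            refine mul_le_mul ?_ h12 (by positivity) (by positivity)
            have := pow_le_pow_left₀ (SS_nonneg _) (hB2' d' hd') 2
            linarith
        _ ≤ 4 * B ^ 2 * ((ε * (2 * S1 + 1)) * (B ^ 2 * hh d w)) := by gcongr
        _ = (4 * B ^ 4 * (ε * (2 * S1 + 1))) * hh d w := by ring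
        _ ≤ (1 / 4) * hh d w := mul_le_mul_of_nonneg_right hε2 hhh
    have h15 := (abs_le.1 h14).1
    linarith

end Pool.Agent.H934R4.AN.TaskQ3N
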