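import Pool.Agent.H934R4.AN.Stmts

/-! Task Q4 of the project ANOSOV (helper30). -/

set_option autoImplicit false

noncomputable section

open Filter Topology Set
open scoped MatrixGroups Kronecker

namespace Pool.Agent.H934R4.AN.TaskQ4N

open Pool.Agent.H934R4.AN

theorem fl_add (s t : ℝ) : fl (s + t) = fl s * fl t := by
  apply Subtype.ext
  show !![Real.exp ((s + t) / 2), 0; 0, Real.exp (-((s + t) / 2))] =
    !![Real.exp (s / 2), 0; 0, Real.exp (-(s / 2))] *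
      !![Real.exp (t / 2), 0; 0, Real.exp (-(t / 2))]
  have h1 : (s + t) / 2 = s / 2 + t / 2 := by ring
  have h2 : -((s + t) / 2) = -(s / 2) + -(t / 2) := by ring
  rw [h1, show -(s / 2 + t / 2) = -(s / 2) + -(t / 2) by ring, Real.exp_add, Real.exp_add,
    Matrix.mul_fin_two]
  simp

theorem fl_zero : fl 0 = 1 := by
  apply Subtype.ext
  show !![Real.exp ((0 : ℝ) / 2), 0; 0, Real.exp (-((0 : ℝ) / 2))] = 1
  ext i j
  fin_cases i <;> fin_cases j <;> simp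

theorem continuous_fl : Continuous fl := by
  unfold fl
  refine Continuous.subtype_mk ?_ _
  apply continuous_matrix
  intro i j
  fin_cases i <;> fin_cases j <;> simp <;> fun_prop

theorem pow_fl (γ g : SL(2, ℝ)) (l : ℝ) (h : γ * g = g * fl l ∨ γ * g = -(g * fl l)) (m : ℕ) :
    γ ^ m * g = g * fl (m * l) ∨ γ ^ m * g = -(g * fl (m * l)) := by
  induction m with
  | zero =>
    left
    rw [pow_zero, one_mul, Nat.cast_zero, zero_mul, fl_zero, mul_one]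
  | succ m ih =>
    have e : ((m + 1 : ℕ) : ℝ) * l = m * l + l := by push_cast; ring
    rw [e, fl_add, pow_succ, mul_assoc]
    rcases h with h | h <;> rcases ih with ih | ih
    · left
      rw [h, ← mul_assoc, ih, mul_assoc]
    · right
      rw [h, ← mul_assoc, ih, neg_mul, mul_assoc]
    · right
      rw [h, mul_neg, ← mul_assoc, ih, mul_assoc]
    · left
      rw [h, mul_neg, ← mul_assoc, ih, neg_mul, neg_neg, mul_assoc]

theorem mulVec_bound (M : Matrix I4 I4 ℂ) (R : ℝ) (hR : 0 ≤ R) (hM : ∀ i j, ‖M i j‖ ≤ R)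
    (x : I4 → ℂ) : ‖M.mulVec x‖ ≤ 4 * R * ‖x‖ := by
  rw [pi_norm_le_iff_of_nonneg (by positivity)]
  intro i
  calc ‖M.mulVec x i‖ = ‖∑ j, M i j * x j‖ := rfl
    _ ≤ ∑ j, ‖M i j * x j‖ := norm_sum_le _ _
    _ ≤ ∑ _j : I4, R * ‖x‖ := by
        apply Finset.sum_le_sum
        intro j _
        rw [norm_mul]
        exact mul_le_mul (hM i j) (norm_le_pi_norm x j) (norm_nonneg _) hR
    _ = 4 * R * ‖x‖ := by
        rw [Finset.sum_const, Finset.card_univ, Fintype.card_prod, Fintype.card_fin]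
        simp
        ring

theorem hh_bound (d : SL(2, ℝ)) (R : ℝ) (hR : 0 ≤ R) (hd : ∀ i j, |(d⁻¹).1 i j| ≤ R)
    (w : I4 → ℂ) : hh d w ≤ 64 * R ^ 2 * ‖w‖ ^ 2 := by
  have h1 : ‖uu d w‖ ≤ 4 * R * ‖w‖ := by
    unfold uu
    apply mulVec_bound _ R hR
    intro i j
    rw [Matrix.kronecker_apply, norm_mul]
    have h2 : ‖cM d⁻¹ i.1 j.1‖ ≤ R := by
      rw [cM, Matrix.map_apply, Complex.norm_real]
      exact hd _ _
    have h3 : ‖(1 : Matrix (Fin 2) (Fin 2) ℂ) i.2 j.2‖ ≤ 1 := by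
      rw [Matrix.one_apply]
      split_ifs <;> simp
    calc ‖cM d⁻¹ i.1 j.1‖ * ‖(1 : Matrix (Fin 2) (Fin 2) ℂ) i.2 j.2‖ ≤ R * 1 :=
          mul_le_mul h2 h3 (norm_nonneg _) hR
      _ = R := mul_one R
  unfold hh
  calc ∑ i : I4, ‖uu d w i‖ ^ 2 ≤ ∑ _i : I4, (4 * R * ‖w‖) ^ 2 := by
        apply Finset.sum_le_sum
        intro i _
        exact pow_le_pow_left₀ (norm_nonneg _) ((norm_le_pi_norm _ i).trans h1) 2
    _ = 64 * R ^ 2 * ‖w‖ ^ 2 := by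
        rw [Finset.sum_const, Finset.card_univ, Fintype.card_prod, Fintype.card_fin]
        simp
        ring

theorem exists_entry_bound (D : Set SL(2, ℝ)) (hD : IsCompact D) :
    ∃ R : ℝ, 0 ≤ R ∧ ∀ d ∈ D, ∀ i j, |(d⁻¹).1 i j| ≤ R := by
  have h : ∀ i j : Fin 2, ∃ R : ℝ, ∀ d ∈ D, ‖(d⁻¹).1 i j‖ ≤ R := by
    intro i j
    apply hD.exists_bound_of_continuousOn
    apply Continuous.continuousOn
    have h1 : Continuous (fun d : SL(2, ℝ) => (d⁻¹).1) := continuous_subtype_val.comp continuous_inv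
    exact h1.matrix_elem i j
  choose R hR using h
  refine ⟨∑ i, ∑ j, |R i j|, by positivity, ?_⟩
  intro d hd i j
  calc |(d⁻¹).1 i j| ≤ R i j := hR i j d hd
    _ ≤ |R i j| := le_abs_self _
    _ ≤ ∑ j, |R i j| := Finset.single_le_sum (f := fun j => |R i j|) (fun _ _ => abs_nonneg _)
        (Finset.mem_univ j)
    _ ≤ ∑ i, ∑ j, |R i j| := Finset.single_le_sum (f := fun i => ∑ j, |R i j|)
        (fun _ _ => Finset.sum_nonneg fun _ _ => abs_nonneg _) (Finset.mem_univ i)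

theorem mat_mul (ρ : Rep Gam I4) (a b : Gam) : mat ρ (a * b) = mat ρ a * mat ρ b := by
  unfold mat
  rw [map_mul]
  rfl

theorem mat_one (ρ : Rep Gam I4) : mat ρ 1 = 1 := by
  unfold mat
  rw [map_one]
  rfl

theorem mat_pow (ρ : Rep Gam I4) (a : Gam) (m : ℕ) : mat ρ (a ^ m) = mat ρ a ^ m := by
  induction m with
  | zero => rw [pow_zero, pow_zero, mat_one]
  | succ m ih => rw [pow_succ, pow_succ, mat_mul, ih]

theorem taskQ4 (h0 : TaskDisc) (h2 : TaskQ2) : TaskQ4 := by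
  intro D hD hcov ρ hstep γ g l hl hγ
  -- the points `d n`
  have hch : ∀ n : ℕ, ∃ a : Gam, (a : SL(2, ℝ)) * (g * fl n) ∈ D := by
    intro n
    obtain ⟨a, ha, h⟩ := hcov (g * fl n)
    exact ⟨⟨a, ha⟩, h⟩
  choose a ha using hch
  obtain ⟨d, hd⟩ : ∃ d : ℕ → SL(2, ℝ), ∀ n, d n = (a n : SL(2, ℝ)) * (g * fl n) := ⟨_, fun _ => rfl⟩
  have hdD : ∀ n, d n ∈ D := fun n => by rw [hd]; exact ha n
  -- the vector
  obtain ⟨w0, hw0⟩ : ∃ w0 : I4 → ℂ, w0 =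
    (cM (d 0) ⊗ₖ (1 : Matrix (Fin 2) (Fin 2) ℂ)).mulVec (Pi.single (1, 0) 1) := ⟨_, rfl⟩
  obtain ⟨v, hv⟩ : ∃ v : I4 → ℂ, v = (mat ρ (a 0)⁻¹).mulVec w0 := ⟨_, rfl⟩
  have huu : uu (d 0) w0 = Pi.single (1, 0) 1 := by
    rw [uu, hw0, Matrix.mulVec_mulVec, ← Matrix.mul_kronecker_mul, ← cM_mul, inv_mul_cancel, cM_one,
      one_mul, Matrix.one_kronecker_one, Matrix.one_mulVec]
  have hq0 : QQ (d 0) w0 = 1 := by
    unfold QQ
    rw [huu]
    simp [Fin.sum_univ_two, Pi.single_apply]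
  have hav : (mat ρ (a 0)).mulVec v = w0 := by
    rw [hv, Matrix.mulVec_mulVec, ← mat_mul, mul_inv_cancel, mat_one, Matrix.one_mulVec]
  -- growth
  have hgrow : ∀ n : ℕ, (5 / 4 : ℝ) ^ n ≤ QQ (d n) ((mat ρ (a n)).mulVec v) := by
    intro n
    induction n with
    | zero => rw [pow_zero, hav, hq0]
    | succ n ih =>
      have h3 := hstep (d n) (hdD n) (d (n + 1)) (hdD (n + 1)) (a n * (a (n + 1))⁻¹) (by
        rw [hd, hd, Subgroup.coe_mul, Subgroup.coe_inv]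
        have e : ((n + 1 : ℕ) : ℝ) = (n : ℝ) + 1 := by push_cast; rfl
        rw [e, fl_add]
        group) ((mat ρ (a n)).mulVec v)
      rw [Matrix.mulVec_mulVec, ← mat_mul, mul_inv_rev, inv_inv, inv_mul_cancel_right] at h3
      have h4 := (h2 (d n) ((mat ρ (a n)).mulVec v)).2.1
      have h5 : QQ (d n) ((mat ρ (a n)).mulVec v) ≤ hh (d n) ((mat ρ (a n)).mulVec v) :=
        (le_abs_self _).trans h4
      rw [pow_succ]
      linarith
  -- the compact set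
  obtain ⟨K, hKdef⟩ : ∃ K : Set SL(2, ℝ), K = (fun p : SL(2, ℝ) × ℝ => p.1 * fl p.2 * g⁻¹) ''
    (D ×ˢ Icc (0 : ℝ) 1) := ⟨_, rfl⟩
  have hK : IsCompact K := by
    rw [hKdef]
    apply (hD.prod isCompact_Icc).image
    exact ((continuous_fst.mul (continuous_fl.comp continuous_snd)).mul continuous_const)
  have hK' : IsCompact ((fun x : SL(2, ℝ) => (-1) * x) '' K) :=
    hK.image (continuous_const.mul continuous_id)
  have hfin := h0 (K ∪ (fun x : SL(2, ℝ) => (-1) * x) '' K) (hK.union hK')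
  obtain ⟨R, hR0, hR⟩ := exists_entry_bound D hD
  -- bound for the matrices
  have hfin2 : {η : Gam | (η : SL(2, ℝ)) ∈ K ∪ (fun x : SL(2, ℝ) => (-1) * x) '' K}.Finite := by
    apply Set.Finite.of_finite_image (f := fun η : Gam => (η : SL(2, ℝ)))
    · apply hfin.subset
      rintro _ ⟨η, hη, rfl⟩
      exact ⟨η.2, hη⟩
    · exact Subtype.val_injective.injOn
  obtain ⟨R', hR'0, hR'⟩ : ∃ R' : ℝ, 0 ≤ R' ∧
      ∀ η ∈ {η : Gam | (η : SL(2, ℝ)) ∈ K ∪ (fun x : SL(2, ℝ) => (-1) * x) '' K},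
      ∀ i j, ‖mat ρ η i j‖ ≤ R' := by
    refine ⟨∑ η ∈ hfin2.toFinset, ∑ i, ∑ j, ‖mat ρ η i j‖, by positivity, ?_⟩
    intro η hη i j
    calc ‖mat ρ η i j‖ ≤ ∑ j, ‖mat ρ η i j‖ :=
          Finset.single_le_sum (f := fun j => ‖mat ρ η i j‖) (fun _ _ => norm_nonneg _)
            (Finset.mem_univ j)
      _ ≤ ∑ i, ∑ j, ‖mat ρ η i j‖ :=
          Finset.single_le_sum (f := fun i => ∑ j, ‖mat ρ η i j‖)
            (fun _ _ => Finset.sum_nonneg fun _ _ => norm_nonneg _) (Finset.mem_univ i)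
      _ ≤ ∑ η ∈ hfin2.toFinset, ∑ i, ∑ j, ‖mat ρ η i j‖ :=
          Finset.single_le_sum (f := fun η => ∑ i, ∑ j, ‖mat ρ η i j‖)
            (fun _ _ => Finset.sum_nonneg fun _ _ => Finset.sum_nonneg fun _ _ => norm_nonneg _)
            (hfin2.mem_toFinset.2 hη)
  obtain ⟨B, hB⟩ : ∃ B : ℝ, B = 64 * R ^ 2 * (4 * R') ^ 2 + 1 := ⟨_, rfl⟩
  have hBpos : 0 < B := by rw [hB]; positivity
  -- the main estimate
  have hmain : ∀ m : ℕ, (5 / 4 : ℝ) ^ (⌊(m : ℝ) * l⌋₊) ≤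
      B * ‖((mat ρ γ⁻¹) ^ m).mulVec v‖ ^ 2 := by
    intro m
    obtain ⟨n, hn⟩ : ∃ n, n = ⌊(m : ℝ) * l⌋₊ := ⟨_, rfl⟩
    obtain ⟨s, hs⟩ : ∃ s, s = (m : ℝ) * l - n := ⟨_, rfl⟩
    have hml : 0 ≤ (m : ℝ) * l := by positivity
    have hs0 : 0 ≤ s := by
      rw [hs, hn]
      linarith [Nat.floor_le hml]
    have hs1 : s ≤ 1 := by
      rw [hs, hn]
      linarith [(Nat.lt_floor_add_one ((m : ℝ) * l)).le]
    have hsplit : fl ((m : ℝ) * l) = fl n * fl s := by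
      rw [← fl_add, hs]
      congr 1
      ring
    have hη : ((a n * γ ^ m : Gam) : SL(2, ℝ)) ∈ K ∪ (fun x : SL(2, ℝ) => (-1) * x) '' K := by
      have hk : d n * fl s * g⁻¹ ∈ K := by
        rw [hKdef]
        exact ⟨(d n, s), ⟨hdD n, hs0, hs1⟩, rfl⟩
      rw [Subgroup.coe_mul, Subgroup.coe_pow]
      rcases pow_fl (γ : SL(2, ℝ)) g l hγ m with h | h
      · left
        have : (a n : SL(2, ℝ)) * (γ : SL(2, ℝ)) ^ m = d n * fl s * g⁻¹ := by
          rw [eq_mul_inv_iff_mul_eq, mul_assoc, h, hd, hsplit]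
          group
        rw [this]
        exact hk
      · right
        refine ⟨d n * fl s * g⁻¹, hk, ?_⟩
        show (-1) * (d n * fl s * g⁻¹) = _
        have : (a n : SL(2, ℝ)) * (γ : SL(2, ℝ)) ^ m = -(d n * fl s) * g⁻¹ := by
          rw [eq_mul_inv_iff_mul_eq, mul_assoc, h, hd, hsplit, mul_neg]
          congr 1
          group
        rw [this, neg_mul, neg_mul, one_mul]
    have h3 := hgrow n
    have h4 := (h2 (d n) ((mat ρ (a n)).mulVec v)).2.1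
    have h5 : (mat ρ (a n)).mulVec v =
        (mat ρ (a n * γ ^ m)).mulVec (((mat ρ γ⁻¹) ^ m).mulVec v) := by
      rw [Matrix.mulVec_mulVec, ← mat_pow, ← mat_mul, inv_pow, mul_inv_cancel_right]
    have h6 := hh_bound (d n) R hR0 (fun i j => hR (d n) (hdD n) i j) ((mat ρ (a n)).mulVec v)
    have h7 : ‖(mat ρ (a n)).mulVec v‖ ≤ 4 * R' * ‖((mat ρ γ⁻¹) ^ m).mulVec v‖ := by
      rw [h5]
      exact mulVec_bound _ R' hR'0 (fun i j => hR' _ hη i j) _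
    have h8 : ‖(mat ρ (a n)).mulVec v‖ ^ 2 ≤ (4 * R') ^ 2 * ‖((mat ρ γ⁻¹) ^ m).mulVec v‖ ^ 2 := by
      rw [← mul_pow]
      exact pow_le_pow_left₀ (norm_nonneg _) h7 2
    rw [← hn]
    calc (5 / 4 : ℝ) ^ n ≤ QQ (d n) ((mat ρ (a n)).mulVec v) := h3
      _ ≤ hh (d n) ((mat ρ (a n)).mulVec v) := (le_abs_self _).trans h4
      _ ≤ 64 * R ^ 2 * ‖(mat ρ (a n)).mulVec v‖ ^ 2 := h6
      _ ≤ 64 * R ^ 2 * ((4 * R') ^ 2 * ‖((mat ρ γ⁻¹) ^ m).mulVec v‖ ^ 2) :=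
          mul_le_mul_of_nonneg_left h8 (by positivity)
      _ ≤ B * ‖((mat ρ γ⁻¹) ^ m).mulVec v‖ ^ 2 := by
          rw [hB]
          have : 0 ≤ ‖((mat ρ γ⁻¹) ^ m).mulVec v‖ ^ 2 := by positivity
          nlinarith
  refine ⟨v, √((4 / 5) / B), Real.sqrt_pos.2 (by positivity), ?_⟩
  intro m
  have h3 := hmain m
  have hml : 0 ≤ (m : ℝ) * l := by positivity
  have h4 : (5 / 4 : ℝ) ^ ((m : ℝ) * l) * (4 / 5) ≤ (5 / 4 : ℝ) ^ (⌊(m : ℝ) * l⌋₊) := by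
    have h5 : (m : ℝ) * l ≤ ((⌊(m : ℝ) * l⌋₊ : ℕ) : ℝ) + 1 := (Nat.lt_floor_add_one _).le
    have h6 : (5 / 4 : ℝ) ^ ((m : ℝ) * l) ≤ (5 / 4 : ℝ) ^ (((⌊(m : ℝ) * l⌋₊ : ℕ) : ℝ) + 1) :=
      Real.rpow_le_rpow_of_exponent_le (by norm_num) h5
    rw [Real.rpow_add (by norm_num), Real.rpow_natCast, Real.rpow_one] at h6
    linarith
  have h5 : (5 / 4 : ℝ) ^ ((m : ℝ) * l) = (((5 / 4 : ℝ) ^ (l / 2)) ^ m) ^ 2 := by
    rw [← pow_mul, ← Real.rpow_natCast, ← Real.rpow_mul (by norm_num)]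
    congr 1
    push_cast
    ring
  have hsq : (√((4 / 5) / B) * ((5 / 4 : ℝ) ^ (l / 2)) ^ m) ^ 2 ≤
      ‖((mat ρ γ⁻¹) ^ m).mulVec v‖ ^ 2 := by
    rw [mul_pow, Real.sq_sqrt (by positivity), ← h5, div_mul_eq_mul_div, div_le_iff₀ hBpos]
    linarith
  exact (pow_le_pow_iff_left₀ (by positivity) (norm_nonneg _) two_ne_zero).1 hsq

end Pool.Agent.H934R4.AN.TaskQ4N
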