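import Pool.Agent.H934R4.AN.Stmts

/-! ANOSOV, TaskReps (helper142). -/

set_option autoImplicit false

noncomputable section

namespace Pool.Agent.H934R4.AN.TaskRepsN

open Pool.Agent.H934R4.AN

theorem qmul_conj_mul (x y : Q4) : ∀ i, qmul (qmul x (qconj y)) y i = qn y * x i := by
  intro i
  fin_cases i <;> simp [qmul, qconj, qn] <;> ring

theorem qn_mul (x y : Q4) : qn (qmul x y) = qn x * qn y := by
  simp [qmul, qn]; ring

theorem qn_conj (x : Q4) : qn (qconj x) = qn x := by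
  simp [qconj, qn]

theorem e2_star (x : ℤ√2) : e2 x = e1 (star x) := by
  simp [e1, e2]; ring

theorem e2_inj {x y : ℤ√2} (h : e2 x = e2 y) : x = y := by
  rw [e2_star, e2_star] at h
  exact star_injective (e1_inj h)

theorem e1_ne {n : ℤ√2} (hn : n ≠ 0) : e1 n ≠ 0 := fun h => hn (e1_inj (by rw [h, e1_zero]))
theorem e2_ne {n : ℤ√2} (hn : n ≠ 0) : e2 n ≠ 0 := fun h => hn (e2_inj (by rw [h, e2_zero]))

theorem norm_ne {n : ℤ√2} (hn : n ≠ 0) : n.norm ≠ 0 := by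
  intro h
  have h1 : ((n.norm : ℤ) : ℤ√2) = n * star n := Zsqrtd.norm_eq_mul_conj n
  rw [h] at h1
  have h2 := congrArg e1 h1
  rw [e1_mul, ← e2_star] at h2
  have h3 : e1 ((0 : ℤ) : ℤ√2) = 0 := by simp [e1]
  rw [h3] at h2
  rcases mul_eq_zero.1 h2.symm with h4 | h4
  · exact e1_ne hn h4
  · exact e2_ne hn h4

theorem cancel {n a b : ℤ√2} (hn : n ≠ 0) (h : n * a = n * b) : a = b := by
  apply e1_inj
  have h1 := congrArg e1 h
  rw [e1_mul, e1_mul] at h1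
  exact mul_left_cancel₀ (e1_ne hn) h1

theorem qn_ne {x : Q4} (hx : x ≠ 0) : qn x ≠ 0 := by
  intro h
  have h1 := congrArg e2 h
  have hs : 0 < √(2 : ℝ) := Real.sqrt_pos.2 (by norm_num)
  rw [qn, e2_sub, e2_add, e2_sub, e2_mul, e2_mul, e2_mul, e2_mul, e2_mul, e2_mul, e2_w2,
    e2_zero] at h1
  apply hx
  have g0 := mul_self_nonneg (e2 (x 0))
  have g1 := mul_nonneg hs.le (mul_self_nonneg (e2 (x 1)))
  have g2 := mul_self_nonneg (e2 (x 2))
  have g3 := mul_nonneg hs.le (mul_self_nonneg (e2 (x 3)))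
  have k0 : e2 (x 0) * e2 (x 0) = 0 := by nlinarith
  have k1 : √2 * (e2 (x 1) * e2 (x 1)) = 0 := by nlinarith
  have k2 : e2 (x 2) * e2 (x 2) = 0 := by nlinarith
  have k3 : √2 * (e2 (x 3) * e2 (x 3)) = 0 := by nlinarith
  have l0 : e2 (x 0) = 0 := mul_self_eq_zero.1 k0
  have l1 : e2 (x 1) = 0 := by
    rcases mul_eq_zero.1 k1 with h | h
    · exact absurd h hs.ne'
    · exact mul_self_eq_zero.1 h
  have l2 : e2 (x 2) = 0 := mul_self_eq_zero.1 k2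
  have l3 : e2 (x 3) = 0 := by
    rcases mul_eq_zero.1 k3 with h | h
    · exact absurd h hs.ne'
    · exact mul_self_eq_zero.1 h
  funext i
  apply e2_inj
  fin_cases i
  · show e2 (x 0) = e2 0; rw [l0, e2_zero]
  · show e2 (x 1) = e2 0; rw [l1, e2_zero]
  · show e2 (x 2) = e2 0; rw [l2, e2_zero]
  · show e2 (x 3) = e2 0; rw [l3, e2_zero]

/-- the key step -/
theorem key (x y : Q4) (n : ℤ√2) (hn : n ≠ 0) (hx : qn x = n) (hy : qn y = n)
    (h : ∀ i, 3 * n ∣ x i - y i) : ∃ u : Q4, Cong u ∧ qn u = 1 ∧ x = qmul u y := by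
  choose a ha using h
  have hxa : ∀ i, x i = y i + 3 * n * a i := fun i => by rw [← ha i]; ring
  -- z = x * conj y = n + 3 n (a * conj y)
  set b : Q4 := qmul a (qconj y) with hb
  set u : Q4 := ![1 + 3 * b 0, 3 * b 1, 3 * b 2, 3 * b 3] with hu
  have hz : ∀ i, qmul x (qconj y) i = n * u i := by
    intro i
    have hy' : y 0 * y 0 - w2 * (y 1 * y 1) + y 2 * y 2 - w2 * (y 3 * y 3) = n := by
      rw [← hy]; rfl
    fin_cases i
    · show x 0 * y 0 + w2 * (x 1 * -y 1) - x 2 * -y 2 + w2 * (x 3 * -y 3) =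
        n * (1 + 3 * (a 0 * y 0 + w2 * (a 1 * -y 1) - a 2 * -y 2 + w2 * (a 3 * -y 3)))
      rw [hxa 0, hxa 1, hxa 2, hxa 3]
      linear_combination hy'
    · show x 0 * -y 1 + x 1 * y 0 + x 2 * -y 3 - x 3 * -y 2 =
        n * (3 * (a 0 * -y 1 + a 1 * y 0 + a 2 * -y 3 - a 3 * -y 2))
      rw [hxa 0, hxa 1, hxa 2, hxa 3]
      ring
    · show x 0 * -y 2 + x 2 * y 0 + w2 * (x 1 * -y 3) - w2 * (x 3 * -y 1) =
        n * (3 * (a 0 * -y 2 + a 2 * y 0 + w2 * (a 1 * -y 3) - w2 * (a 3 * -y 1)))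
      rw [hxa 0, hxa 1, hxa 2, hxa 3]
      ring
    · show x 0 * -y 3 + x 3 * y 0 + x 1 * -y 2 - x 2 * -y 1 =
        n * (3 * (a 0 * -y 3 + a 3 * y 0 + a 1 * -y 2 - a 2 * -y 1))
      rw [hxa 0, hxa 1, hxa 2, hxa 3]
      ring
  refine ⟨u, ⟨⟨b 0, by simp [hu]⟩, ⟨b 1, by simp [hu]⟩, ⟨b 2, by simp [hu]⟩, ⟨b 3, by simp [hu]⟩⟩, ?_, ?_⟩
  · have h1 : qn (qmul x (qconj y)) = n * n := by rw [qn_mul, qn_conj, hx, hy]
    have h2 : qn (qmul x (qconj y)) = n * (n * qn u) := by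
      rw [qn, hz 0, hz 1, hz 2, hz 3, qn]; ring
    have h3 : n * (n * qn u) = n * (n * 1) := by rw [← h2, h1, mul_one]
    exact cancel hn (cancel hn h3)
  · funext i
    apply cancel hn
    have h1 := qmul_conj_mul x y i
    rw [hy] at h1
    rw [← h1]
    have h2 : ∀ i, qmul (qmul x (qconj y)) y i = n * qmul u y i := by
      intro i
      fin_cases i
      · show qmul x (qconj y) 0 * y 0 + w2 * (qmul x (qconj y) 1 * y 1) - qmul x (qconj y) 2 * y 2 +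
            w2 * (qmul x (qconj y) 3 * y 3) =
          n * (u 0 * y 0 + w2 * (u 1 * y 1) - u 2 * y 2 + w2 * (u 3 * y 3))
        rw [hz 0, hz 1, hz 2, hz 3]; ring
      · show qmul x (qconj y) 0 * y 1 + qmul x (qconj y) 1 * y 0 + qmul x (qconj y) 2 * y 3 -
            qmul x (qconj y) 3 * y 2 =
          n * (u 0 * y 1 + u 1 * y 0 + u 2 * y 3 - u 3 * y 2)
        rw [hz 0, hz 1, hz 2, hz 3]; ring
      · show qmul x (qconj y) 0 * y 2 + qmul x (qconj y) 2 * y 0 + w2 * (qmul x (qconj y) 1 * y 3) -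
            w2 * (qmul x (qconj y) 3 * y 1) =
          n * (u 0 * y 2 + u 2 * y 0 + w2 * (u 1 * y 3) - w2 * (u 3 * y 1))
        rw [hz 0, hz 1, hz 2, hz 3]; ring
      · show qmul x (qconj y) 0 * y 3 + qmul x (qconj y) 3 * y 0 + qmul x (qconj y) 1 * y 2 -
            qmul x (qconj y) 2 * y 1 =
          n * (u 0 * y 3 + u 3 * y 0 + u 1 * y 2 - u 2 * y 1)
        rw [hz 0, hz 1, hz 2, hz 3]; ring
    exact h2 i

theorem fin_box (C : ℝ) : {n : ℤ√2 | |e1 n| ≤ C ∧ |e2 n| ≤ C}.Finite := by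
  obtain ⟨N, hN⟩ := exists_nat_ge C
  have hfin : (Set.Icc (-(N : ℤ)) N ×ˢ Set.Icc (-(N : ℤ)) N : Set (ℤ × ℤ)).Finite :=
    (Set.finite_Icc _ _).prod (Set.finite_Icc _ _)
  refine (hfin.image (fun p : ℤ × ℤ => (⟨p.1, p.2⟩ : ℤ√2))).subset ?_
  rintro n ⟨h1, h2⟩
  refine ⟨(n.re, n.im), ?_, by ext <;> rfl⟩
  rw [abs_le] at h1 h2
  have hs : (1 : ℝ) ≤ √2 := by
    rw [show (1 : ℝ) = √1 from Real.sqrt_one.symm]
    exact Real.sqrt_le_sqrt (by norm_num)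
  have hre : |(n.re : ℝ)| ≤ N := by
    rw [abs_le]
    constructor <;> simp only [e1, e2] at h1 h2 <;> linarith [h1.1, h1.2, h2.1, h2.2]
  have him : |(n.im : ℝ)| ≤ N := by
    have h3 : |(n.im : ℝ) * √2| ≤ N := by
      rw [abs_le]
      constructor <;> simp only [e1, e2] at h1 h2 <;> linarith [h1.1, h1.2, h2.1, h2.2]
    rw [abs_mul, abs_of_nonneg (Real.sqrt_nonneg 2)] at h3
    have := mul_le_mul_of_nonneg_left hs (abs_nonneg (n.im : ℝ))
    linarith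
  rw [abs_le] at hre him
  refine ⟨⟨?_, ?_⟩, ⟨?_, ?_⟩⟩
  · exact_mod_cast hre.1
  · exact_mod_cast hre.2
  · exact_mod_cast him.1
  · exact_mod_cast him.2

theorem taskReps : TaskReps := by
  intro C
  classical
  have hF := fin_box C
  set F : Finset (ℤ√2) := hF.toFinset with hFdef
  set M : ℕ := 3 * ∏ n ∈ F.erase 0, n.norm.natAbs with hM
  have hM0 : M ≠ 0 := by
    rw [hM]
    refine mul_ne_zero (by norm_num) (Finset.prod_ne_zero_iff.2 fun n hn => ?_)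
    exact Int.natAbs_ne_zero.2 (norm_ne (Finset.ne_of_mem_erase hn))
  haveI : NeZero M := ⟨hM0⟩
  have hdvd : ∀ n ∈ F, n ≠ 0 → (3 * n : ℤ√2) ∣ ((M : ℤ) : ℤ√2) := by
    intro n hn hn0
    have h1 : n.norm.natAbs ∣ ∏ n ∈ F.erase 0, n.norm.natAbs :=
      Finset.dvd_prod_of_mem _ (Finset.mem_erase.2 ⟨hn0, hn⟩)
    obtain ⟨k, hk⟩ := h1
    have h2 : (n.norm) ∣ ((n.norm.natAbs : ℕ) : ℤ) := by
      rw [Int.dvd_natAbs]
    obtain ⟨l, hl⟩ := h2
    have h3 : ((M : ℤ)) = 3 * (n.norm * l * k) := by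
      rw [hM, hk]; push_cast
      rw [← hl]
      push_cast
      ring
    have h4 : ((M : ℤ) : ℤ√2) = 3 * n * (star n * (l : ℤ) * (k : ℤ)) := by
      rw [h3]; push_cast
      rw [Zsqrtd.norm_eq_mul_conj n]; ring
    exact ⟨_, h4⟩
  set X : Set Q4 := {x | x ≠ 0 ∧ |e1 (qn x)| ≤ C ∧ |e2 (qn x)| ≤ C} with hX
  let σ : Q4 → (ℤ√2) × (Fin 4 → ZMod M × ZMod M) :=
    fun x => (qn x, fun i => (((x i).re : ZMod M), ((x i).im : ZMod M)))
  have hfin : (σ '' X).Finite := by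
    have h1 : ((F : Set (ℤ√2)) ×ˢ (Set.univ : Set (Fin 4 → ZMod M × ZMod M))).Finite :=
      (Finset.finite_toSet F).prod Set.finite_univ
    refine h1.subset ?_
    rintro _ ⟨x, hx, rfl⟩
    refine ⟨?_, Set.mem_univ _⟩
    show qn x ∈ (F : Set (ℤ√2))
    rw [Finset.mem_coe, hFdef, Set.Finite.mem_toFinset]
    exact hx.2
  obtain ⟨S, hSX, hSfin, hSimg⟩ := (Set.exists_subset_image_finite_and (f := σ) (s := X)
    (p := fun t => t = σ '' X)).1 ⟨σ '' X, subset_rfl, hfin, rfl⟩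
  refine ⟨hSfin.toFinset, fun y hy => qn_ne (hSX (hSfin.mem_toFinset.1 hy)).1, ?_⟩
  intro x hx0 hx1 hx2
  have hxX : x ∈ X := ⟨hx0, hx1, hx2⟩
  have h1 : σ x ∈ σ '' S := by rw [hSimg]; exact ⟨x, hxX, rfl⟩
  obtain ⟨y, hyS, hyx⟩ := h1
  refine ⟨y, hSfin.mem_toFinset.2 hyS, ?_⟩
  have hq : qn y = qn x := congrArg Prod.fst hyx
  have hnF : qn x ∈ F := by
    rw [hFdef, Set.Finite.mem_toFinset]
    exact hxX.2
  refine key x y (qn x) (qn_ne hx0) rfl hq fun i => ?_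
  refine (hdvd _ hnF (qn_ne hx0)).trans ?_
  rw [Zsqrtd.intCast_dvd]
  have h2 := congrFun (congrArg Prod.snd hyx) i
  have h3 : (((y i).re : ℤ) : ZMod M) = ((x i).re : ℤ) := congrArg Prod.fst h2
  have h4 : (((y i).im : ℤ) : ZMod M) = ((x i).im : ℤ) := congrArg Prod.snd h2
  exact ⟨(ZMod.intCast_eq_intCast_iff_dvd_sub _ _ _).1 h3,
    (ZMod.intCast_eq_intCast_iff_dvd_sub _ _ _).1 h4⟩

end Pool.Agent.H934R4.AN.TaskRepsN
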