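import Pool.Agent.H934R4.AN.Stmts

/-!
# An absolutely irreducible representation is determined by its characteristic polynomials
-/

set_option autoImplicit false

noncomputable section

open Module

namespace Pool.Agent.H934R4.AN.TaskSatN

variable {G : Type*} [Monoid G] {n : Type*} [Fintype n] [DecidableEq n]

/-- trace form: if `trace (x * a g) = 0` for all `g` in a spanning family, then `x = 0` -/
theorem eq_zero_of_trace {a : G →* Matrix n n ℂ} (ha : Submodule.span ℂ (Set.range a) = ⊤)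
    {x : Matrix n n ℂ} (hx : ∀ g, (x * a g).trace = 0) : x = 0 := by
  rw [Matrix.ext_iff_trace_mul_right]
  intro y
  have hy : y ∈ Submodule.span ℂ (Set.range a) := by rw [ha]; trivial
  rw [Matrix.zero_mul, Matrix.trace_zero]
  induction hy using Submodule.span_induction with
  | mem y hy =>
    obtain ⟨g, rfl⟩ := hy
    exact hx g
  | zero => simp
  | add y z _ _ hy hz => rw [Matrix.mul_add, Matrix.trace_add, hy, hz, add_zero]
  | smul c y _ hy => rw [Matrix.mul_smul, Matrix.trace_smul, hy, smul_zero]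

/-- the linear extension of a matrix representation -/
def ext (a : G →* Matrix n n ℂ) : MonoidAlgebra ℂ G →ₐ[ℂ] Matrix n n ℂ :=
  MonoidAlgebra.lift ℂ (Matrix n n ℂ) G a

theorem ext_of (a : G →* Matrix n n ℂ) (g : G) : ext a (MonoidAlgebra.of ℂ G g) = a g :=
  MonoidAlgebra.lift_of a g

theorem ext_surj {a : G →* Matrix n n ℂ} (ha : Submodule.span ℂ (Set.range a) = ⊤) :
    Function.Surjective (ext a) := by
  intro y
  have hy : y ∈ Submodule.span ℂ (Set.range a) := by rw [ha]; trivial
  have hle : Submodule.span ℂ (Set.range a) ≤ LinearMap.range (ext a).toLinearMap := by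
    rw [Submodule.span_le]
    rintro _ ⟨g, rfl⟩
    exact ⟨MonoidAlgebra.of ℂ G g, ext_of a g⟩
  obtain ⟨u, hu⟩ := hle hy
  exact ⟨u, hu⟩

theorem trace_ext {a b : G →* Matrix n n ℂ} (hab : ∀ g, (a g).trace = (b g).trace)
    (u : MonoidAlgebra ℂ G) : (ext a u).trace = (ext b u).trace := by
  have h : (Matrix.traceLinearMap n ℂ ℂ).comp (ext a).toLinearMap =
      (Matrix.traceLinearMap n ℂ ℂ).comp (ext b).toLinearMap := by
    apply MonoidAlgebra.lhom_ext'
    intro g
    apply LinearMap.ext_ring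
    have h1 := ext_of a g
    have h2 := ext_of b g
    rw [MonoidAlgebra.of_apply] at h1 h2
    simp only [LinearMap.comp_apply, AlgHom.toLinearMap_apply, Matrix.traceLinearMap_apply]
    show (ext a (MonoidAlgebra.single g 1)).trace = (ext b (MonoidAlgebra.single g 1)).trace
    rw [h1, h2, hab]
  exact LinearMap.congr_fun h u

theorem ker_le {a b : G →* Matrix n n ℂ} (ha : Submodule.span ℂ (Set.range a) = ⊤)
    (hab : ∀ g, (a g).trace = (b g).trace) :
    LinearMap.ker (ext b).toLinearMap ≤ LinearMap.ker (ext a).toLinearMap := by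
  intro u hu
  rw [LinearMap.mem_ker, AlgHom.toLinearMap_apply] at hu ⊢
  apply eq_zero_of_trace ha
  intro g
  rw [← ext_of a g, ← map_mul, trace_ext hab, map_mul, hu, Matrix.zero_mul, Matrix.trace_zero]

theorem ext_surj' {a b : G →* Matrix n n ℂ} (ha : Submodule.span ℂ (Set.range a) = ⊤)
    (hab : ∀ g, (a g).trace = (b g).trace) : Function.Surjective (ext b) := by
  have hle := ker_le ha hab
  let q : (MonoidAlgebra ℂ G ⧸ LinearMap.ker (ext b).toLinearMap) →ₗ[ℂ] Matrix n n ℂ :=
    Submodule.liftQ _ (ext a).toLinearMap hle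
  let e := LinearMap.quotKerEquivRange (ext b).toLinearMap
  let s : LinearMap.range (ext b).toLinearMap →ₗ[ℂ] Matrix n n ℂ := q.comp e.symm.toLinearMap
  have hs : Function.Surjective s := by
    apply Function.Surjective.comp _ e.symm.surjective
    intro y
    obtain ⟨u, hu⟩ := ext_surj ha y
    exact ⟨Submodule.Quotient.mk u, hu⟩
  have h1 := LinearMap.finrank_le_finrank_of_surjective hs
  have h2 : LinearMap.range (ext b).toLinearMap = ⊤ :=
    Submodule.eq_top_of_finrank_eq (le_antisymm (Submodule.finrank_le _) h1)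
  intro y
  have hy : y ∈ LinearMap.range (ext b).toLinearMap := by rw [h2]; trivial
  obtain ⟨u, hu⟩ := hy
  exact ⟨u, hu⟩

theorem exists_algEquiv {a b : G →* Matrix n n ℂ} (ha : Submodule.span ℂ (Set.range a) = ⊤)
    (hab : ∀ g, (a g).trace = (b g).trace) :
    ∃ S : Matrix n n ℂ ≃ₐ[ℂ] Matrix n n ℂ, ∀ g, S (b g) = a g := by
  have hle := ker_le ha hab
  have hsb := ext_surj' ha hab
  let q : (MonoidAlgebra ℂ G ⧸ LinearMap.ker (ext b).toLinearMap) →ₗ[ℂ] Matrix n n ℂ :=
    Submodule.liftQ _ (ext a).toLinearMap hle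
  let e := LinearMap.quotKerEquivOfSurjective (ext b).toLinearMap hsb
  let s : Matrix n n ℂ →ₗ[ℂ] Matrix n n ℂ := q.comp e.symm.toLinearMap
  have hs : ∀ u, s (ext b u) = ext a u := by
    intro u
    have h1 : e.symm (ext b u) = Submodule.Quotient.mk u := by
      rw [LinearEquiv.symm_apply_eq]
      rfl
    show q (e.symm (ext b u)) = ext a u
    rw [h1]
    rfl
  have hsurj : Function.Surjective s := by
    intro y
    obtain ⟨u, hu⟩ := ext_surj ha y
    exact ⟨ext b u, by rw [hs, hu]⟩
  have hinj : Function.Injective s := LinearMap.injective_iff_surjective.2 hsurj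
  let S0 := LinearEquiv.ofBijective s ⟨hinj, hsurj⟩
  have h1 : S0 1 = 1 := by
    show s 1 = 1
    have h := hs 1
    rw [map_one (ext b), map_one (ext a)] at h
    exact h
  have hm : ∀ x y, S0 (x * y) = S0 x * S0 y := by
    intro x y
    obtain ⟨u, rfl⟩ := hsb x
    obtain ⟨v, rfl⟩ := hsb y
    show s (ext b u * ext b v) = s (ext b u) * s (ext b v)
    rw [← map_mul, hs, hs, hs, map_mul]
  refine ⟨AlgEquiv.ofLinearEquiv S0 h1 hm, fun g => ?_⟩
  show s (b g) = a g
  rw [← ext_of b g, hs, ext_of]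

theorem exists_conj {a b : G →* Matrix n n ℂ} (ha : Submodule.span ℂ (Set.range a) = ⊤)
    (hab : ∀ g, (a g).trace = (b g).trace) :
    ∃ h : Matrix n n ℂ, h.det ≠ 0 ∧ ∀ g, h * a g = b g * h := by
  obtain ⟨S, hS⟩ := exists_algEquiv ha hab
  let f : End ℂ (n → ℂ) ≃ₐ[ℂ] End ℂ (n → ℂ) :=
    (Matrix.toLinAlgEquiv' (R := ℂ) (n := n)).symm.trans (S.trans Matrix.toLinAlgEquiv')
  obtain ⟨T, hT⟩ := f.eq_linearEquivConjAlgEquiv
  have key : ∀ x : Matrix n n ℂ, Matrix.toLinAlgEquiv' (S x) =
      T.toLinearMap ∘ₗ Matrix.toLinAlgEquiv' x ∘ₗ T.symm.toLinearMap := by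
    intro x
    have h1 := congrArg (fun F : End ℂ (n → ℂ) ≃ₐ[ℂ] End ℂ (n → ℂ) => F (Matrix.toLinAlgEquiv' x)) hT
    simp only [LinearEquiv.conjAlgEquiv_apply] at h1
    rw [← h1]
    simp [f]
  refine ⟨LinearMap.toMatrix' T.symm.toLinearMap, ?_, fun g => ?_⟩
  · have h2 : LinearMap.toMatrix' T.symm.toLinearMap * LinearMap.toMatrix' T.toLinearMap = 1 := by
      rw [← LinearMap.toMatrix'_comp]
      simp
    intro h0
    have := congrArg Matrix.det h2
    rw [Matrix.det_mul, h0, zero_mul, Matrix.det_one] at this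
    exact zero_ne_one this
  · have h3 := key (b g)
    rw [hS] at h3
    have h4 : T.symm.toLinearMap ∘ₗ Matrix.toLinAlgEquiv' (a g) =
        Matrix.toLinAlgEquiv' (b g) ∘ₗ T.symm.toLinearMap := by
      rw [h3]
      ext v
      simp
    have h5 := congrArg LinearMap.toMatrix' h4
    rw [LinearMap.toMatrix'_comp, LinearMap.toMatrix'_comp] at h5
    have h6 : ∀ M : Matrix n n ℂ, LinearMap.toMatrix' (Matrix.toLinAlgEquiv' M) = M := fun M =>
      LinearMap.toMatrixAlgEquiv'_toLinAlgEquiv' M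
    rw [h6, h6] at h5
    exact h5

/-- `mat ρ` as a monoid homomorphism -/
def matHom (ρ : Rep Gam I4) : Gam →* Matrix I4 I4 ℂ where
  toFun := mat ρ
  map_one' := by
    show ((show Gam →* Matrix.SpecialLinearGroup I4 ℂ from ρ) 1).1 = 1
    rw [map_one]; rfl
  map_mul' γ δ := by
    show ((show Gam →* Matrix.SpecialLinearGroup I4 ℂ from ρ) (γ * δ)).1 = _
    rw [map_mul]; rfl

theorem taskSat : TaskSat := by
  intro ρ ρ' hρ hch
  have hab : ∀ g, (matHom ρ g).trace = (matHom ρ' g).trace := by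
    intro g
    rw [Matrix.trace_eq_neg_charpoly_coeff, Matrix.trace_eq_neg_charpoly_coeff]
    show -((mat ρ g).charpoly.coeff _) = -((mat ρ' g).charpoly.coeff _)
    rw [hch g]
  have ha : Submodule.span ℂ (Set.range (matHom ρ)) = ⊤ := hρ
  exact exists_conj ha hab

end Pool.Agent.H934R4.AN.TaskSatN
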