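import Pool.Agent.H934R4.AN.Stmts

/-!
# The closed geodesic of the vector `1` is simple (task TaskSimple, helper54)
-/

set_option autoImplicit false

noncomputable section

open Filter Topology Set
open scoped MatrixGroups

namespace Pool.Agent.H934R4.AN.TaskSimpleN

open Pool.Agent.H934R4.AN

theorem smulI (g : SL(2, ℝ)) : ((g • UpperHalfPlane.I : UpperHalfPlane) : ℂ) =
    ((g.1 0 0 : ℂ) * Complex.I + (g.1 0 1 : ℂ)) / ((g.1 1 0 : ℂ) * Complex.I + (g.1 1 1 : ℂ)) := by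
  rw [UpperHalfPlane.coe_specialLinearGroup_apply]
  rfl

theorem den_ne (g : SL(2, ℝ)) : ((g.1 1 0 : ℂ) * Complex.I + (g.1 1 1 : ℂ)) ≠ 0 := by
  intro h
  have hre := congrArg Complex.re h
  have him := congrArg Complex.im h
  simp at hre him
  have hd := g.2
  rw [Matrix.det_fin_two, hre, him] at hd
  simp at hd

theorem smulI_eq_iff (g g' : SL(2, ℝ)) : g • UpperHalfPlane.I = g' • UpperHalfPlane.I ↔
    (g.1 0 1 * g'.1 1 1 - g.1 0 0 * g'.1 1 0 = g'.1 0 1 * g.1 1 1 - g'.1 0 0 * g.1 1 0) ∧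
    (g.1 0 0 * g'.1 1 1 + g.1 0 1 * g'.1 1 0 = g'.1 0 0 * g.1 1 1 + g'.1 0 1 * g.1 1 0) := by
  rw [UpperHalfPlane.ext_iff, smulI, smulI, div_eq_div_iff (den_ne g) (den_ne g'), Complex.ext_iff]
  simp only [Complex.mul_re, Complex.mul_im, Complex.add_re, Complex.add_im, Complex.ofReal_re,
    Complex.ofReal_im, Complex.I_re, Complex.I_im]
  constructor
  · rintro ⟨h1, h2⟩
    exact ⟨by linarith, by linarith⟩
  · rintro ⟨h1, h2⟩
    exact ⟨by linarith, by linarith⟩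

/-- the reflected inverse -/
def refl (h : SL(2, ℝ)) : SL(2, ℝ) :=
  ⟨!![h.1 1 1, h.1 0 1; h.1 1 0, h.1 0 0], by
    have hd := h.2
    rw [Matrix.det_fin_two] at hd
    rw [Matrix.det_fin_two_of]
    linarith⟩

theorem refl_mem {h : SL(2, ℝ)} (hh : h ∈ Gam) : refl h ∈ Gam := by
  obtain ⟨x, hx, hx2⟩ := hh
  refine ⟨![x 0, -x 1, x 2, x 3], ⟨hx.1, ?_, hx.2.2.1, hx.2.2.2⟩, ?_⟩
  · simpa using hx.2.1
  · show (!![h.1 1 1, h.1 0 1; h.1 1 0, h.1 0 0] : Matrix (Fin 2) (Fin 2) ℝ) = _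
    rw [hx2]
    ext i j
    fin_cases i <;> fin_cases j <;> simp [MM, e1_neg, sub_eq_add_neg]

theorem simple_aux (h0 : TaskFree) (h : SL(2, ℝ)) (hh : h ∈ Gam) (s t : ℝ)
    (he : (h * 1 * fl s) • UpperHalfPlane.I = ((1 : SL(2, ℝ)) * fl t) • UpperHalfPlane.I) :
    h * 1 * fl s = 1 * fl t ∨ h * 1 * fl s = -(1 * fl t) := by
  rw [mul_one, one_mul] at *
  have hd := h.2
  rw [Matrix.det_fin_two] at hd
  have e1 : (h * fl s).1 = h.1 * (fl s).1 := rfl
  have e2 : (fl s).1 = !![Real.exp (s / 2), 0; 0, Real.exp (-(s / 2))] := rfl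
  have e3 : (fl t).1 = !![Real.exp (t / 2), 0; 0, Real.exp (-(t / 2))] := rfl
  have hs : Real.exp (s / 2) * Real.exp (-(s / 2)) = 1 := by rw [← Real.exp_add]; simp
  have ht : Real.exp (t / 2) * Real.exp (-(t / 2)) = 1 := by rw [← Real.exp_add]; simp
  have hp := Real.exp_pos (s / 2)
  have hp' := Real.exp_pos (-(s / 2))
  have hq := Real.exp_pos (t / 2)
  have hq' := Real.exp_pos (-(t / 2))
  generalize hP : Real.exp (s / 2) = p at *
  generalize hP' : Real.exp (-(s / 2)) = p' at *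
  generalize hQ : Real.exp (t / 2) = q at *
  generalize hQ' : Real.exp (-(t / 2)) = q' at *
  rw [smulI_eq_iff, e1, e2, e3] at he
  simp [Matrix.mul_apply, Fin.sum_univ_two] at he
  obtain ⟨he1, he2⟩ := he
  -- the element k
  have hk : h * refl h ∈ Gam := Gam.mul_mem hh (refl_mem hh)
  have ek : (h * refl h).1 = h.1 * (refl h).1 := rfl
  have ek2 : (refl h).1 = !![h.1 1 1, h.1 0 1; h.1 1 0, h.1 0 0] := rfl
  have ek3 : (h * refl h * fl t).1 = h.1 * (refl h).1 * (fl t).1 := rfl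
  have hfix : (h * refl h) • (fl t • UpperHalfPlane.I) = fl t • UpperHalfPlane.I := by
    rw [smul_smul, smulI_eq_iff, ek3, ek2, e3]
    simp [Matrix.mul_apply, Fin.sum_univ_two]
    constructor
    · linear_combination 2 * (h.1 0 0 * p * q') * he1 - 2 * (q * h.1 1 0 * p) * he2 -
        2 * (h.1 0 0 * h.1 0 1 * q' ^ 2 + q ^ 2 * h.1 1 0 * h.1 1 1) * hs
    · ring
  have h1 := h0 _ hk _ hfix
  have h2 : h.1 * (refl h).1 = 1 := by rw [← ek, h1]; rfl
  rw [ek2] at h2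
  have h00 := congrFun (congrFun h2 0) 0
  have h01 := congrFun (congrFun h2 0) 1
  have h10 := congrFun (congrFun h2 1) 0
  simp [Matrix.mul_apply, Fin.sum_univ_two] at h00 h01 h10
  have had : h.1 0 0 * h.1 1 1 = 1 := by linarith
  have ha : h.1 0 0 ≠ 0 := fun h3 => by rw [h3, zero_mul] at had; exact zero_ne_one had
  have hd' : h.1 1 1 ≠ 0 := fun h3 => by rw [h3, mul_zero] at had; exact zero_ne_one had
  have hb : h.1 0 1 = 0 := by
    have h3 : h.1 0 0 * h.1 0 1 = 0 := by linarith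
    exact (mul_eq_zero.1 h3).resolve_left ha
  have hc : h.1 1 0 = 0 := by
    have h3 : h.1 1 1 * h.1 1 0 = 0 := by linarith
    exact (mul_eq_zero.1 h3).resolve_left hd'
  have hsq : (h.1 0 0 * p) ^ 2 = q ^ 2 := by
    linear_combination (p * q * h.1 0 0) * he2 + q ^ 2 * had + q ^ 2 * (h.1 0 0 * h.1 1 1) * hs -
      (h.1 0 0 * p) ^ 2 * ht
  rcases sq_eq_sq_iff_eq_or_eq_neg.1 hsq with h3 | h3
  · left
    have h4 : h.1 1 1 * p' = q' := by
      have h5 : q * (h.1 1 1 * p') = q * q' := by rw [← he2, h3]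
      exact mul_left_cancel₀ hq.ne' h5
    apply Subtype.ext
    rw [e1, e2, e3]
    ext i j
    fin_cases i <;> fin_cases j <;> simp [Matrix.mul_apply, Fin.sum_univ_two, hb, hc, h3, h4]
  · right
    have h4 : h.1 1 1 * p' = -q' := by
      have h5 : q * (h.1 1 1 * p') = q * (-q') := by rw [← he2, h3]; ring
      exact mul_left_cancel₀ hq.ne' h5
    apply Subtype.ext
    rw [e1, Matrix.SpecialLinearGroup.coe_neg, e2, e3]
    ext i j
    fin_cases i <;> fin_cases j <;> simp [Matrix.mul_apply, Fin.sum_univ_two, hb, hc, h3, h4]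

/-- the quaternion of the closed geodesic -/
def q0 : Q4 := ![⟨-4481, -3168⟩, ⟨-3768, -2664⟩, 0, 0]

theorem q0_cong : Cong q0 := by
  refine ⟨⟨⟨-1494, -1056⟩, ?_⟩, ⟨⟨-1256, -888⟩, ?_⟩, ⟨0, ?_⟩, ⟨0, ?_⟩⟩
  · show (⟨-4481, -3168⟩ : ℤ√2) - 1 = 3 * ⟨-1494, -1056⟩
    ext <;> simp
  · show (⟨-3768, -2664⟩ : ℤ√2) = 3 * ⟨-1256, -888⟩
    ext <;> simp
  · simp [q0]
  · simp [q0]

/-- the larger eigenvalue -/
def X : ℝ := (4481 + 3168 * √2) + th * (3768 + 2664 * √2)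

theorem X_gt : 1 < X := by
  have h1 : 0 ≤ √(2 : ℝ) := Real.sqrt_nonneg _
  have h2 := th_pos
  unfold X
  have h3 : 0 ≤ th * (3768 + 2664 * √2) := by positivity
  linarith

theorem X_mul : X * ((4481 + 3168 * √2) - th * (3768 + 2664 * √2)) = 1 := by
  have h1 := sqrt2_sq
  have h2 := th_sq
  unfold X
  linear_combination (3168 ^ 2 - 2 * 3768 * 2664 - 2664 ^ 2 * √2) * h1 - (3768 + 2664 * √2) ^ 2 * h2

theorem taskSimple (h : TaskFree) : TaskSimple := by
  refine ⟨⟨2 * Real.log X, ?_, ?_⟩, fun g hg s t he => simple_aux h g hg s t he⟩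
  · have := Real.log_pos X_gt
    linarith
  · have hX : 0 < X := lt_trans one_pos X_gt
    have hinv : X⁻¹ = (4481 + 3168 * √2) - th * (3768 + 2664 * √2) := by
      rw [inv_eq_iff_eq_inv]
      exact eq_inv_of_mul_eq_one_left X_mul
    have hfl : (fl (2 * Real.log X)).1 = !![X, 0; 0, X⁻¹] := by
      show !![Real.exp (2 * Real.log X / 2), 0; 0, Real.exp (-(2 * Real.log X / 2))] = _
      rw [mul_div_cancel_left₀ _ (two_ne_zero), Real.exp_neg, Real.exp_log hX]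
    refine ⟨-(fl (2 * Real.log X)), ⟨q0, q0_cong, ?_⟩, ?_⟩
    · rw [Matrix.SpecialLinearGroup.coe_neg, hfl, hinv]
      ext i j
      fin_cases i <;> fin_cases j <;> simp [MM, q0, e1, X] <;> ring
    · right
      rw [mul_one, one_mul]

end Pool.Agent.H934R4.AN.TaskSimpleN
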