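import Pool.Agent.H934R4.AN.Grp

/-!
# Statements of the tasks of project ANOSOV
-/

set_option autoImplicit false

noncomputable section

open Filter Topology Set
open scoped MatrixGroups Kronecker

namespace Pool.Agent.H934R4.AN

/-- the trace of an element of `Gam` -/
def tr (γ : Gam) : ℝ := ((γ : SL(2, ℝ)).1).trace

/-- the classes in `Out(Gam)` of the automorphisms in `S` are finite in number -/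
def FinClasses (S : Set (MulAut Gam)) : Prop :=
  {x : Mod Gam | ∃ φ ∈ S, (QuotientGroup.mk φ : Mod Gam) = x}.Finite

/-! ### the group -/

def TaskDisc : Prop := ∀ C : Set SL(2, ℝ), IsCompact C → ((Gam : Set SL(2, ℝ)) ∩ C).Finite

def TaskHyp : Prop := ∀ γ : Gam, γ ≠ 1 → 2 < |tr γ|

def TaskFree : Prop := ∀ γ ∈ Gam, ∀ z : UpperHalfPlane, γ • z = z → γ = 1

def TaskMink : Prop := ∃ C : ℝ, ∀ g : SL(2, ℝ), ∃ x : Q4, x ≠ 0 ∧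
  (∀ i j, |(g.1 * MM x) i j| ≤ C) ∧ (∀ i, |e2 (x i)| ≤ C)

def TaskReps : Prop := ∀ C : ℝ, ∃ S : Finset Q4, (∀ y ∈ S, qn y ≠ 0) ∧
  ∀ x : Q4, x ≠ 0 → |e1 (qn x)| ≤ C → |e2 (qn x)| ≤ C →
    ∃ y ∈ S, ∃ u : Q4, Cong u ∧ qn u = 1 ∧ x = qmul u y

def TaskCoc : Prop := ∃ D : Set SL(2, ℝ), IsCompact D ∧ ∀ g : SL(2, ℝ), ∃ γ ∈ Gam, γ * g ∈ D

def TaskFG : Prop := ∃ S : Finset Gam, Subgroup.closure (S : Set Gam) = ⊤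

def TaskDiag : Prop := ∀ γ : SL(2, ℝ), 2 < |γ.1.trace| → ∃ (g : SL(2, ℝ)) (l : ℝ), 0 < l ∧
  (γ * g = g * fl l ∨ γ * g = -(g * fl l)) ∧ |γ.1.trace| = Real.exp (l / 2) + Real.exp (-(l / 2))

/-! ### finiteness in `Out(Gam)` -/

def TaskPair : Prop := ∀ A B A' B' : SL(2, ℝ), 2 < |A.1.trace| → (A * B * A⁻¹ * B⁻¹).1.trace ≠ 2 →
  A.1.trace = A'.1.trace → B.1.trace = B'.1.trace → (A * B).1.trace = (A' * B').1.trace →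
  ∃ h : Matrix (Fin 2) (Fin 2) ℝ, h.det ≠ 0 ∧ h * A.1 = A'.1 * h ∧ h * B.1 = B'.1 * h

def TaskBasis : Prop := ∀ A B : SL(2, ℝ), (A * B * A⁻¹ * B⁻¹).1.trace ≠ 2 →
  ∀ X : Matrix (Fin 2) (Fin 2) ℝ, X.trace = 0 → (X * A.1).trace = 0 → (X * B.1).trace = 0 →
    (X * (A.1 * B.1)).trace = 0 → X = 0

def TaskConj : Prop := ∀ (φ φ' : MulAut Gam) (S : Set Gam) (s t : Gam),
  Subgroup.closure S = ⊤ → s * t ≠ t * s →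
  (∀ w : Gam, (w = s ∨ w = t ∨ w = s * t ∨ ∃ a ∈ S, w = a ∨ w = a * s ∨ w = a * t ∨
    w = a * (s * t)) → tr (φ w) = tr (φ' w)) →
  ∃ h : Matrix (Fin 2) (Fin 2) ℝ, h.det ≠ 0 ∧
    ∀ γ : Gam, h * ((φ γ : Gam) : SL(2, ℝ)).1 = ((φ' γ : Gam) : SL(2, ℝ)).1 * h

def TaskTr : Prop := ∀ R : ℝ, {t : ℝ | |t| ≤ R ∧ ∃ γ : Gam, tr γ = t}.Finite

def TaskNorm : Prop := FinClasses {φ | ∃ h : Matrix (Fin 2) (Fin 2) ℝ, h.det ≠ 0 ∧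
    ∀ γ : Gam, h * (γ : SL(2, ℝ)).1 = ((φ γ : Gam) : SL(2, ℝ)).1 * h}

def TaskNC : Prop := ∃ s t : Gam, s * t ≠ t * s

def TaskFin : Prop := ∃ F : Finset Gam, ∀ R : ℝ, FinClasses {φ | ∀ f ∈ F, |tr (φ f)| ≤ R}

/-! ### the Lyapunov form -/

/-- the vector `(g⁻¹ ⊗ 1) v` -/
def uu (g : SL(2, ℝ)) (v : I4 → ℂ) : I4 → ℂ :=
  (cM g⁻¹ ⊗ₖ (1 : Matrix (Fin 2) (Fin 2) ℂ)).mulVec v

/-- the metric -/
def hh (g : SL(2, ℝ)) (v : I4 → ℂ) : ℝ := ∑ i : I4, ‖uu g v i‖ ^ 2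

/-- the Lyapunov form -/
def QQ (g : SL(2, ℝ)) (v : I4 → ℂ) : ℝ :=
  ∑ j : Fin 2, ‖uu g v (1, j)‖ ^ 2 - ∑ j : Fin 2, ‖uu g v (0, j)‖ ^ 2

def TaskQ1 : Prop := ∀ (γ : Gam) (g : SL(2, ℝ)) (v : I4 → ℂ),
  hh ((γ : SL(2, ℝ)) * g) ((mat rho1 γ).mulVec v) = hh g v ∧
  QQ ((γ : SL(2, ℝ)) * g) ((mat rho1 γ).mulVec v) = QQ g v

def TaskQ2 : Prop := ∀ (g : SL(2, ℝ)) (v : I4 → ℂ),
  QQ g v + (1 / 2) * hh g v ≤ QQ (g * fl 1) v ∧ |QQ g v| ≤ hh g v ∧ QQ (-g) v = QQ g v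

/-- the step inequality for `ρ` on the compact set `D` -/
def Step (D : Set SL(2, ℝ)) (ρ : Rep Gam I4) : Prop :=
  ∀ d ∈ D, ∀ d' ∈ D, ∀ δ : Gam, (δ : SL(2, ℝ)) * d' = d * fl 1 → ∀ w : I4 → ℂ,
    QQ d w + (1 / 4) * hh d w ≤ QQ d' ((mat ρ δ⁻¹).mulVec w)

def TaskQ3 : Prop := ∀ D : Set SL(2, ℝ), IsCompact D →
  ∃ V : Set (Rep Gam I4), IsOpen V ∧ rho1 ∈ V ∧ ∀ ρ ∈ V, Step D ρ

def TaskQ4 : Prop := ∀ D : Set SL(2, ℝ), IsCompact D → (∀ g : SL(2, ℝ), ∃ γ ∈ Gam, γ * g ∈ D) →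
  ∀ ρ : Rep Gam I4, Step D ρ → ∀ (γ : Gam) (g : SL(2, ℝ)) (l : ℝ), 0 < l →
    ((γ : SL(2, ℝ)) * g = g * fl l ∨ (γ : SL(2, ℝ)) * g = -(g * fl l)) →
    ∃ (v : I4 → ℂ) (C : ℝ), 0 < C ∧
      ∀ m : ℕ, C * ((5 / 4 : ℝ) ^ (l / 2)) ^ m ≤ ‖((mat ρ γ⁻¹) ^ m).mulVec v‖

def TaskGelf : Prop := ∀ (A : Matrix I4 I4 ℂ) (v : I4 → ℂ) (C b : ℝ), 0 < C → 0 < b →
  (∀ m : ℕ, C * b ^ m ≤ ‖(A ^ m).mulVec v‖) → ∃ μ : ℂ, A.charpoly.IsRoot μ ∧ b ≤ ‖μ‖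

/-- uniform displacement: every element has a large eigenvalue -/
def Disp (c : ℝ) (ρ : Rep Gam I4) : Prop := ∀ γ : Gam, γ ≠ 1 →
  ∃ μ : ℂ, (mat ρ γ).charpoly.IsRoot μ ∧ (|tr γ| / 2) ^ c ≤ ‖μ‖

def TaskStab : Prop := ∃ (V : Set (Rep Gam I4)) (c : ℝ), IsOpen V ∧ rho1 ∈ V ∧ 0 < c ∧
  ∀ ρ ∈ V, Disp c ρ

/-! ### irreducibility -/

/-- the image of `ρ` spans the algebra of all matrices -/
def SpanTop (ρ : Rep Gam I4) : Prop := Submodule.span ℂ (Set.range (mat ρ)) = ⊤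

def TaskIrr : Prop := SpanTop rho1

def TaskOpenIrr : Prop := IsOpen {ρ : Rep Gam I4 | SpanTop ρ}

def TaskSat : Prop := ∀ ρ ρ' : Rep Gam I4, SpanTop ρ →
  (∀ γ : Gam, (mat ρ γ).charpoly = (mat ρ' γ).charpoly) →
  ∃ h : Matrix I4 I4 ℂ, h.det ≠ 0 ∧ ∀ γ : Gam, h * mat ρ γ = mat ρ' γ * h

def TaskOpenU : Prop := ∀ V : Set (Rep Gam I4), IsOpen V → (∀ ρ ∈ V, SpanTop ρ) →
  IsOpen (cls '' V : Set (CharVar Gam I4))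

/-! ### the domain does not contain the class of `ρ₁` -/

def TaskSimple : Prop := IsSimpleClosed Gam 1

def TaskNot : Prop := (1 : SL(2, ℝ)) ∈ BS Gam → ∀ ρ : Rep Gam I4,
  (∀ γ : Gam, (mat ρ γ).charpoly = (mat rho1 γ).charpoly) → ¬ SimpleAnosov 1 ρ

/-! ### topology of the character variety -/

def TaskT2 : Prop := T2Space (CharVar Gam I4)

def TaskBd : Prop := ∀ K : Set (CharVar Gam I4), IsCompact K → ∀ f : Gam, ∃ C : ℝ,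
  ∀ ρ : Rep Gam I4, cls ρ ∈ K → ∀ μ : ℂ, (mat ρ f).charpoly.IsRoot μ → ‖μ‖ ≤ C

def TaskAct : Prop := (∀ φ : MulAut Gam, Continuous (act φ : CharVar Gam I4 → CharVar Gam I4)) ∧
  (∀ (φ ψ : MulAut Gam) (x : CharVar Gam I4), act (φ * ψ) x = act φ (act ψ x)) ∧
  (∀ x : CharVar Gam I4, act 1 x = x) ∧
  (∀ (γ : Gam) (x : CharVar Gam I4), act (MulAut.conj γ) x = x)

end Pool.Agent.H934R4.AN
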