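import Mathlib
import Pool.Agent.H934R4.AN.Stmts

set_option autoImplicit false

open Filter Topology Set
open scoped MatrixGroups Kronecker

namespace Pool.Agent.H934R4.AN.TaskStabN

theorem tr_inv (γ : Gam) : tr γ⁻¹ = tr γ := by
  unfold tr
  have h : ((γ⁻¹ : Gam) : SL(2, ℝ)) = ((γ : SL(2, ℝ)))⁻¹ := rfl
  rw [h, Matrix.SpecialLinearGroup.coe_inv, Matrix.adjugate_fin_two, Matrix.trace_fin_two,
    Matrix.trace_fin_two]
  simp [add_comm]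

theorem taskStab (h1 : TaskHyp) (h2 : TaskDiag) (h3 : TaskQ3) (h4 : TaskQ4) (h5 : TaskGelf)
    (h6 : TaskCoc) : TaskStab := by
  obtain ⟨D, hD, hcoc⟩ := h6
  obtain ⟨V, hV, hrho, hstep⟩ := h3 D hD
  have hc : 0 < Real.log (5 / 4) := Real.log_pos (by norm_num)
  refine ⟨V, Real.log (5 / 4), hV, hrho, hc, fun ρ hρ γ hγ => ?_⟩
  have hγ' : γ⁻¹ ≠ 1 := inv_ne_one.2 hγ
  have ht : 2 < |tr γ⁻¹| := h1 _ hγ'
  obtain ⟨g, l, hl, hgl, htr⟩ := h2 ((γ⁻¹ : Gam) : SL(2, ℝ)) ht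
  obtain ⟨v, C, hC, hm⟩ := h4 D hD hcoc ρ (hstep ρ hρ) γ⁻¹ g l hl hgl
  rw [inv_inv] at hm
  have hb : (0 : ℝ) < (5 / 4 : ℝ) ^ (l / 2) := Real.rpow_pos_of_pos (by norm_num) _
  obtain ⟨μ, hμ, hbμ⟩ := h5 (mat ρ γ) v C _ hC hb hm
  refine ⟨μ, hμ, le_trans ?_ hbμ⟩
  have htr' : |tr γ| = Real.exp (l / 2) + Real.exp (-(l / 2)) := by
    rw [← tr_inv γ]
    exact htr
  have h7 : |tr γ| / 2 ≤ Real.exp (l / 2) := by
    have : Real.exp (-(l / 2)) ≤ Real.exp (l / 2) := Real.exp_le_exp.2 (by linarith)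
    rw [htr']
    linarith
  calc (|tr γ| / 2) ^ Real.log (5 / 4) ≤ (Real.exp (l / 2)) ^ Real.log (5 / 4) :=
        Real.rpow_le_rpow (by positivity) h7 hc.le
    _ = (5 / 4 : ℝ) ^ (l / 2) := by
        rw [Real.rpow_def_of_pos (by norm_num : (0 : ℝ) < 5 / 4), ← Real.exp_mul, mul_comm]

end Pool.Agent.H934R4.AN.TaskStabN
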