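import Pool.Agent.H934R4.AN.Stmts

/-! Project ANOSOV, TaskT2: the character variety is Hausdorff. -/

set_option autoImplicit false

noncomputable section

open Filter Topology Set
open scoped MatrixGroups Kronecker

namespace Pool.Agent.H934R4.AN.TaskT2N

open Pool.Agent.H934R4.AN

theorem continuous_charpoly_coeff {ι : Type} [Fintype ι] [DecidableEq ι] (n : ℕ) :
    Continuous fun M : Matrix ι ι ℂ => M.charpoly.coeff n := by
  have h : ∀ M : Matrix ι ι ℂ, M.charpoly.coeff n =
      MvPolynomial.eval (fun p : ι × ι => M p.1 p.2) ((Matrix.charpoly.univ ℂ ι).coeff n) := by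
    intro M
    have h1 := Matrix.charpoly.univ_coeff_eval₂Hom ι (RingHom.id ℂ)
      (fun p : ι × ι => M p.1 p.2) n
    have h2 : Matrix.of (Function.curry (fun p : ι × ι => M p.1 p.2)) = M := by
      ext i j; rfl
    rw [h2] at h1
    rw [← h1]
    rfl
  simp only [h]
  refine (MvPolynomial.continuous_eval _).comp ?_
  refine continuous_pi fun p => ?_
  exact (continuous_apply p.2).comp (continuous_apply p.1)

theorem continuous_mat {Γ : Subgroup SL(2, ℝ)} {ι : Type} [Fintype ι] [DecidableEq ι] (γ : Γ) :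
    Continuous fun ρ : Rep Γ ι => mat ρ γ := by
  have h : Continuous (fun (ρ : Rep Γ ι) (γ : Γ) => mat ρ γ) := continuous_induced_dom
  exact (continuous_apply γ).comp h

/-- the invariants -/
def Phi {Γ : Subgroup SL(2, ℝ)} {ι : Type} [Fintype ι] [DecidableEq ι] :
    CharVar Γ ι → (Γ → ℕ → ℂ) :=
  Quotient.lift (fun (ρ : Rep Γ ι) (γ : Γ) (n : ℕ) => (mat ρ γ).charpoly.coeff n) (by
    intro ρ ρ' h
    funext γ n
    have h' : ∀ γ : Γ, (mat ρ γ).charpoly = (mat ρ' γ).charpoly := h
    show (mat ρ γ).charpoly.coeff n = (mat ρ' γ).charpoly.coeff n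
    rw [h' γ])

theorem continuous_Phi {Γ : Subgroup SL(2, ℝ)} {ι : Type} [Fintype ι] [DecidableEq ι] :
    Continuous (Phi : CharVar Γ ι → (Γ → ℕ → ℂ)) := by
  refine Continuous.quotient_lift ?_ _
  refine continuous_pi fun γ => continuous_pi fun n => ?_
  exact (continuous_charpoly_coeff n).comp (continuous_mat γ)

theorem injective_Phi {Γ : Subgroup SL(2, ℝ)} {ι : Type} [Fintype ι] [DecidableEq ι] :
    Function.Injective (Phi : CharVar Γ ι → (Γ → ℕ → ℂ)) := by
  intro x y
  refine Quotient.inductionOn₂ x y fun ρ ρ' h => ?_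
  apply Quotient.sound
  intro γ
  ext n
  exact congrFun (congrFun h γ) n

theorem t2 {Γ : Subgroup SL(2, ℝ)} {ι : Type} [Fintype ι] [DecidableEq ι] :
    T2Space (CharVar Γ ι) :=
  T2Space.of_injective_continuous injective_Phi continuous_Phi

theorem taskT2 : TaskT2 := t2

end Pool.Agent.H934R4.AN.TaskT2N
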