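import Pool.Agent.H934R4.AN.Asm
import Pool.Agent.H934R4.AN.TaskDisc
import Pool.Agent.H934R4.AN.TaskHyp
import Pool.Agent.H934R4.AN.TaskFree
import Pool.Agent.H934R4.AN.TaskMink
import Pool.Agent.H934R4.AN.TaskReps
import Pool.Agent.H934R4.AN.TaskCoc
import Pool.Agent.H934R4.AN.TaskFG
import Pool.Agent.H934R4.AN.TaskDiag
import Pool.Agent.H934R4.AN.TaskPair
import Pool.Agent.H934R4.AN.TaskBasis
import Pool.Agent.H934R4.AN.TaskConj
import Pool.Agent.H934R4.AN.TaskTr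
import Pool.Agent.H934R4.AN.TaskNorm
import Pool.Agent.H934R4.AN.TaskNC
import Pool.Agent.H934R4.AN.TaskFin
import Pool.Agent.H934R4.AN.TaskQ1
import Pool.Agent.H934R4.AN.TaskQ2
import Pool.Agent.H934R4.AN.TaskQ3
import Pool.Agent.H934R4.AN.TaskQ4
import Pool.Agent.H934R4.AN.TaskGelf
import Pool.Agent.H934R4.AN.TaskStab
import Pool.Agent.H934R4.AN.TaskIrr
import Pool.Agent.H934R4.AN.TaskOpenIrr
import Pool.Agent.H934R4.AN.TaskSat
import Pool.Agent.H934R4.AN.TaskOpenU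
import Pool.Agent.H934R4.AN.TaskSimple
import Pool.Agent.H934R4.AN.TaskNot
import Pool.Agent.H934R4.AN.TaskT2
import Pool.Agent.H934R4.AN.TaskBd
import Pool.Agent.H934R4.AN.TaskAct

set_option autoImplicit false

open scoped MatrixGroups

namespace Pool.Agent.H934R4.AN

theorem main : ∃ Γ : Subgroup SL(2, ℝ), IsSurfaceGroup Γ ∧
    ¬ IsMaximalDoD (simpleAnosovDomain Γ I4 1) ∧
    ∃ x : CharVar Γ I4, x ∉ simpleAnosovDomain Γ I4 1 ∧ ∀ Ω : Set (CharVar Γ I4), IsDoD Ω →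
      ∃ Ω' : Set (CharVar Γ I4), IsDoD Ω' ∧ Ω ⊆ Ω' ∧ x ∈ Ω' := by
  have hDisc := TaskDiscN.taskDisc
  have hHyp := TaskHypN.taskHyp
  have hFree := TaskFreeN.taskFree hHyp
  have hCoc := TaskCocN.taskCoc TaskMinkN.taskMink TaskRepsN.taskReps
  have hFG := TaskFGN.taskFG hCoc hDisc
  have hConj := TaskConjN.taskConj hHyp TaskPairN.taskPair TaskBasisN.taskBasis
  have hNorm := TaskNormN.taskNorm hCoc hDisc hFG
  have hFin := TaskFinN.taskFin TaskTrN.taskTr hNorm hConj hFG TaskNCN.taskNC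
  have hQ3 := TaskQ3N.taskQ3 hDisc TaskQ1N.taskQ1 TaskQ2N.taskQ2
  have hQ4 := TaskQ4N.taskQ4 hDisc TaskQ2N.taskQ2
  have hStab := TaskStabN.taskStab hHyp TaskDiagN.taskDiag hQ3 hQ4 TaskGelfN.taskGelf hCoc
  exact assembly hDisc hFree hCoc hFin hStab TaskIrrN.taskIrr TaskOpenIrrN.taskOpenIrr
    (TaskOpenUN.taskOpenU TaskSatN.taskSat) (TaskSimpleN.taskSimple hFree) TaskNotN.taskNot
    TaskT2N.taskT2 TaskBdN.taskBd TaskActN.taskAct

end Pool.Agent.H934R4.AN
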