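import Pool.Agent.H934R4.AN.Defs

/-!
# The arithmetic surface group and the representation `ρ₁ = ρ₀ ⊗ τ`

Quaternions `x 0 + x 1 i + x 2 j + x 3 k` over `ℤ[√2]` with `i² = √2`, `j² = -1`, `k = ij = -ji`.
-/

set_option autoImplicit false

noncomputable section

open Filter Topology Set
open scoped MatrixGroups Kronecker

namespace Pool.Agent.H934R4.AN

/-- the first real embedding of `ℤ[√2]` -/
def e1 (x : ℤ√2) : ℝ := x.re + x.im * √2

/-- the second real embedding of `ℤ[√2]` -/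
def e2 (x : ℤ√2) : ℝ := x.re - x.im * √2

/-- the fourth root of two -/
def th : ℝ := √√2

theorem sqrt2_sq : √(2 : ℝ) * √2 = 2 := Real.mul_self_sqrt (by norm_num)
theorem th_sq : th * th = √2 := Real.mul_self_sqrt (Real.sqrt_nonneg _)
theorem th_pos : 0 < th := Real.sqrt_pos.2 (Real.sqrt_pos.2 (by norm_num))

theorem e1_add (x y : ℤ√2) : e1 (x + y) = e1 x + e1 y := by simp [e1]; ring
theorem e2_add (x y : ℤ√2) : e2 (x + y) = e2 x + e2 y := by simp [e2]; ring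
theorem e1_neg (x : ℤ√2) : e1 (-x) = -e1 x := by simp [e1]; ring
theorem e2_neg (x : ℤ√2) : e2 (-x) = -e2 x := by simp [e2]; ring
theorem e1_sub (x y : ℤ√2) : e1 (x - y) = e1 x - e1 y := by simp [e1]; ring
theorem e2_sub (x y : ℤ√2) : e2 (x - y) = e2 x - e2 y := by simp [e2]; ring
theorem e1_mul (x y : ℤ√2) : e1 (x * y) = e1 x * e1 y := by
  simp only [e1, Zsqrtd.re_mul, Zsqrtd.im_mul]; push_cast; linear_combination (-(x.im * y.im : ℝ)) * sqrt2_sq
theorem e2_mul (x y : ℤ√2) : e2 (x * y) = e2 x * e2 y := by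
  simp only [e2, Zsqrtd.re_mul, Zsqrtd.im_mul]; push_cast; linear_combination (-(x.im * y.im : ℝ)) * sqrt2_sq
theorem e1_one : e1 1 = 1 := by simp [e1]
theorem e2_one : e2 1 = 1 := by simp [e2]
theorem e1_zero : e1 0 = 0 := by simp [e1]
theorem e2_zero : e2 0 = 0 := by simp [e2]

/-- the element `√2` of `ℤ[√2]` -/
def w2 : ℤ√2 := ⟨0, 1⟩
theorem e1_w2 : e1 w2 = √2 := by simp [e1, w2]
theorem e2_w2 : e2 w2 = -√2 := by simp [e2, w2]

theorem e1_inj {x y : ℤ√2} (h : e1 x = e1 y) : x = y := by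
  have hirr : Irrational (√2) := irrational_sqrt_two
  by_cases h2 : x.im = y.im
  · ext
    · simp only [e1, h2] at h
      exact_mod_cast (add_right_cancel h)
    · exact h2
  · exfalso
    have h3 : ((y.im - x.im : ℤ) : ℝ) * √2 = ((x.re - y.re : ℤ) : ℝ) := by
      simp only [e1] at h; push_cast; linarith
    have h4 : ((y.im - x.im : ℤ) : ℝ) ≠ 0 := by
      exact_mod_cast sub_ne_zero.2 (Ne.symm h2)
    apply hirr
    refine ⟨((x.re - y.re : ℤ) : ℚ) / ((y.im - x.im : ℤ) : ℚ), ?_⟩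
    push_cast at h3 h4 ⊢
    rw [div_eq_iff h4]; linarith

/-- quaternions over `ℤ[√2]` -/
abbrev Q4 : Type := Fin 4 → ℤ√2

/-- product of quaternions -/
def qmul (x y : Q4) : Q4 :=
  ![x 0 * y 0 + w2 * (x 1 * y 1) - x 2 * y 2 + w2 * (x 3 * y 3),
    x 0 * y 1 + x 1 * y 0 + x 2 * y 3 - x 3 * y 2,
    x 0 * y 2 + x 2 * y 0 + w2 * (x 1 * y 3) - w2 * (x 3 * y 1),
    x 0 * y 3 + x 3 * y 0 + x 1 * y 2 - x 2 * y 1]

/-- the conjugate quaternion -/
def qconj (x : Q4) : Q4 := ![x 0, -x 1, -x 2, -x 3]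

/-- the reduced norm -/
def qn (x : Q4) : ℤ√2 := x 0 * x 0 - w2 * (x 1 * x 1) + x 2 * x 2 - w2 * (x 3 * x 3)

/-- the first real place: real matrices -/
def MM (x : Q4) : Matrix (Fin 2) (Fin 2) ℝ :=
  !![e1 (x 0) + th * e1 (x 1), e1 (x 2) + th * e1 (x 3);
     -e1 (x 2) + th * e1 (x 3), e1 (x 0) - th * e1 (x 1)]

/-- the second real place: Hamilton quaternions -/
def TT (x : Q4) : Matrix (Fin 2) (Fin 2) ℂ :=
  !![(e2 (x 0) : ℂ) + th * Complex.I * e2 (x 1), (e2 (x 2) : ℂ) + th * Complex.I * e2 (x 3);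
     -(e2 (x 2) : ℂ) + th * Complex.I * e2 (x 3), (e2 (x 0) : ℂ) - th * Complex.I * e2 (x 1)]

theorem MM_mul (x y : Q4) : MM (qmul x y) = MM x * MM y := by
  have h := th_sq
  ext i j
  fin_cases i <;> fin_cases j <;>
    simp [MM, qmul, Matrix.mul_apply, Fin.sum_univ_two, e1_add, e1_sub, e1_mul, e1_w2]
  · linear_combination (-(e1 (x 1) * e1 (y 1)) - e1 (x 3) * e1 (y 3)) * h
  · linear_combination (-(e1 (x 1) * e1 (y 3)) + e1 (x 3) * e1 (y 1)) * h
  · linear_combination (e1 (x 1) * e1 (y 3) - e1 (x 3) * e1 (y 1)) * h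
  · linear_combination (-(e1 (x 1) * e1 (y 1)) - e1 (x 3) * e1 (y 3)) * h

theorem TT_mul (x y : Q4) : TT (qmul x y) = TT x * TT y := by
  have h : (th : ℂ) * th = (√2 : ℝ) := by rw [← Complex.ofReal_mul, th_sq]
  have hI : Complex.I * Complex.I = -1 := Complex.I_mul_I
  ext i j
  fin_cases i <;> fin_cases j <;>
    simp [TT, qmul, Matrix.mul_apply, Fin.sum_univ_two, e2_add, e2_sub, e2_mul, e2_w2]
  · linear_combination (e2 (x 1) * e2 (y 1) + e2 (x 3) * e2 (y 3) : ℂ) * h -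
      (th * th * (e2 (x 1) * e2 (y 1) + e2 (x 3) * e2 (y 3)) : ℂ) * hI
  · linear_combination (e2 (x 1) * e2 (y 3) - e2 (x 3) * e2 (y 1) : ℂ) * h -
      (th * th * (e2 (x 1) * e2 (y 3) - e2 (x 3) * e2 (y 1)) : ℂ) * hI
  · linear_combination (-(e2 (x 1) * e2 (y 3)) + e2 (x 3) * e2 (y 1) : ℂ) * h -
      (th * th * (-(e2 (x 1) * e2 (y 3)) + e2 (x 3) * e2 (y 1)) : ℂ) * hI
  · linear_combination (e2 (x 1) * e2 (y 1) + e2 (x 3) * e2 (y 3) : ℂ) * h -
      (th * th * (e2 (x 1) * e2 (y 1) + e2 (x 3) * e2 (y 3)) : ℂ) * hI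

theorem MM_det (x : Q4) : (MM x).det = e1 (qn x) := by
  have h := th_sq
  rw [MM, Matrix.det_fin_two_of, qn, e1_sub, e1_add, e1_sub, e1_mul, e1_mul, e1_mul, e1_mul, e1_mul,
    e1_mul, e1_w2]
  linear_combination (-(e1 (x 1) * e1 (x 1)) - e1 (x 3) * e1 (x 3)) * h

theorem TT_det (x : Q4) : (TT x).det = (e2 (qn x) : ℂ) := by
  have h : (th : ℂ) * th = (√2 : ℝ) := by rw [← Complex.ofReal_mul, th_sq]
  have hI : Complex.I * Complex.I = -1 := Complex.I_mul_I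
  rw [TT, Matrix.det_fin_two_of, qn, e2_sub, e2_add, e2_sub, e2_mul, e2_mul, e2_mul, e2_mul, e2_mul,
    e2_mul, e2_w2]
  push_cast
  linear_combination (e2 (x 1) * e2 (x 1) + e2 (x 3) * e2 (x 3) : ℂ) * h -
      (th * th * (e2 (x 1) * e2 (x 1) + e2 (x 3) * e2 (x 3)) : ℂ) * hI

/-- quaternions congruent to one modulo three -/
def Cong (x : Q4) : Prop := 3 ∣ x 0 - 1 ∧ 3 ∣ x 1 ∧ 3 ∣ x 2 ∧ 3 ∣ x 3

theorem Cong.mul {x y : Q4} (hx : Cong x) (hy : Cong y) : Cong (qmul x y) := by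
  obtain ⟨⟨a0, h0⟩, ⟨a1, h1⟩, ⟨a2, h2⟩, ⟨a3, h3⟩⟩ := hx
  obtain ⟨⟨b0, g0⟩, ⟨b1, g1⟩, ⟨b2, g2⟩, ⟨b3, g3⟩⟩ := hy
  have h0' : x 0 = 3 * a0 + 1 := by rw [← h0]; ring
  have g0' : y 0 = 3 * b0 + 1 := by rw [← g0]; ring
  simp only [Cong, qmul, Matrix.cons_val_zero, Matrix.cons_val_one, Matrix.cons_val, h0', h1, h2,
    h3, g0', g1, g2, g3]
  refine ⟨⟨3 * a0 * b0 + a0 + b0 + w2 * (3 * a1 * b1) - 3 * a2 * b2 + w2 * (3 * a3 * b3), by ring⟩,
    ⟨(3 * a0 + 1) * b1 + a1 * (3 * b0 + 1) + 3 * a2 * b3 - 3 * a3 * b2, by ring⟩,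
    ⟨(3 * a0 + 1) * b2 + a2 * (3 * b0 + 1) + w2 * (3 * a1 * b3) - w2 * (3 * a3 * b1), by ring⟩,
    ⟨(3 * a0 + 1) * b3 + a3 * (3 * b0 + 1) + 3 * a1 * b2 - 3 * a2 * b1, by ring⟩⟩

theorem MM_one : MM ![1, 0, 0, 0] = 1 := by
  ext i j
  fin_cases i <;> fin_cases j <;> simp [MM, e1_one, e1_zero]

theorem TT_one : TT ![1, 0, 0, 0] = 1 := by
  ext i j
  fin_cases i <;> fin_cases j <;> simp [TT, e2_one, e2_zero]

theorem MM_conj (x : Q4) : MM (qconj x) = (MM x).adjugate := by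
  rw [Matrix.adjugate_fin_two]
  ext i j
  fin_cases i <;> fin_cases j <;> simp [MM, qconj, e1_neg] <;> ring

/-- the arithmetic surface group: quaternions of norm one congruent to one modulo three -/
def Gam : Subgroup SL(2, ℝ) where
  carrier := {g | ∃ x : Q4, Cong x ∧ g.1 = MM x}
  mul_mem' := by
    rintro g h ⟨x, hx, hgx⟩ ⟨y, hy, hgy⟩
    exact ⟨qmul x y, hx.mul hy, by rw [MM_mul, ← hgx, ← hgy]; rfl⟩
  one_mem' := ⟨![1, 0, 0, 0], by simp [Cong], by rw [MM_one]; rfl⟩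
  inv_mem' := by
    rintro g ⟨x, hx, hgx⟩
    refine ⟨qconj x, ⟨hx.1, ?_, ?_, ?_⟩, ?_⟩
    · simpa [qconj] using hx.2.1
    · simpa [qconj] using hx.2.2.1
    · simpa [qconj] using hx.2.2.2
    · rw [MM_conj, ← hgx, Matrix.SpecialLinearGroup.coe_inv]

/-- the quaternion of an element of `Gam` -/
def crd (γ : Gam) : Q4 := γ.2.choose

theorem crd_cong (γ : Gam) : Cong (crd γ) := γ.2.choose_spec.1
theorem crd_MM (γ : Gam) : (γ : SL(2, ℝ)).1 = MM (crd γ) := γ.2.choose_spec.2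

theorem MM_inj {x y : Q4} (h : MM x = MM y) : x = y := by
  have h00 := congrFun (congrFun h 0) 0
  have h01 := congrFun (congrFun h 0) 1
  have h10 := congrFun (congrFun h 1) 0
  have h11 := congrFun (congrFun h 1) 1
  simp only [MM, Matrix.of_apply, Matrix.cons_val', Matrix.cons_val_zero, Matrix.cons_val_one,
    Matrix.cons_val_fin_one] at h00 h01 h10 h11
  have ht := th_pos
  funext i
  apply e1_inj
  fin_cases i
  · show e1 (x 0) = e1 (y 0); linarith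
  · show e1 (x 1) = e1 (y 1)
    have : th * e1 (x 1) = th * e1 (y 1) := by linarith
    exact mul_left_cancel₀ ht.ne' this
  · show e1 (x 2) = e1 (y 2); linarith
  · show e1 (x 3) = e1 (y 3)
    have : th * e1 (x 3) = th * e1 (y 3) := by linarith
    exact mul_left_cancel₀ ht.ne' this

theorem crd_mul (γ δ : Gam) : crd (γ * δ) = qmul (crd γ) (crd δ) := by
  apply MM_inj
  rw [MM_mul, ← crd_MM, ← crd_MM, ← crd_MM]
  rfl

theorem crd_one : crd 1 = ![1, 0, 0, 0] := by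
  apply MM_inj
  rw [← crd_MM, MM_one]; rfl

theorem crd_norm (γ : Gam) : qn (crd γ) = 1 := by
  apply e1_inj
  rw [← MM_det, ← crd_MM, e1_one]
  exact (γ : SL(2, ℝ)).2

/-- the second representation, with values in `SU(2)` -/
def tau : Gam →* Matrix.SpecialLinearGroup (Fin 2) ℂ where
  toFun γ := ⟨TT (crd γ), by rw [TT_det, crd_norm, e2_one]; simp⟩
  map_one' := by
    apply Subtype.ext
    show TT (crd 1) = 1
    rw [crd_one, TT_one]
  map_mul' γ δ := by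
    apply Subtype.ext
    show TT (crd (γ * δ)) = TT (crd γ) * TT (crd δ)
    rw [crd_mul, TT_mul]

/-- the complexification of `γ` -/
def cM (g : SL(2, ℝ)) : Matrix (Fin 2) (Fin 2) ℂ := g.1.map (fun x : ℝ => (x : ℂ))

theorem cM_mul (g h : SL(2, ℝ)) : cM (g * h) = cM g * cM h := by
  have : (g * h).1 = g.1 * h.1 := rfl
  rw [cM, this]
  exact Matrix.map_mul (f := Complex.ofRealHom)

theorem cM_one : cM 1 = 1 := by
  ext i j
  fin_cases i <;> fin_cases j <;> simp [cM]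

theorem cM_det (g : SL(2, ℝ)) : (cM g).det = 1 := by
  have h := g.2
  rw [Matrix.det_fin_two] at h ⊢
  simp only [cM, Matrix.map_apply]
  exact_mod_cast congrArg (fun x : ℝ => (x : ℂ)) h

/-- the index set of the four dimensional representation -/
abbrev I4 : Type := Fin 2 × Fin 2

/-- the representation `ρ₁ = ρ₀ ⊗ τ` in `SL(4,ℂ)` -/
def rho1 : Rep Gam I4 := show Gam →* Matrix.SpecialLinearGroup I4 ℂ from
  { toFun := fun γ => ⟨cM γ ⊗ₖ (tau γ).1, by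
      rw [Matrix.det_kronecker, cM_det, (tau γ).2]; simp⟩
    map_one' := by
      apply Subtype.ext
      show cM ((1 : Gam) : SL(2, ℝ)) ⊗ₖ (tau 1).1 = 1
      rw [map_one, Subgroup.coe_one, cM_one]
      exact Matrix.one_kronecker_one
    map_mul' := fun γ δ => by
      apply Subtype.ext
      show cM ((γ * δ : Gam) : SL(2, ℝ)) ⊗ₖ (tau (γ * δ)).1 =
        (cM γ ⊗ₖ (tau γ).1) * (cM δ ⊗ₖ (tau δ).1)
      rw [map_mul, Subgroup.coe_mul, cM_mul, ← Matrix.mul_kronecker_mul]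
      rfl }

theorem mat_rho1 (γ : Gam) : mat rho1 γ = cM γ ⊗ₖ TT (crd γ) := rfl

end Pool.Agent.H934R4.AN
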