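import Pool.Agent.H934R4.AN.Stmts

/-!
# TaskOpenU (helper853): the image in the character variety of an open set of irreducible
representations is open
-/

set_option autoImplicit false

noncomputable section

open Filter Topology Set
open scoped MatrixGroups Kronecker

namespace Pool.Agent.H934R4.AN

namespace TaskOpenUN

variable {Γ : Subgroup SL(2, ℝ)} {ι : Type} [Fintype ι] [DecidableEq ι]

lemma mat_mul (ρ : Rep Γ ι) (γ γ' : Γ) : mat ρ (γ * γ') = mat ρ γ * mat ρ γ' := by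
  unfold mat
  rw [map_mul]
  rfl

lemma mat_one (ρ : Rep Γ ι) : mat ρ 1 = 1 := by
  unfold mat
  rw [map_one]
  rfl

lemma mat_det (ρ : Rep Γ ι) (γ : Γ) : (mat ρ γ).det = 1 :=
  ((show Γ →* Matrix.SpecialLinearGroup ι ℂ from ρ) γ).2

/-- conjugation -/
def cj (h : Matrix ι ι ℂ) (hd : h.det ≠ 0) (ρ : Rep Γ ι) : Rep Γ ι :=
  (show Γ →* Matrix.SpecialLinearGroup ι ℂ from
    { toFun := fun γ => ⟨h⁻¹ * mat ρ γ * h, by
        rw [Matrix.det_mul, Matrix.det_mul, mat_det, mul_one, ← Matrix.det_mul,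
          Matrix.nonsing_inv_mul h (isUnit_iff_ne_zero.mpr hd), Matrix.det_one]⟩
      map_one' := by
        apply Subtype.ext
        change h⁻¹ * mat ρ 1 * h = 1
        rw [mat_one, mul_one, Matrix.nonsing_inv_mul h (isUnit_iff_ne_zero.mpr hd)]
      map_mul' := by
        intro γ γ'
        apply Subtype.ext
        change h⁻¹ * mat ρ (γ * γ') * h = (h⁻¹ * mat ρ γ * h) * (h⁻¹ * mat ρ γ' * h)
        rw [mat_mul]
        have e : h * h⁻¹ = 1 := Matrix.mul_nonsing_inv h (isUnit_iff_ne_zero.mpr hd)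
        calc h⁻¹ * (mat ρ γ * mat ρ γ') * h = h⁻¹ * mat ρ γ * 1 * mat ρ γ' * h := by
              rw [mul_one, Matrix.mul_assoc h⁻¹ (mat ρ γ)]
          _ = h⁻¹ * mat ρ γ * (h * h⁻¹) * mat ρ γ' * h := by rw [e]
          _ = _ := by simp only [Matrix.mul_assoc] })

lemma mat_cj (h : Matrix ι ι ℂ) (hd : h.det ≠ 0) (ρ : Rep Γ ι) (γ : Γ) :
    mat (cj h hd ρ) γ = h⁻¹ * mat ρ γ * h := rfl

lemma continuous_mat (γ : Γ) : Continuous (fun ρ : Rep Γ ι => mat ρ γ) := by
  have h : Continuous (fun (ρ : Rep Γ ι) (γ : Γ) => mat ρ γ) := continuous_induced_dom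
  exact (continuous_apply γ).comp h

lemma continuous_cj (h : Matrix ι ι ℂ) (hd : h.det ≠ 0) :
    Continuous (cj h hd : Rep Γ ι → Rep Γ ι) := by
  refine continuous_induced_rng.mpr (continuous_pi fun γ => ?_)
  exact (continuous_const.mul (continuous_mat γ)).mul continuous_const

lemma cls_cj (h : Matrix ι ι ℂ) (hd : h.det ≠ 0) (ρ : Rep Γ ι) : cls (cj h hd ρ) = cls ρ := by
  refine Quotient.sound ?_
  intro γ
  rw [mat_cj, Matrix.mul_assoc, Matrix.charpoly_mul_comm, Matrix.mul_assoc,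
    Matrix.mul_nonsing_inv h (isUnit_iff_ne_zero.mpr hd), mul_one]

lemma rep_ext {ρ ρ' : Rep Γ ι} (h : ∀ γ, mat ρ γ = mat ρ' γ) : ρ = ρ' := by
  have : (show Γ →* Matrix.SpecialLinearGroup ι ℂ from ρ) =
      (show Γ →* Matrix.SpecialLinearGroup ι ℂ from ρ') :=
    MonoidHom.ext fun γ => Subtype.ext (h γ)
  exact this

end TaskOpenUN

open TaskOpenUN in
theorem TaskOpenUN.taskOpenU (hSat : TaskSat) : TaskOpenU := by
  intro V hV hspan
  have hpre : (cls : Rep Gam I4 → CharVar Gam I4) ⁻¹' (cls '' V) =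
      ⋃ h : {h : Matrix I4 I4 ℂ // h.det ≠ 0}, (cj h.1 h.2) ⁻¹' V := by
    ext ρ'
    rw [Set.mem_preimage, Set.mem_iUnion]
    constructor
    · rintro ⟨ρ, hρ, he⟩
      have heq : ∀ γ : Gam, (mat ρ γ).charpoly = (mat ρ' γ).charpoly := Quotient.exact he
      obtain ⟨h, hd, hh⟩ := hSat ρ ρ' (hspan ρ hρ) heq
      refine ⟨⟨h, hd⟩, ?_⟩
      rw [Set.mem_preimage]
      have : cj h hd ρ' = ρ := by
        apply rep_ext
        intro γ
        rw [mat_cj, Matrix.mul_assoc, ← hh γ, ← Matrix.mul_assoc,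
          Matrix.nonsing_inv_mul h (isUnit_iff_ne_zero.mpr hd), one_mul]
      rw [this]
      exact hρ
    · rintro ⟨⟨h, hd⟩, hρ⟩
      exact ⟨cj h hd ρ', hρ, cls_cj h hd ρ'⟩
  have hopen : IsOpen ((cls : Rep Gam I4 → CharVar Gam I4) ⁻¹' (cls '' V)) := by
    rw [hpre]
    exact isOpen_iUnion fun h => hV.preimage (continuous_cj h.1 h.2)
  exact isOpen_coinduced.mpr hopen

end Pool.Agent.H934R4.AN

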