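import Pool.Agent.H934R4.AN.Stmts

set_option autoImplicit false

noncomputable section

namespace Pool.Agent.H934R4.AN.TaskTrN

open Pool.Agent.H934R4.AN

theorem tr_eq (γ : Gam) : tr γ = 2 * e1 (crd γ 0) := by
  unfold tr
  rw [crd_MM, Matrix.trace_fin_two]
  simp [MM]
  ring

theorem e2_le (γ : Gam) : |e2 (crd γ 0)| ≤ 1 := by
  have h := congrArg e2 (crd_norm γ)
  rw [qn, e2_sub, e2_add, e2_sub, e2_mul, e2_mul, e2_mul, e2_mul, e2_mul, e2_mul, e2_w2,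
    e2_one] at h
  have h2 : 0 ≤ √(2 : ℝ) := Real.sqrt_nonneg _
  rw [abs_le_one_iff_mul_self_le_one]
  nlinarith [mul_nonneg h2 (mul_self_nonneg (e2 (crd γ 1))),
    mul_nonneg h2 (mul_self_nonneg (e2 (crd γ 3))), mul_self_nonneg (e2 (crd γ 2))]

theorem taskTr : TaskTr := by
  intro R
  have hfin : ((Set.Icc (-⌈|R| + 1⌉) ⌈|R| + 1⌉) ×ˢ (Set.Icc (-⌈|R| + 1⌉) ⌈|R| + 1⌉) :
      Set (ℤ × ℤ)).Finite := (Set.finite_Icc _ _).prod (Set.finite_Icc _ _)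
  refine (hfin.image fun p : ℤ × ℤ => 2 * e1 ⟨p.1, p.2⟩).subset ?_
  rintro t ⟨ht, γ, rfl⟩
  rw [tr_eq] at ht ⊢
  have h2 := e2_le γ
  refine ⟨((crd γ 0).re, (crd γ 0).im), ?_, rfl⟩
  have hR : |e1 (crd γ 0)| ≤ |R| / 2 := by
    have h3 : |2 * e1 (crd γ 0)| ≤ |R| := ht.trans (le_abs_self R)
    rw [abs_mul, abs_two] at h3
    linarith
  have hc := Int.le_ceil (|R| + 1)
  have h1 := abs_le.1 hR
  have h2' := abs_le.1 h2
  unfold e1 at h1
  unfold e2 at h2'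
  have hR0 := abs_nonneg R
  have hs : (1 : ℝ) ≤ √2 := by
    rw [Real.one_le_sqrt]; norm_num
  have him : |((crd γ 0).im : ℝ)| ≤ |R| + 1 := by
    have h4 : |((crd γ 0).im : ℝ) * √2| ≤ |R| + 1 := by
      rw [abs_le]
      constructor <;> linarith
    rw [abs_mul, abs_of_nonneg (Real.sqrt_nonneg 2)] at h4
    nlinarith [abs_nonneg ((crd γ 0).im : ℝ)]
  have hre : |((crd γ 0).re : ℝ)| ≤ |R| + 1 := by
    rw [abs_le]
    constructor <;> linarith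
  have him' := abs_le.1 (him.trans hc)
  have hre' := abs_le.1 (hre.trans hc)
  refine ⟨⟨?_, ?_⟩, ⟨?_, ?_⟩⟩
  · exact_mod_cast hre'.1
  · exact_mod_cast hre'.2
  · exact_mod_cast him'.1
  · exact_mod_cast him'.2

end Pool.Agent.H934R4.AN.TaskTrN
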